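import Mathlib

set_option autoImplicit false

namespace Pool.Agent.H228Z.Canopy

/-- `h` is harmonic for the simple random walk on `G` (unit weights on the edges, so that
`P(x,y) = 1 / deg x` for neighbours `y` of `x`): `h x = ∑_y P(x,y) h y` for every `x`. -/
def IsHarmonic {V : Type} (G : SimpleGraph V) [G.LocallyFinite] (h : V → ℝ) : Prop :=
  ∀ x, h x = ∑ y ∈ G.neighborFinset x, (1 / (G.degree x : ℝ)) * h y

/-- `𝓗_k(G)`: the vector space of harmonic functions `h` with
`|h x| ≤ c (1 + d(ρ,x))^k` for all `x`, for some constant `c = c(h)`. -/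
def Hk {V : Type} (G : SimpleGraph V) [G.LocallyFinite] (ρ : V) (k : ℝ) :
    Submodule ℝ (V → ℝ) where
  carrier := {h | IsHarmonic G h ∧ ∃ c : ℝ, ∀ x, |h x| ≤ c * (1 + (G.dist ρ x : ℝ)) ^ k}
  zero_mem' := ⟨fun x => by simp, 0, fun x => by simp⟩
  add_mem' := by
    rintro a b ⟨ha, ca, hca⟩ ⟨hb, cb, hcb⟩
    refine ⟨fun x => ?_, ca + cb, fun x => ?_⟩
    · simp only [Pi.add_apply, mul_add, Finset.sum_add_distrib]
      rw [← ha x, ← hb x]
    · have h1 := hca x
      have h2 := hcb x
      have h3 := abs_add_le (a x) (b x)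
      simp only [Pi.add_apply]
      linarith [add_mul ca cb ((1 + (G.dist ρ x : ℝ)) ^ k)]
  smul_mem' := by
    rintro r a ⟨ha, ca, hca⟩
    refine ⟨fun x => ?_, |r| * ca, fun x => ?_⟩
    · simp only [Pi.smul_apply, smul_eq_mul]
      rw [ha x, Finset.mul_sum]
      exact Finset.sum_congr rfl fun y _ => by ring
    · simp only [Pi.smul_apply, smul_eq_mul, abs_mul, mul_assoc]
      exact mul_le_mul_of_nonneg_left (hca x) (abs_nonneg r)

/-- The random rooted graph `(G, ρ)`, with the root `ρ` of law `π` (a probability vector on the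
vertices), is stationary for the simple random walk: for every set `A` of vertices that depends
only on the root-preserving isomorphism class of `(G, v)` (if an isomorphism of `G` maps `v ∈ A`
to `w` then `w ∈ A`), the probability that `ρ ∈ A` equals the probability that the first step
`X₁` of the walk started at `ρ` lies in `A`. -/
def IsStationary {V : Type} (G : SimpleGraph V) [G.LocallyFinite] (π : V → ℝ) : Prop :=
  (∀ v, 0 ≤ π v) ∧ HasSum π 1 ∧
    ∀ A : Set V, (∀ (φ : G ≃g G) (v : V), v ∈ A → φ v ∈ A) →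
      ∑' v, π v * A.indicator (fun _ => (1 : ℝ)) v =
        ∑' v, π v * ∑ y ∈ G.neighborFinset v,
          (1 / (G.degree v : ℝ)) * A.indicator (fun _ => (1 : ℝ)) y

end Pool.Agent.H228Z.Canopy
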