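import Mathlib
import Pool.Agent.H228Z.CanopyDefs

set_option autoImplicit false

namespace Pool.Agent.H228Z.Canopy

abbrev V : Type := ℤ × ℕ × ℕ

def B (s : ℕ) : ℕ := 2 * Nat.log 2 (s + 1)

def D (s : ℕ) : ℕ := B (s + 1) - B s

lemma B_mono {s t : ℕ} (h : s ≤ t) : B s ≤ B t := by
  unfold B
  have := Nat.log_mono_right (b := 2) (show s + 1 ≤ t + 1 by omega)
  omega

lemma B_succ (s : ℕ) : B (s + 1) = B s + D s := by
  have := B_mono (Nat.le_succ s)
  unfold D
  simp only [Nat.succ_eq_add_one] at this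
  omega

lemma B_zero : B 0 = 0 := by simp [B]

lemma D_le (s : ℕ) : D s ≤ 2 := by
  have h1 : Nat.log 2 (s + 1 + 1) ≤ Nat.log 2 ((s + 1) * 2) :=
    Nat.log_mono_right (by omega)
  rw [Nat.log_mul_base (by norm_num) (by omega)] at h1
  unfold D B
  omega

lemma pow_B_le (s : ℕ) : 2 ^ B s ≤ (s + 1) ^ 2 := by
  unfold B
  rw [mul_comm, pow_mul]
  exact Nat.pow_le_pow_left (Nat.pow_log_le_self 2 (by omega)) 2

lemma lt_pow_B (s : ℕ) : (s + 1) ^ 2 < 4 * 2 ^ B s := by
  have h := Nat.lt_pow_succ_log_self (b := 2) (by norm_num) (s + 1)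
  have h2 : (s + 1) ^ 2 < (2 ^ (Nat.log 2 (s + 1)).succ) ^ 2 :=
    Nat.pow_lt_pow_left h (by norm_num)
  have h3 : (2 ^ (Nat.log 2 (s + 1)).succ) ^ 2 = 4 * 2 ^ B s := by
    unfold B
    rw [Nat.succ_eq_add_one, ← pow_mul]
    ring
  omega

def par (x : V) : V := (x.1, x.2.1 + 1, x.2.2 >>> D x.2.1)

def G : SimpleGraph V where
  Adj x y := y = par x ∨ x = par y ∨
    (x.2.1 = 0 ∧ y.2.1 = 0 ∧ x.2.2 = y.2.2 ∧ (y.1 = x.1 + 1 ∨ x.1 = y.1 + 1))
  symm := ⟨by
    rintro x y (h | h | ⟨h1, h2, h3, h4⟩)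
    · exact Or.inr (Or.inl h)
    · exact Or.inl h
    · exact Or.inr (Or.inr ⟨h2, h1, h3.symm, h4.symm⟩)⟩
  loopless := ⟨by
    rintro ⟨i, s, u⟩ (h | h | ⟨-, -, -, h4⟩)
    · simp [par] at h
    · simp [par] at h
    · simp at h4⟩

def nbr : V → Finset V
  | (i, 0, u) => {par (i, 0, u), (i + 1, 0, u), (i - 1, 0, u)}
  | (i, s + 1, u) => insert (par (i, s + 1, u))
      ((Finset.range (2 ^ D s)).image fun r => (i, s, u * 2 ^ D s + r))

lemma mem_nbr (x y : V) : y ∈ nbr x ↔ G.Adj x y := by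
  obtain ⟨i, s, u⟩ := x
  obtain ⟨j, t, w⟩ := y
  cases s with
  | zero =>
    simp only [nbr, G, par, Finset.mem_insert, Finset.mem_singleton, Prod.mk.injEq, true_and]
    constructor
    · rintro (h | ⟨h1, h2, h3⟩ | ⟨h1, h2, h3⟩)
      · exact Or.inl h
      · exact Or.inr (Or.inr ⟨h2, h3.symm, Or.inl h1⟩)
      · exact Or.inr (Or.inr ⟨h2, h3.symm, Or.inr (by omega)⟩)
    · rintro (h | ⟨-, h, -⟩ | ⟨h1, h2, h3 | h3⟩)
      · exact Or.inl h
      · omega
      · exact Or.inr (Or.inl ⟨h3, h1, h2.symm⟩)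
      · exact Or.inr (Or.inr ⟨by omega, h1, h2.symm⟩)
  | succ s =>
    simp only [nbr, G, par, Finset.mem_insert, Finset.mem_image, Finset.mem_range, Prod.mk.injEq]
    constructor
    · rintro (h | ⟨r, hr, h1, h2, h3⟩)
      · exact Or.inl h
      · refine Or.inr (Or.inl ⟨h1, by omega, ?_⟩)
        subst h2
        rw [← h3, Nat.shiftRight_eq_div_pow, mul_comm, Nat.mul_add_div (by positivity),
          Nat.div_eq_of_lt hr]
        rfl
    · rintro (h | ⟨h1, h2, h3⟩ | ⟨h1, -⟩)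
      · exact Or.inl h
      · have hst : t = s := by omega
        subst hst
        refine Or.inr ⟨w % 2 ^ D t, Nat.mod_lt _ (by positivity), h1, rfl, ?_⟩
        rw [h3, Nat.shiftRight_eq_div_pow]
        exact Nat.div_add_mod' _ _
      · omega

noncomputable instance instLF : G.LocallyFinite := fun x =>
  Fintype.ofFinset (nbr x) (fun y => by rw [mem_nbr]; rfl)

lemma nbr_eq (x : V) : G.neighborFinset x = nbr x := by
  ext y
  rw [SimpleGraph.mem_neighborFinset, mem_nbr]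

lemma sum_zero (f : V → ℝ) (i : ℤ) (u : ℕ) :
    ∑ y ∈ G.neighborFinset (i, 0, u), f y =
      f (i, 1, u >>> D 0) + f (i + 1, 0, u) + f (i - 1, 0, u) := by
  rw [nbr_eq, nbr, Finset.sum_insert, Finset.sum_insert, Finset.sum_singleton]
  · simp only [par]; ring
  · simp only [Finset.mem_singleton, Prod.mk.injEq]; omega
  · simp [par]

lemma sum_succ (F : ℤ → ℕ → ℝ) (i : ℤ) (s u : ℕ) :
    ∑ y ∈ G.neighborFinset (i, s + 1, u), F y.1 y.2.1 = F i (s + 2) + 2 ^ D s * F i s := by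
  rw [nbr_eq, nbr, Finset.sum_insert, Finset.sum_image]
  · simp [par]
  · intro a _ b _ h
    simp only [Prod.mk.injEq] at h
    omega
  · simp only [par, Finset.mem_image, Prod.mk.injEq]
    rintro ⟨r, -, -, h, -⟩
    omega

lemma deg_zero (i : ℤ) (u : ℕ) : (G.degree (i, 0, u) : ℝ) = 3 := by
  have := sum_zero (fun _ => 1) i u
  rw [Finset.sum_const, SimpleGraph.card_neighborFinset_eq_degree] at this
  simp only [nsmul_eq_mul, mul_one] at this
  rw [this]; norm_num

lemma deg_succ (i : ℤ) (s u : ℕ) : (G.degree (i, s + 1, u) : ℝ) = 1 + 2 ^ D s := by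
  have := sum_succ (fun _ _ => 1) i s u
  rw [Finset.sum_const, SimpleGraph.card_neighborFinset_eq_degree] at this
  simp only [nsmul_eq_mul, mul_one] at this
  exact this

lemma deg_le (x : V) : G.degree x ≤ 5 := by
  obtain ⟨i, s, u⟩ := x
  cases s with
  | zero =>
    have := deg_zero i u
    have h : G.degree (i, 0, u) = 3 := by exact_mod_cast this
    omega
  | succ s =>
    have := deg_succ i s u
    have h : G.degree (i, s + 1, u) = 1 + 2 ^ D s := by exact_mod_cast this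
    have h2 : 2 ^ D s ≤ 2 ^ 2 := Nat.pow_le_pow_right (by norm_num) (D_le s)
    omega

/-! Connectedness -/

lemma reach_up (i : ℤ) (s u t : ℕ) :
    G.Reachable (i, s, u) (i, s + t, u >>> (B (s + t) - B s)) := by
  induction t with
  | zero => simp
  | succ t ih =>
    refine ih.trans (SimpleGraph.Adj.reachable (Or.inl ?_))
    simp only [par, Prod.mk.injEq, true_and]
    refine ⟨by ring, ?_⟩
    rw [← Nat.shiftRight_add]
    congr 1
    have h1 := B_succ (s + t)
    have h2 := B_mono (Nat.le_add_right s t)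
    rw [← add_assoc]
    omega

lemma reach_line (i : ℤ) : G.Reachable (0, 0, 0) (i, 0, 0) := by
  induction i using Int.induction_on with
  | zero => exact SimpleGraph.Reachable.refl _
  | succ n ih =>
    exact ih.trans (SimpleGraph.Adj.reachable (Or.inr (Or.inr ⟨rfl, rfl, rfl, Or.inl rfl⟩)))
  | pred n ih =>
    exact ih.trans (SimpleGraph.Adj.reachable
      (Or.inr (Or.inr ⟨rfl, rfl, rfl, Or.inr (by simp)⟩)))

lemma reach_all (x : V) : G.Reachable (0, 0, 0) x := by
  obtain ⟨i, s, u⟩ := x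
  have h1 := reach_up i s u (2 ^ (B s + u))
  have h2 := reach_up i 0 0 (s + 2 ^ (B s + u))
  have hB : B s + u ≤ B (s + 2 ^ (B s + u)) := by
    have : B s + u ≤ Nat.log 2 (s + 2 ^ (B s + u) + 1) :=
      Nat.le_log_of_pow_le (by norm_num) (by omega)
    have h3 : B (s + 2 ^ (B s + u)) = 2 * Nat.log 2 (s + 2 ^ (B s + u) + 1) := rfl
    omega
  have h0 : u >>> (B (s + 2 ^ (B s + u)) - B s) = 0 := by
    rw [Nat.shiftRight_eq_div_pow]
    apply Nat.div_eq_of_lt
    calc u < 2 ^ u := Nat.lt_two_pow_self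
      _ ≤ _ := Nat.pow_le_pow_right (by norm_num) (by omega)
  rw [h0] at h1
  rw [Nat.zero_shiftRight, zero_add] at h2
  exact (reach_line i).trans (h2.trans h1.symm)

lemma connected : G.Connected :=
  ⟨fun x y => (reach_all x).symm.trans (reach_all y)⟩

/-! Walk invariants -/

lemma adj_facts {x y : V} (h : G.Adj x y) :
    y.1 ≤ x.1 + 1 ∧ x.1 ≤ y.1 + 1 ∧ y.2.1 ≤ x.2.1 + 1 ∧ x.2.1 ≤ y.2.1 + 1 ∧
      ∀ H, x.2.1 + 1 ≤ H → x.2.2 >>> (B H - B x.2.1) = y.2.2 >>> (B H - B y.2.1) := by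
  obtain ⟨i, s, u⟩ := x
  obtain ⟨j, t, w⟩ := y
  rcases h with h | h | ⟨h1, h2, h3, h4⟩
  · simp only [par, Prod.mk.injEq] at h
    obtain ⟨rfl, rfl, rfl⟩ := h
    refine ⟨by simp, by simp, by simp, by simp only; omega, fun H hH => ?_⟩
    simp only at hH ⊢
    rw [← Nat.shiftRight_add]
    congr 1
    have h1 := B_succ s
    have h2 := B_mono hH
    omega
  · simp only [par, Prod.mk.injEq] at h
    obtain ⟨rfl, rfl, rfl⟩ := h
    refine ⟨by simp, by simp, by simp only; omega, by simp, fun H hH => ?_⟩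
    simp only at hH ⊢
    rw [← Nat.shiftRight_add]
    congr 1
    have h1 := B_succ t
    have h2 := B_mono (show t + 1 ≤ H by omega)
    omega
  · simp only at h1 h2 h3 h4
    subst h1 h2 h3
    refine ⟨by simp only; omega, by simp only; omega, by simp, by simp, fun H _ => rfl⟩

lemma walk_facts {x y : V} (p : G.Walk x y) :
    y.1 ≤ x.1 + p.length ∧ x.1 ≤ y.1 + p.length ∧ y.2.1 ≤ x.2.1 + p.length ∧
      x.2.1 ≤ y.2.1 + p.length ∧
      ∀ H, x.2.1 + p.length ≤ H → x.2.2 >>> (B H - B x.2.1) = y.2.2 >>> (B H - B y.2.1) := by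
  induction p with
  | nil => simp
  | cons h p ih =>
    obtain ⟨a1, a2, a3, a4, a5⟩ := adj_facts h
    obtain ⟨b1, b2, b3, b4, b5⟩ := ih
    simp only [SimpleGraph.Walk.length_cons]
    refine ⟨by push_cast; omega, by push_cast; omega, by omega, by omega, fun H hH => ?_⟩
    rw [a5 H (by omega), b5 H (by omega)]

lemma dist_facts (x y : V) :
    y.1 ≤ x.1 + G.dist x y ∧ x.1 ≤ y.1 + G.dist x y ∧ y.2.1 ≤ x.2.1 + G.dist x y ∧
      x.2.1 ≤ y.2.1 + G.dist x y ∧
      ∀ H, x.2.1 + G.dist x y ≤ H → x.2.2 >>> (B H - B x.2.1) = y.2.2 >>> (B H - B y.2.1) := by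
  obtain ⟨p, hp⟩ := connected.exists_walk_length_eq_dist x y
  rw [← hp]
  exact walk_facts p

lemma ball_le (v : V) (n : ℕ) (hn : 1 ≤ n) :
    {w | G.dist v w ≤ n}.encard ≤ (324 * n ^ 4 : ℕ) := by
  obtain ⟨i, s, u⟩ := v
  let f : ℕ × ℕ × ℕ → V := fun c =>
    (i - n + c.1, s + c.2.1 - n,
      (u >>> (B (s + n) - B s)) * 2 ^ (B (s + n) - B (s + c.2.1 - n)) + c.2.2)
  let T : Finset (ℕ × ℕ × ℕ) := Finset.range (2 * n + 1) ×ˢ Finset.range (2 * n + 1) ×ˢ
    Finset.range (4 * (2 * n + 1) ^ 2)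
  have hsub : {w | G.dist (i, s, u) w ≤ n} ⊆ ↑(T.image f) := by
    rintro ⟨j, t, w⟩ hw
    have hw' : G.dist (i, s, u) (j, t, w) ≤ n := hw
    obtain ⟨a1, a2, a3, a4, a5⟩ := dist_facts (i, s, u) (j, t, w)
    simp only at a1 a2 a3 a4 a5
    have a6 := a5 (s + n) (by omega)
    rw [Finset.coe_image]
    refine ⟨((j - i + n).toNat, t + n - s, w % 2 ^ (B (s + n) - B t)), ?_, ?_⟩
    · simp only [T, Finset.coe_product, Finset.coe_range, Set.mem_prod, Set.mem_Iio]
      refine ⟨by omega, by omega, ?_⟩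
      have h1 : w % 2 ^ (B (s + n) - B t) < 2 ^ (B (s + n) - B t) := Nat.mod_lt _ (by positivity)
      have h2 : 2 ^ (B (s + n) - B t) * 2 ^ B t = 2 ^ B (s + n) := by
        rw [← pow_add]
        congr 1
        have := B_mono (show t ≤ s + n by omega)
        omega
      have h3 := pow_B_le (s + n)
      have h4 := lt_pow_B t
      have h5 : s + n + 1 ≤ (2 * n + 1) * (t + 1) := by nlinarith
      have h6 : (s + n + 1) ^ 2 ≤ ((2 * n + 1) * (t + 1)) ^ 2 := Nat.pow_le_pow_left h5 2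
      have h7 : 2 ^ (B (s + n) - B t) * 2 ^ B t ≤ (4 * (2 * n + 1) ^ 2) * 2 ^ B t := by
        calc _ ≤ (2 * n + 1) ^ 2 * (t + 1) ^ 2 := by rw [h2, ← mul_pow]; omega
          _ ≤ (2 * n + 1) ^ 2 * (4 * 2 ^ B t) := Nat.mul_le_mul_left _ h4.le
          _ = _ := by ring
      have h8 := Nat.le_of_mul_le_mul_right h7 (by positivity)
      omega
    · have ht : s + (t + n - s) - n = t := by omega
      simp only [f, ht, Prod.mk.injEq, true_and]
      refine ⟨by omega, ?_⟩
      rw [a6, Nat.shiftRight_eq_div_pow]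
      exact Nat.div_add_mod' _ _
  refine (Set.encard_le_encard hsub).trans ?_
  rw [Set.encard_coe_eq_coe_finsetCard]
  have h1 : (T.image f).card ≤ T.card := Finset.card_image_le
  have h2 : T.card = (2 * n + 1) * ((2 * n + 1) * (4 * (2 * n + 1) ^ 2)) := by
    simp [T]
  have h3 : (2 * n + 1) ^ 4 ≤ (3 * n) ^ 4 := Nat.pow_le_pow_left (by omega) 4
  have h4 : (T.image f).card ≤ 324 * n ^ 4 := by
    calc _ ≤ 4 * (2 * n + 1) ^ 4 := by rw [h2] at h1; linarith [h1]
      _ ≤ 4 * (3 * n) ^ 4 := by omega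
      _ = _ := by ring
  exact_mod_cast h4

/-! Automorphisms -/

def tr (c : ℤ) (g : ℕ) (x : V) : V := (x.1 + c, x.2.1, x.2.2 ^^^ (g >>> B x.2.1))

lemma tr_tr (c : ℤ) (g : ℕ) (x : V) : tr (-c) g (tr c g x) = x := by
  obtain ⟨i, s, u⟩ := x
  simp [tr]

lemma tr_par (c : ℤ) (g : ℕ) (x : V) : tr c g (par x) = par (tr c g x) := by
  obtain ⟨i, s, u⟩ := x
  simp only [tr, par, Prod.mk.injEq, true_and]
  rw [Nat.shiftRight_xor_distrib, ← Nat.shiftRight_add, B_succ]

lemma tr_adj (c : ℤ) (g : ℕ) {x y : V} (h : G.Adj x y) : G.Adj (tr c g x) (tr c g y) := by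
  rcases h with h | h | ⟨h1, h2, h3, h4⟩
  · exact Or.inl (by rw [h, tr_par])
  · exact Or.inr (Or.inl (by rw [h, tr_par]))
  · refine Or.inr (Or.inr ⟨h1, h2, ?_, ?_⟩)
    · simp only [tr, h1, h2, h3]
    · simp only [tr]; omega

def trIso (c : ℤ) (g : ℕ) : G ≃g G where
  toFun := tr c g
  invFun := tr (-c) g
  left_inv := tr_tr c g
  right_inv := fun x => by
    have := tr_tr (-c) g x
    rwa [neg_neg] at this
  map_rel_iff' := by
    intro x y
    constructor
    · intro h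
      have := tr_adj (-c) g h
      simpa only [Equiv.coe_fn_mk, tr_tr] using this
    · exact tr_adj c g

lemma mem_iff {A : Set V} (hA : ∀ (φ : G ≃g G) (v : V), v ∈ A → φ v ∈ A) (x : V) :
    x ∈ A ↔ ((0 : ℤ), x.2.1, 0) ∈ A := by
  obtain ⟨i, s, u⟩ := x
  have h1 : trIso (-i) (u <<< B s) (i, s, u) = ((0 : ℤ), s, 0) := by
    change tr (-i) (u <<< B s) (i, s, u) = _
    simp [tr]
  constructor
  · intro h
    have := hA (trIso (-i) (u <<< B s)) _ h
    rwa [h1] at this
  · intro h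
    have := hA (trIso (-i) (u <<< B s)).symm _ h
    rw [← h1] at this
    simpa using this

/-! The stationary law -/

noncomputable def m (s : ℕ) : ℝ := 1 / 2 ^ B s

lemma m_pos (s : ℕ) : 0 < m s := by unfold m; positivity

lemma m_succ (s : ℕ) : 2 ^ D s * m (s + 1) = m s := by
  unfold m
  rw [B_succ, pow_add]
  field_simp

lemma m_zero : m 0 = 1 := by simp [m, B_zero]

lemma m_summable : Summable m := by
  have h1 : Summable fun s : ℕ => 4 * (1 / ((s + 1 : ℕ) : ℝ) ^ 2) :=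
    ((summable_nat_add_iff (f := fun s : ℕ => 1 / (s : ℝ) ^ 2) 1).2
      (Real.summable_one_div_nat_pow.2 (by norm_num))).mul_left 4
  refine Summable.of_nonneg_of_le (fun s => (m_pos s).le) (fun s => ?_) h1
  have h : (((s + 1 : ℕ) : ℝ)) ^ 2 ≤ 4 * 2 ^ B s := by exact_mod_cast (lt_pow_B s).le
  unfold m
  rw [mul_one_div, div_le_div_iff₀ (by positivity) (by positivity)]
  linarith

noncomputable def wt (s : ℕ) : ℝ := G.degree ((0 : ℤ), s, 0) * m s

lemma wt_zero : wt 0 = 3 := by simp [wt, deg_zero, m_zero]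

lemma wt_succ (s : ℕ) : wt (s + 1) = m (s + 1) + m s := by
  rw [wt, deg_succ, ← m_succ s]; ring

lemma wt_nonneg (s : ℕ) : 0 ≤ wt s := mul_nonneg (by positivity) (m_pos s).le

lemma wt_summable : Summable wt := by
  rw [← summable_nat_add_iff 1]
  simp only [wt_succ]
  exact ((summable_nat_add_iff 1).2 m_summable).add m_summable

noncomputable def Z : ℝ := ∑' s, wt s

lemma Z_pos : 0 < Z :=
  wt_summable.tsum_pos wt_nonneg 0 (by rw [wt_zero]; norm_num)

noncomputable def law (x : V) : ℝ := if x.1 = 0 ∧ x.2.2 = 0 then wt x.2.1 / Z else 0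

def emb (s : ℕ) : V := (0, s, 0)

lemma emb_inj : Function.Injective emb := fun a b h => by simpa [emb] using h

lemma law_emb (s : ℕ) : law (emb s) = wt s / Z := by simp [law, emb]

lemma law_off (x : V) (h : x ∉ Set.range emb) : law x = 0 := by
  obtain ⟨i, s, u⟩ := x
  unfold law
  rw [if_neg]
  rintro ⟨h1, h2⟩
  simp only at h1 h2
  subst h1 h2
  exact h ⟨s, rfl⟩

lemma tsum_law (f : V → ℝ) : ∑' v, law v * f v = ∑' s, wt s / Z * f (emb s) := by
  rw [← emb_inj.tsum_eq (f := fun v => law v * f v)]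
  · simp only [law_emb]
  · intro x hx
    by_contra h
    exact hx (by simp only [law_off x h, zero_mul])

lemma stationary : IsStationary G law := by
  refine ⟨fun v => ?_, ?_, fun A hA => ?_⟩
  · unfold law
    split_ifs
    · exact div_nonneg (wt_nonneg _) Z_pos.le
    · exact le_rfl
  · rw [← emb_inj.hasSum_iff law_off]
    have h := wt_summable.hasSum.div_const Z
    have h2 : (∑' s, wt s) / Z = 1 := div_self Z_pos.ne'
    rw [h2] at h
    have h3 : law ∘ emb = fun s => wt s / Z := funext law_emb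
    rw [h3]
    exact h
  · rw [tsum_law, tsum_law]
    set a : ℕ → ℝ := fun s => A.indicator (fun _ => (1 : ℝ)) (emb s) with ha
    have ha' : ∀ y : V, A.indicator (fun _ => (1 : ℝ)) y = a y.2.1 := by
      intro y
      by_cases h : y ∈ A
      · have h' : emb y.2.1 ∈ A := (mem_iff hA y).1 h
        simp only [ha, Set.indicator_of_mem h, Set.indicator_of_mem h']
      · have h' : emb y.2.1 ∉ A := fun h2 => h ((mem_iff hA y).2 h2)
        simp only [ha, Set.indicator_of_notMem h, Set.indicator_of_notMem h']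
    have hb : ∀ s, 0 ≤ a s ∧ a s ≤ 1 := by
      intro s
      by_cases h : emb s ∈ A
      · simp [ha, Set.indicator_of_mem h]
      · simp [ha, Set.indicator_of_notMem h]
    have hs : ∀ k, Summable fun s => m s * a (s + k) := fun k =>
      Summable.of_nonneg_of_le (fun s => mul_nonneg (m_pos s).le (hb _).1)
        (fun s => mul_le_of_le_one_right (m_pos s).le (hb _).2) m_summable
    have hs0 : Summable fun s => m s * a s := by simpa using hs 0
    have hs1 : Summable fun s => m s * a (s + 1) := hs 1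
    have hs0' : Summable fun s => m (s + 1) * a (s + 1) :=
      (summable_nat_add_iff (f := fun s => m s * a s) 1).2 hs0
    have hs1' : Summable fun s => m (s + 1) * a (s + 1 + 1) :=
      (summable_nat_add_iff (f := fun s => m s * a (s + 1)) 1).2 hs1
    have e0 := hs0.tsum_eq_zero_add
    have e1 := hs1.tsum_eq_zero_add
    rw [m_zero] at e0 e1
    have hL : HasSum (fun s => wt s * a s)
        (3 * a 0 + ((∑' s, m (s + 1) * a (s + 1)) + ∑' s, m s * a (s + 1))) := by
      rw [← hasSum_nat_add_iff' 1]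
      simp only [Finset.range_one, Finset.sum_singleton, wt_zero, wt_succ, add_mul,
        add_sub_cancel_left]
      exact hs0'.hasSum.add hs1.hasSum
    have hR : HasSum (fun s => wt s * ∑ y ∈ G.neighborFinset (emb s),
        (1 / (G.degree (emb s) : ℝ)) * A.indicator (fun _ => (1 : ℝ)) y)
        ((a 1 + 2 * a 0) + ((∑' s, m (s + 1) * a (s + 1 + 1)) + ∑' s, m s * a s)) := by
      rw [← hasSum_nat_add_iff' 1]
      have z0 : wt 0 * ∑ y ∈ G.neighborFinset (emb 0),
          (1 / (G.degree (emb 0) : ℝ)) * A.indicator (fun _ => (1 : ℝ)) y = a 1 + 2 * a 0 := by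
        rw [← Finset.mul_sum, emb, sum_zero, deg_zero, wt_zero]
        simp only [ha']
        ring
      have zs : ∀ s, wt (s + 1) * ∑ y ∈ G.neighborFinset (emb (s + 1)),
          (1 / (G.degree (emb (s + 1)) : ℝ)) * A.indicator (fun _ => (1 : ℝ)) y =
          m (s + 1) * a (s + 1 + 1) + m s * a s := by
        intro s
        rw [← Finset.mul_sum, emb]
        simp only [ha']
        rw [sum_succ (fun _ t => a t), wt, deg_succ, ← m_succ s]
        field_simp
      simp only [Finset.range_one, Finset.sum_singleton, z0, zs, add_sub_cancel_left]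
      exact hs1'.hasSum.add hs0.hasSum
    have hL' := (hL.div_const Z).tsum_eq
    have hR' := (hR.div_const Z).tsum_eq
    simp only [div_mul_eq_mul_div] at hL' hR' ⊢
    change ∑' s, wt s * a s / Z = _
    rw [hL', hR', e0, e1]
    simp only [zero_add]
    ring

/-! Harmonic functions -/

noncomputable def S (s : ℕ) : ℝ := ∑ t ∈ Finset.range s, 2 ^ B t

lemma S_zero : S 0 = 0 := by simp [S]

lemma S_succ (s : ℕ) : S (s + 1) = S s + 2 ^ B s := Finset.sum_range_succ _ _

lemma S_bound (s : ℕ) : 0 ≤ S s ∧ S s ≤ (s : ℝ) ^ 3 := by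
  induction s with
  | zero => simp [S_zero]
  | succ s ih =>
    have h : (2 : ℝ) ^ B s ≤ ((s : ℝ) + 1) ^ 2 := by exact_mod_cast pow_B_le s
    have hs : (0 : ℝ) ≤ s := by positivity
    rw [S_succ]
    push_cast
    constructor
    · have : (0 : ℝ) ≤ 2 ^ B s := by positivity
      linarith [ih.1]
    · nlinarith [ih.2]

noncomputable def F (j : ℤ) (i : ℤ) (s : ℕ) : ℝ :=
  (if i ≤ j then 1 else 0) + S s * ((if i = j then 1 else 0) - (if i = j + 1 then 1 else 0))

noncomputable def hf (j : ℤ) (x : V) : ℝ := F j x.1 x.2.1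

lemma hf_harm (j : ℤ) : IsHarmonic G (hf j) := by
  rintro ⟨i, s, u⟩
  rw [← Finset.mul_sum]
  cases s with
  | zero =>
    rw [sum_zero, deg_zero]
    have h1 : S 1 = 1 := by rw [S_succ, S_zero, B_zero]; norm_num
    simp only [hf, F, S_zero, h1]
    split_ifs <;> first | omega | norm_num
  | succ s =>
    simp only [hf]
    rw [sum_succ (F j), deg_succ]
    simp only [F]
    rw [S_succ (s + 1), S_succ s, B_succ s, pow_add]
    field_simp
    ring

lemma hf_mem (ρ : V) (j : ℤ) : hf j ∈ Hk G ρ 3 := by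
  refine ⟨hf_harm j, 1 + ((ρ.2.1 : ℝ) + 1) ^ 3, fun x => ?_⟩
  have h1 : (x.2.1 : ℝ) ≤ ρ.2.1 + G.dist ρ x := by exact_mod_cast (dist_facts ρ x).2.2.1
  have h2 := S_bound x.2.1
  have h3 : |hf j x| ≤ 1 + S x.2.1 := by
    simp only [hf, F]
    rw [abs_le]
    constructor <;> split_ifs <;> linarith [h2.1]
  have h4 : (1 + (G.dist ρ x : ℝ)) ^ (3 : ℝ) = (1 + (G.dist ρ x : ℝ)) ^ (3 : ℕ) := by
    rw [← Real.rpow_natCast]; norm_num
  rw [h4]
  have hd : (0 : ℝ) ≤ G.dist ρ x := by positivity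
  have hr : (0 : ℝ) ≤ ρ.2.1 := by positivity
  have h5 : (x.2.1 : ℝ) ≤ (ρ.2.1 + 1) * (1 + G.dist ρ x) := by nlinarith
  have h6 : (x.2.1 : ℝ) ^ 3 ≤ ((ρ.2.1 + 1) * (1 + G.dist ρ x)) ^ 3 :=
    pow_le_pow_left₀ (by positivity) h5 3
  have h7 : (1 : ℝ) ≤ (1 + (G.dist ρ x : ℝ)) ^ 3 := one_le_pow₀ (by linarith)
  rw [mul_pow] at h6
  nlinarith [h2.2]

lemma not_fin (ρ : V) : ¬ FiniteDimensional ℝ (Hk G ρ 3) := by
  intro hfin
  refine Module.Finite.not_linearIndependent_of_infinite (R := ℝ)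
    (fun j : ℤ => (⟨hf j, hf_mem ρ j⟩ : Hk G ρ 3)) ?_
  apply LinearIndependent.of_comp (Hk G ρ 3).subtype
  rw [linearIndependent_iff']
  intro T c hc i hi
  have h1 := congrFun hc (i, 0, 0)
  have h2 := congrFun hc (i + 1, 0, 0)
  simp only [Finset.sum_apply, Pi.smul_apply, Function.comp, Submodule.subtype_apply, hf, F,
    S_zero, zero_mul, add_zero, smul_eq_mul, Pi.zero_apply] at h1 h2
  have h3 : ∑ j ∈ T, c j * ((if i ≤ j then (1 : ℝ) else 0) - (if i + 1 ≤ j then 1 else 0)) = 0 := by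
    simp only [mul_sub, Finset.sum_sub_distrib, h1, h2, sub_zero]
  rw [Finset.sum_eq_single i] at h3
  · simpa using h3
  · intro b _ hb
    split_ifs <;> first | omega | simp
  · intro h
    exact absurd hi h

theorem main : ∃ (V : Type) (_ : Countable V) (G : SimpleGraph V) (_ : G.LocallyFinite)
    (π : V → ℝ), G.Connected ∧ (∀ v, G.degree v ≤ 5) ∧ IsStationary G π ∧
    (∀ (v : V) (n : ℕ), 1 ≤ n → {w | G.dist v w ≤ n}.encard ≤ (324 * n ^ 4 : ℕ)) ∧
    ∀ ρ : V, ¬ FiniteDimensional ℝ (Hk G ρ 3) :=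
  ⟨V, inferInstance, G, instLF, law, connected, deg_le, stationary, ball_le, not_fin⟩

end Pool.Agent.H228Z.Canopy
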