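import Pool.Agent.Helper446.Comp

set_option autoImplicit false

namespace Pool.Agent.H228Z.Cototal

open Encodable Nat.Partrec Pool.Agent.Helper446.RE

/-! ### The points -/

/-- the point of the space coded by the choice function `f` -/
def pt (C : Set ℕ) (f : ℕ → ℕ) : Set ℕ :=
  {x | x.unpair.2 = f x.unpair.1 ∨ (x ∈ C ∧ Nat.pair x.unpair.1 (f x.unpair.1) ∈ C)}

/-- a list read as a function -/
def fn (ρ : List ℕ) (i : ℕ) : ℕ := ρ.getD i 0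

/-- the first `N` values of a function -/
def pre (f : ℕ → ℕ) (N : ℕ) : List ℕ := (List.range N).map f

@[simp] lemma pre_length (f : ℕ → ℕ) (N : ℕ) : (pre f N).length = N := by simp [pre]

lemma fn_pre (f : ℕ → ℕ) {N i : ℕ} (h : i < N) : fn (pre f N) i = f i := by
  simp [fn, pre, List.getD, h]

lemma pt_congr {C : Set ℕ} {f g : ℕ → ℕ} {x : ℕ} (h : f x.unpair.1 = g x.unpair.1)
    (hx : x ∈ pt C f) : x ∈ pt C g := by
  unfold pt at *
  simp only [Set.mem_ofPred_eq] at *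
  rwa [← h]

/-- halting -/
def H (e : ℕ) (x : ℕ × List ℕ) : Prop := ∃ s, wst (ℕ × List ℕ) e s x = true

def Fire (C : Set ℕ) (k e : ℕ) (D τ : List ℕ) : Prop :=
  ∃ r ∈ D, ∃ l : List ℕ, H e (r, l) ∧ ∃ ρ : List ℕ, (∀ i < τ.length, fn ρ i = fn τ i) ∧
    ∀ x ∈ l, x.unpair.1 = k ∨ x ∈ pt C (fn ρ)

def Task (C : Set ℕ) (k : ℕ) (y : ℕ × ℕ × List ℕ) (z : ℕ × List ℕ × List ℕ) : Prop :=
  wst (ℕ × List ℕ) y.1 z.1 (Nat.pair k 0, z.2.1) = false ∨
    (∃ i, i < y.2.2.length ∧ fn z.2.2 i ≠ fn y.2.2 i) ∨ Fire C k y.2.1 z.2.1 z.2.2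

def Rule (C : Set ℕ) (x : ℕ) : Prop :=
  x.unpair.2 = 0 ∨ (decode (x.unpair.2 - 1) : Option (ℕ × List ℕ × List ℕ)) = Option.none ∨
    ∃ y : ℕ × ℕ × List ℕ, ∃ z : ℕ × List ℕ × List ℕ,
      decode x.unpair.1.unpair.1 = some y ∧ decode (x.unpair.2 - 1) = some z ∧
        Task C x.unpair.1 y z

/-! ### Computability -/

def dom (c : Code) : Set ℕ := {y | (Code.eval c y).Dom}

section re
variable {α : Type} [Primcodable α]

@[fun_prop] theorem cfn {ρ : α → List ℕ} {i : α → ℕ} (hρ : Computable ρ) (hi : Computable i) :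
    Computable fun a => fn (ρ a) (i a) :=
  (Primrec.list_getD 0).to_comp.comp hρ hi

@[fun_prop] theorem cwst {e s : α → ℕ} {x : α → ℕ × List ℕ} (he : Computable e)
    (hs : Computable s) (hx : Computable x) :
    Computable fun a => wst (ℕ × List ℕ) (e a) (s a) (x a) :=
  wst_comp.comp (f := fun p : (ℕ × ℕ) × (ℕ × List ℕ) => wst (ℕ × List ℕ) p.1.1 p.1.2 p.2)
    (g := fun a => ((e a, s a), x a)) ((he.pair hs).pair hx)

theorem re_dom {c : α → Code} {x : α → ℕ} (hc : Computable c) (hx : Computable x) :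
    REPred fun a => x a ∈ dom (c a) :=
  (Code.eval_part.comp hc hx).dom_re

theorem re_pt {c : α → Code} {ρ : α → List ℕ} {x : α → ℕ} (hc : Computable c)
    (hρ : Computable ρ) (hx : Computable x) : REPred fun a => x a ∈ pt (dom (c a)) (fn (ρ a)) :=
  or (eq (by fun_prop) (by fun_prop)) (and (re_dom hc hx) (re_dom hc (by fun_prop)))

theorem re_H {e : α → ℕ} {x : α → ℕ × List ℕ} (he : Computable e) (hx : Computable x) :
    REPred fun a => H (e a) (x a) :=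
  exN (p := fun a s => wst (ℕ × List ℕ) (e a) s (x a) = true) (of_bool (by fun_prop))

theorem re_Fire {c : α → Code} {k e : α → ℕ} {D τ : α → List ℕ} (hc : Computable c)
    (hk : Computable k) (he : Computable e) (hD : Computable D) (hτ : Computable τ) :
    REPred fun a => Fire (dom (c a)) (k a) (e a) (D a) (τ a) := by
  refine ex_mem (p := fun a r => ∃ l : List ℕ, H (e a) (r, l) ∧ ∃ ρ : List ℕ,
    (∀ i < (τ a).length, fn ρ i = fn (τ a) i) ∧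
      ∀ x ∈ l, x.unpair.1 = k a ∨ x ∈ pt (dom (c a)) (fn ρ)) ?_ hD
  refine ex (p := fun (b : α × ℕ) (l : List ℕ) => H (e b.1) (b.2, l) ∧ ∃ ρ : List ℕ,
    (∀ i < (τ b.1).length, fn ρ i = fn (τ b.1) i) ∧
      ∀ x ∈ l, x.unpair.1 = k b.1 ∨ x ∈ pt (dom (c b.1)) (fn ρ)) ?_
  refine and (re_H (by fun_prop) (by fun_prop)) ?_
  refine ex (p := fun (b : (α × ℕ) × List ℕ) (ρ : List ℕ) =>
    (∀ i < (τ b.1.1).length, fn ρ i = fn (τ b.1.1) i) ∧
      ∀ x ∈ b.2, x.unpair.1 = k b.1.1 ∨ x ∈ pt (dom (c b.1.1)) (fn ρ)) ?_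
  refine and ?_ ?_
  · refine all_lt (p := fun (b : ((α × ℕ) × List ℕ) × List ℕ) i =>
      fn b.2 i = fn (τ b.1.1.1) i) (eq (by fun_prop) (by fun_prop)) (by fun_prop)
  · refine all_mem (p := fun (b : ((α × ℕ) × List ℕ) × List ℕ) (x : ℕ) =>
      x.unpair.1 = k b.1.1.1 ∨ x ∈ pt (dom (c b.1.1.1)) (fn b.2)) ?_ (by fun_prop)
    exact or (eq (by fun_prop) (by fun_prop)) (re_pt (by fun_prop) (by fun_prop) (by fun_prop))

theorem re_Task {c : α → Code} {k : α → ℕ} {y : α → ℕ × ℕ × List ℕ}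
    {z : α → ℕ × List ℕ × List ℕ} (hc : Computable c) (hk : Computable k) (hy : Computable y)
    (hz : Computable z) : REPred fun a => Task (dom (c a)) (k a) (y a) (z a) := by
  refine or (eq (by fun_prop) (by fun_prop)) (or ?_
    (re_Fire hc hk (by fun_prop) (by fun_prop) (by fun_prop)))
  refine exN (p := fun a i => i < (y a).2.2.length ∧ fn (z a).2.2 i ≠ fn (y a).2.2 i) ?_
  exact and (lt (by fun_prop) (by fun_prop)) (ne (by fun_prop) (by fun_prop))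

theorem re_Rule : REPred fun p : Code × ℕ => Rule (dom p.1) p.2 := by
  refine or (eq (by fun_prop) (by fun_prop)) (or (eq (by fun_prop) (by fun_prop)) ?_)
  refine ex (p := fun (p : Code × ℕ) (y : ℕ × ℕ × List ℕ) => ∃ z : ℕ × List ℕ × List ℕ,
      decode p.2.unpair.1.unpair.1 = some y ∧ decode (p.2.unpair.2 - 1) = some z ∧
        Task (dom p.1) p.2.unpair.1 y z) ?_
  refine ex (p := fun (b : (Code × ℕ) × (ℕ × ℕ × List ℕ)) (z : ℕ × List ℕ × List ℕ) =>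
      decode b.1.2.unpair.1.unpair.1 = some b.2 ∧ decode (b.1.2.unpair.2 - 1) = some z ∧
        Task (dom b.1.1) b.1.2.unpair.1 b.2 z) ?_
  exact and (eq (by fun_prop) (by fun_prop)) (and (eq (by fun_prop) (by fun_prop))
    (re_Task (by fun_prop) (by fun_prop) (by fun_prop) (by fun_prop)))

end re

theorem exists_fix : ∃ C : Set ℕ, REPred (fun x => x ∈ C) ∧ ∀ x, x ∈ C ↔ Rule C x := by
  have h : Partrec₂ fun (c : Code) (x : ℕ) =>
      (Part.assert (Rule (dom c) x) fun _ => Part.some ()).map (fun _ => (0 : ℕ)) :=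
    Partrec.map re_Rule (Computable.const 0).to₂
  obtain ⟨c, hc⟩ := Code.fixed_point₂ h
  refine ⟨dom c, re_dom (Computable.const c) Computable.id, fun x => ?_⟩
  show (Code.eval c x).Dom ↔ _
  rw [hc]
  simp only [Part.map_Dom]
  exact ⟨fun h => h.1, fun h => ⟨h, trivial⟩⟩

/-! ### Generic functions -/

theorem exists_generic {ι : Type} [Countable ι] (P : ι → (ℕ → ℕ) → Prop)
    (hP : ∀ i N (g : ℕ → ℕ), ∃ N' : ℕ, ∃ g' : ℕ → ℕ, N ≤ N' ∧ (∀ j < N, g' j = g j) ∧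
      ∀ f : ℕ → ℕ, (∀ j < N', f j = g' j) → P i f) : ∃ f, ∀ i, P i f := by
  rcases isEmpty_or_nonempty ι with hι | hι
  · exact ⟨fun _ => 0, fun i => isEmptyElim i⟩
  obtain ⟨e, he⟩ := exists_surjective_nat ι
  choose N' g' h1 h2 h3 using hP
  let s : ℕ → ℕ × (ℕ → ℕ) := fun n => Nat.rec (0, fun _ => 0)
    (fun n p => (N' (e n) p.1 p.2 + 1, g' (e n) p.1 p.2)) n
  have hs : ∀ n, s (n + 1) = (N' (e n) (s n).1 (s n).2 + 1, g' (e n) (s n).1 (s n).2) :=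
    fun n => rfl
  have hlt : ∀ n, (s n).1 < (s (n + 1)).1 := fun n => by
    rw [hs]; exact Nat.lt_succ_of_le (h1 _ _ _)
  have hmono : StrictMono fun n => (s n).1 := strictMono_nat_of_lt_succ hlt
  have hag : ∀ n m, n ≤ m → ∀ j < (s n).1, (s m).2 j = (s n).2 j := by
    intro n m hnm
    induction m, hnm using Nat.le_induction with
    | base => intro j _; rfl
    | succ m hnm ih =>
      intro j hj
      rw [← ih j hj, hs]
      exact h2 _ _ _ j (lt_of_lt_of_le hj (hmono.monotone hnm))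
  refine ⟨fun j => (s (j + 1)).2 j, fun i => ?_⟩
  obtain ⟨n, rfl⟩ := he i
  refine h3 (e n) (s n).1 (s n).2 _ fun j hj => ?_
  have hj1 : j < (s (j + 1)).1 := lt_of_lt_of_le (Nat.lt_succ_self j) (hmono.id_le (j + 1))
  have hj2 : j < (s (n + 1)).1 := by rw [hs]; exact Nat.lt_succ_of_lt hj
  have e1 := hag (j + 1) (max (j + 1) (n + 1)) (le_max_left _ _) j hj1
  have e2 := hag (n + 1) (max (j + 1) (n + 1)) (le_max_right _ _) j hj2
  show (s (j + 1)).2 j = _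
  rw [← e1, e2, hs]

def Wn (C : Set ℕ) (e : ℕ) (D : List ℕ) (f : ℕ → ℕ) : Prop :=
  ∃ r ∈ D, ∃ l : List ℕ, H e (r, l) ∧ ∀ x ∈ l, x ∈ pt C f

def col (e1 e2 : ℕ) (σ : List ℕ) : ℕ := Nat.pair (encode (e1, e2, σ)) σ.length

def P1 (C : Set ℕ) (e1 e2 : ℕ) (f : ℕ → ℕ) : Prop :=
  ∃ σ : List ℕ, (∀ j < σ.length, f j = fn σ j) ∧
    ((∀ s, Nat.pair (col e1 e2 σ) s ∈ C) ∨
      ∃ D, H e1 (Nat.pair (col e1 e2 σ) 0, D) ∧ Nat.pair (col e1 e2 σ) 0 ∉ pt C f ∧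
        ¬ Wn C e2 D f)

def P2 (C : Set ℕ) (e : ℕ) (D : List ℕ) (f : ℕ → ℕ) : Prop :=
  Wn C e D f ∨ ∃ N, ∀ f' : ℕ → ℕ, (∀ j < N, f' j = f j) → ¬ Wn C e D f'

lemma exists_bound (l : List ℕ) (N : ℕ) : ∃ M, N ≤ M ∧ ∀ x ∈ l, x.unpair.1 < M := by
  induction l with
  | nil => exact ⟨N, le_rfl, by simp⟩
  | cons a l ih =>
    obtain ⟨M, h1, h2⟩ := ih
    refine ⟨max M (a.unpair.1 + 1), le_trans h1 (le_max_left _ _), fun x hx => ?_⟩
    rcases List.mem_cons.1 hx with rfl | hx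
    · exact lt_of_lt_of_le (Nat.lt_succ_self _) (le_max_right _ _)
    · exact lt_of_lt_of_le (h2 x hx) (le_max_left _ _)

lemma dense2 (C : Set ℕ) (e : ℕ) (D : List ℕ) (N : ℕ) (g : ℕ → ℕ) :
    ∃ N' : ℕ, ∃ g' : ℕ → ℕ, N ≤ N' ∧ (∀ j < N, g' j = g j) ∧
      ∀ f : ℕ → ℕ, (∀ j < N', f j = g' j) → P2 C e D f := by
  by_cases h : ∃ f' : ℕ → ℕ, (∀ j < N, f' j = g j) ∧ Wn C e D f'
  · obtain ⟨f', h1, r, hr, l, hl, h2⟩ := h
    obtain ⟨M, hM1, hM2⟩ := exists_bound l N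
    refine ⟨M, f', hM1, h1, fun f hf => Or.inl ⟨r, hr, l, hl, fun x hx => ?_⟩⟩
    exact pt_congr (hf _ (hM2 x hx)).symm (h2 x hx)
  · refine ⟨N, g, le_rfl, fun _ _ => rfl, fun f hf => Or.inr ⟨N, fun f' hf' hW => ?_⟩⟩
    exact h ⟨f', fun j hj => (hf' j hj).trans (hf j hj), hW⟩

lemma dense1 {C : Set ℕ} (hC : ∀ x, x ∈ C ↔ Rule C x) (e1 e2 : ℕ) (N : ℕ) (g : ℕ → ℕ) :
    ∃ N' : ℕ, ∃ g' : ℕ → ℕ, N ≤ N' ∧ (∀ j < N, g' j = g j) ∧
      ∀ f : ℕ → ℕ, (∀ j < N', f j = g' j) → P1 C e1 e2 f := by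
  set σ := pre g N with hσ
  set k := col e1 e2 σ with hk
  have hlen : σ.length = N := by simp [hσ]
  have hkN : N ≤ k := by
    rw [← hlen]
    exact Nat.right_le_pair (encode (e1, e2, σ)) σ.length
  by_cases h : ∀ s, Nat.pair k s ∈ C
  · refine ⟨N, g, le_rfl, fun _ _ => rfl, fun f hf => ⟨σ, fun j hj => ?_, Or.inl h⟩⟩
    rw [hlen] at hj
    rw [hf j hj, hσ, fn_pre g hj]
  push Not at h
  obtain ⟨s, hs⟩ := h
  have hR : ¬ Rule C (Nat.pair k s) := fun h => hs ((hC _).2 h)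
  unfold Rule at hR
  simp only [Nat.unpair_pair, not_or] at hR
  obtain ⟨hs0, hdec, hR⟩ := hR
  obtain ⟨z, hz⟩ := Option.ne_none_iff_exists'.1 hdec
  have hy : (decode k.unpair.1 : Option (ℕ × ℕ × List ℕ)) = some (e1, e2, σ) := by
    rw [hk, col, Nat.unpair_pair]; exact encodek _
  have hT : ¬ Task C k (e1, e2, σ) z := fun h => hR ⟨_, z, hy, hz, h⟩
  obtain ⟨t, D, τ⟩ := z
  unfold Task at hT
  simp only [not_or] at hT
  obtain ⟨hw, hag, hF⟩ := hT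
  push Not at hag
  refine ⟨max τ.length (k + 1), Function.update (fn τ) k s,
    le_trans (by omega) (le_max_right _ _), fun j hj => ?_, fun f hf => ⟨σ, fun j hj => ?_,
      Or.inr ⟨D, ⟨t, by simpa using hw⟩, ?_, ?_⟩⟩⟩
  · rw [Function.update_of_ne (by omega), hag j (by omega), hσ, fn_pre g hj]
  · rw [hf j (lt_of_lt_of_le (by omega) (le_max_right _ _)), Function.update_of_ne (by omega),
      hag j hj]
  · have hfk : f k = s := by
      rw [hf k (lt_of_lt_of_le (Nat.lt_succ_self k) (le_max_right _ _)), Function.update_self]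
    rintro (h | h)
    · simp only [Nat.unpair_pair] at h
      exact hs0 (by rw [← hfk]; exact h.symm)
    · simp only [Nat.unpair_pair] at h
      exact hs (by rw [← hfk]; exact h.2)
  · rintro ⟨r, hr, l, hl, h2⟩
    obtain ⟨M, hM1, hM2⟩ := exists_bound l τ.length
    refine hF ⟨r, hr, l, hl, pre (Function.update f k (fn τ k)) M, fun i hi => ?_, fun x hx => ?_⟩
    · rw [fn_pre _ (by omega)]
      by_cases hik : i = k
      · rw [hik, Function.update_self]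
      · rw [Function.update_of_ne hik, hf i (lt_of_lt_of_le hi (le_max_left _ _)),
          Function.update_of_ne hik]
    · by_cases hxk : x.unpair.1 = k
      · exact Or.inl hxk
      · refine Or.inr (pt_congr ?_ (h2 x hx))
        rw [fn_pre _ (hM2 x hx), Function.update_of_ne hxk]

theorem diag {C : Set ℕ} (hC : ∀ x, x ∈ C ↔ Rule C x) : ∃ f : ℕ → ℕ, ∀ e1 e2 : ℕ,
    ¬ ∀ n, n ∈ pt C f ↔ ∃ D, H e1 (n, D) ∧ ¬ Wn C e2 D f := by
  obtain ⟨f, hf⟩ := exists_generic (ι := (ℕ × ℕ) ⊕ (ℕ × List ℕ))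
    (fun i f => Sum.elim (fun p : ℕ × ℕ => P1 C p.1 p.2 f)
      (fun p : ℕ × List ℕ => P2 C p.1 p.2 f) i) (by
      rintro (p | p) N g
      · exact dense1 hC p.1 p.2 N g
      · exact dense2 C p.1 p.2 N g)
  refine ⟨f, fun e1 e2 h => ?_⟩
  obtain ⟨σ, hσ, hcase⟩ : P1 C e1 e2 f := hf (Sum.inl (e1, e2))
  set k := col e1 e2 σ with hk
  rcases hcase with hall | ⟨D, h1, h2, h3⟩
  swap
  · exact h2 ((h _).2 ⟨D, h1, h3⟩)
  have h0 : Nat.pair k 0 ∈ pt C f := Or.inr ⟨hall 0, by simpa using hall (f k)⟩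
  obtain ⟨D, ⟨t, ht⟩, hW⟩ := (h _).1 h0
  have hP2 : P2 C e2 D f := hf (Sum.inr (e2, D))
  obtain ⟨N, hN⟩ := hP2.resolve_left hW
  set τ := pre f (max N σ.length) with hτ
  have hR := (hC _).1 (hall (encode (t, D, τ) + 1))
  unfold Rule at hR
  simp only [Nat.unpair_pair, Nat.add_sub_cancel, encodek] at hR
  have hy : (decode k.unpair.1 : Option (ℕ × ℕ × List ℕ)) = some (e1, e2, σ) := by
    rw [hk, col, Nat.unpair_pair]; exact encodek _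
  rcases hR with hR | hR | ⟨y, z, hy', hz, hT⟩
  · omega
  · exact absurd hR (by simp)
  rw [hy] at hy'
  cases hy'
  cases hz
  rcases hT with hT | ⟨i, hi, hT⟩ | ⟨r, hr, l, hl, ρ, hρ, h2⟩
  · simp only at hT
    rw [ht] at hT; exact absurd hT (by simp)
  · simp only at hi hT
    exact hT (by rw [hτ, fn_pre f (lt_of_lt_of_le hi (le_max_right _ _)), hσ i hi])
  · simp only at hr hl hρ
    refine hN (fn ρ) (fun j hj => ?_) ⟨r, hr, l, hl, fun x hx => ?_⟩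
    · have hj' : j < max N σ.length := lt_of_lt_of_le hj (le_max_left _ _)
      rw [hρ j (by simpa [hτ] using Or.inl hj), hτ, fn_pre f hj']
    · rcases h2 x hx with h3 | h3
      · refine Or.inr ⟨?_, ?_⟩
        · have := hall x.unpair.2
          rwa [← h3, Nat.pair_unpair] at this
        · rw [h3]; exact hall _
      · exact h3

/-! ### The space -/

def U (C : Set ℕ) (p : ℕ × List ℕ) : Prop :=
  ∃ q : ℕ × ℕ × ℕ, (p.1 = encode ((0 : ℕ), q) ∧ p.2 = []) ∨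
    (p.1 = encode ((1 : ℕ), q) ∧ q.2.1 ≠ q.2.2 ∧ p.2 = [Nat.pair q.1 q.2.1, Nat.pair q.1 q.2.2]) ∨
    (p.1 = encode ((2 : ℕ), q) ∧ Nat.pair q.1 q.2.1 ∈ C ∧ Nat.pair q.1 q.2.2 ∈ C ∧
      p.2 = [Nat.pair q.1 q.2.1])

def V (C : Set ℕ) (p : ℕ × List ℕ) : Prop :=
  ∃ q : ℕ × ℕ × ℕ, (p.1 = encode ((0 : ℕ), q) ∧ ∃ v, p.2 = [Nat.pair q.1 v]) ∨
    (p.1 = encode ((1 : ℕ), q) ∧ Nat.pair q.1 q.2.1 ∈ C ∧ p.2 = []) ∨
    (p.1 = encode ((2 : ℕ), q) ∧ p.2 = [Nat.pair q.1 q.2.2])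

theorem re_U {C : Set ℕ} (hC : REPred fun x => x ∈ C) : REPred (U C) := by
  refine ex (p := fun (p : ℕ × List ℕ) (q : ℕ × ℕ × ℕ) =>
    (p.1 = encode ((0 : ℕ), q) ∧ p.2 = []) ∨
    (p.1 = encode ((1 : ℕ), q) ∧ q.2.1 ≠ q.2.2 ∧ p.2 = [Nat.pair q.1 q.2.1, Nat.pair q.1 q.2.2]) ∨
    (p.1 = encode ((2 : ℕ), q) ∧ Nat.pair q.1 q.2.1 ∈ C ∧ Nat.pair q.1 q.2.2 ∈ C ∧
      p.2 = [Nat.pair q.1 q.2.1])) ?_
  refine or (and (eq (by fun_prop) (by fun_prop)) (eq (by fun_prop) (by fun_prop))) (or ?_ ?_)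
  · exact and (eq (by fun_prop) (by fun_prop))
      (and (ne (by fun_prop) (by fun_prop)) (eq (by fun_prop) (by fun_prop)))
  · exact and (eq (by fun_prop) (by fun_prop)) (and (comp hC (by fun_prop))
      (and (comp hC (by fun_prop)) (eq (by fun_prop) (by fun_prop))))

theorem re_V {C : Set ℕ} (hC : REPred fun x => x ∈ C) : REPred (V C) := by
  refine ex (p := fun (p : ℕ × List ℕ) (q : ℕ × ℕ × ℕ) =>
    (p.1 = encode ((0 : ℕ), q) ∧ ∃ v, p.2 = [Nat.pair q.1 v]) ∨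
    (p.1 = encode ((1 : ℕ), q) ∧ Nat.pair q.1 q.2.1 ∈ C ∧ p.2 = []) ∨
    (p.1 = encode ((2 : ℕ), q) ∧ p.2 = [Nat.pair q.1 q.2.2])) ?_
  refine or (and (eq (by fun_prop) (by fun_prop)) ?_) (or ?_ ?_)
  · exact exN (p := fun (b : (ℕ × List ℕ) × ℕ × ℕ × ℕ) v => b.1.2 = [Nat.pair b.2.1 v])
      (eq (by fun_prop) (by fun_prop))
  · exact and (eq (by fun_prop) (by fun_prop))
      (and (comp hC (by fun_prop)) (eq (by fun_prop) (by fun_prop)))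
  · exact and (eq (by fun_prop) (by fun_prop)) (eq (by fun_prop) (by fun_prop))

def InX (C X : Set ℕ) : Prop :=
  ∀ i : ℕ, (∃ l : List ℕ, U C (i, l) ∧ ∀ k ∈ l, k ∈ X) → ∃ l : List ℕ, V C (i, l) ∧ ∀ k ∈ l, k ∈ X

lemma enc_inj {a b : ℕ} {q q' : ℕ × ℕ × ℕ} (h : encode (a, q) = encode (b, q')) :
    a = b ∧ q = q' := Prod.mk.inj (encode_injective h)

theorem InX_iff (C X : Set ℕ) : InX C X ↔ (∀ k, ∃ v, Nat.pair k v ∈ X) ∧
    (∀ k s s', s ≠ s' → Nat.pair k s ∈ X → Nat.pair k s' ∈ X → Nat.pair k s ∈ C) ∧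
    (∀ k s s', Nat.pair k s ∈ C → Nat.pair k s' ∈ C → Nat.pair k s ∈ X → Nat.pair k s' ∈ X) := by
  constructor
  · intro h
    refine ⟨fun k => ?_, fun k s s' h1 h2 h3 => ?_, fun k s s' h1 h2 h3 => ?_⟩
    · obtain ⟨l, ⟨q, hq⟩, hl⟩ := h (encode ((0 : ℕ), (k, 0, 0))) ⟨[], ⟨(k, 0, 0), Or.inl ⟨rfl, rfl⟩⟩,
        by simp⟩
      rcases hq with ⟨h4, v, h5⟩ | ⟨h4, -⟩ | ⟨h4, -⟩
      · obtain ⟨-, rfl⟩ := enc_inj h4
        simp only at h5
        exact ⟨v, hl _ (by simp [h5])⟩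
      · exact absurd (enc_inj h4).1 (by simp)
      · exact absurd (enc_inj h4).1 (by simp)
    · obtain ⟨l, ⟨q, hq⟩, hl⟩ := h (encode ((1 : ℕ), (k, s, s')))
        ⟨_, ⟨(k, s, s'), Or.inr (Or.inl ⟨rfl, h1, rfl⟩)⟩, by simp [h2, h3]⟩
      rcases hq with ⟨h4, -⟩ | ⟨h4, h5, -⟩ | ⟨h4, -⟩
      · exact absurd (enc_inj h4).1 (by simp)
      · obtain ⟨-, rfl⟩ := enc_inj h4
        exact h5
      · exact absurd (enc_inj h4).1 (by simp)
    · obtain ⟨l, ⟨q, hq⟩, hl⟩ := h (encode ((2 : ℕ), (k, s, s')))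
        ⟨_, ⟨(k, s, s'), Or.inr (Or.inr ⟨rfl, h1, h2, rfl⟩)⟩, by simp [h3]⟩
      rcases hq with ⟨h4, -⟩ | ⟨h4, -⟩ | ⟨h4, h5⟩
      · exact absurd (enc_inj h4).1 (by simp)
      · exact absurd (enc_inj h4).1 (by simp)
      · obtain ⟨-, rfl⟩ := enc_inj h4
        simp only at h5
        exact hl _ (by simp [h5])
  · rintro ⟨ha, hb, hc⟩ i ⟨l, ⟨q, hq⟩, hl⟩
    rcases hq with ⟨h4, -⟩ | ⟨h4, h5, h6⟩ | ⟨h4, h5, h6, h7⟩
    · obtain ⟨v, hv⟩ := ha q.1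
      exact ⟨[Nat.pair q.1 v], ⟨q, Or.inl ⟨h4, v, rfl⟩⟩, by simpa using hv⟩
    · simp only at h6
      exact ⟨[], ⟨q, Or.inr (Or.inl ⟨h4, hb _ _ _ h5 (hl _ (by simp [h6])) (hl _ (by simp [h6])),
        rfl⟩)⟩, by simp⟩
    · simp only at h7
      exact ⟨[Nat.pair q.1 q.2.2], ⟨q, Or.inr (Or.inr ⟨h4, rfl⟩)⟩,
        by simpa using hc _ _ _ h5 h6 (hl _ (by simp [h7]))⟩

theorem antichain {C X Y : Set ℕ} (hX : InX C X) (hY : InX C Y) (h : X ⊆ Y) : X = Y := by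
  obtain ⟨xa, -, xc⟩ := (InX_iff C X).1 hX
  obtain ⟨-, yb, -⟩ := (InX_iff C Y).1 hY
  refine Set.Subset.antisymm h fun y hy => ?_
  rw [← Nat.pair_unpair y] at hy ⊢
  obtain ⟨v, hv⟩ := xa y.unpair.1
  by_cases hvs : v = y.unpair.2
  · rwa [← hvs]
  · exact xc _ v _ (yb _ _ _ hvs (h hv) hy) (yb _ _ _ (Ne.symm hvs) hy (h hv)) hv

theorem pt_InX (C : Set ℕ) (f : ℕ → ℕ) : InX C (pt C f) := by
  rw [InX_iff]
  refine ⟨fun k => ⟨f k, Or.inl (by simp)⟩, fun k s s' h1 h2 h3 => ?_,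
    fun k s s' h1 h2 h3 => ?_⟩
  · rcases h2 with h2 | h2
    · rcases h3 with h3 | h3
      · simp only [Nat.unpair_pair] at h2 h3
        exact absurd (h2.trans h3.symm) h1
      · simp only [Nat.unpair_pair] at h2 h3
        rw [h2]; exact h3.2
    · exact h2.1
  · refine Or.inr ⟨h2, ?_⟩
    rcases h3 with h3 | h3
    · simp only [Nat.unpair_pair] at h3 ⊢
      rw [← h3]; exact h1
    · simpa using h3.2

lemma collect {W : ℕ × List ℕ → Prop} {B : Set ℕ} (l : List ℕ)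
    (h : ∀ m ∈ l, ∃ l' : List ℕ, W (m, l') ∧ ∀ r ∈ l', r ∉ B) :
    ∃ D : List ℕ, (∀ m ∈ l, ∃ l' : List ℕ, W (m, l') ∧ ∀ r ∈ l', r ∈ D) ∧ ∀ r ∈ D, r ∉ B := by
  induction l with
  | nil => exact ⟨[], by simp, by simp⟩
  | cons a l ih =>
    obtain ⟨D, h1, h2⟩ := ih fun m hm => h m (List.mem_cons_of_mem _ hm)
    obtain ⟨l', h3, h4⟩ := h a (by simp)
    refine ⟨l' ++ D, fun m hm => ?_, fun r hr => ?_⟩
    · rcases List.mem_cons.1 hm with rfl | hm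
      · exact ⟨l', h3, fun r hr => List.mem_append_left _ hr⟩
      · obtain ⟨l'', h5, h6⟩ := h1 m hm
        exact ⟨l'', h5, fun r hr => List.mem_append_right _ (h6 r hr)⟩
    · rcases List.mem_append.1 hr with hr | hr
      exacts [h4 r hr, h2 r hr]

theorem re_sub {α : Type} [Primcodable α] {l D : α → List ℕ} (hl : Computable l)
    (hD : Computable D) : REPred fun a => ∀ r ∈ l a, r ∈ D a :=
  all_mem (p := fun a r => r ∈ D a) (l := l)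
    (mem_list (f := fun x : α × ℕ => x.2) (l := fun x => D x.1) Computable.snd
      (hD.comp Computable.fst)) hl

theorem re_T1 {α : Type} [Primcodable α] {W1 : ℕ × List ℕ → Prop} (hW1 : REPred W1)
    {m : α → ℕ} {D : α → List ℕ} (hm : Computable m)
    (hD : Computable D) : REPred fun a => ∃ l' : List ℕ, W1 (m a, l') ∧ ∀ r ∈ l', r ∈ D a :=
  ex (p := fun a (l' : List ℕ) => W1 (m a, l') ∧ ∀ r ∈ l', r ∈ D a)
    (and (comp hW1 (f := fun x : α × List ℕ => (m x.1, x.2))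
      ((hm.comp Computable.fst).pair Computable.snd))
      (re_sub (l := fun x : α × List ℕ => x.2) (D := fun x => D x.1) Computable.snd
        (hD.comp Computable.fst)))

theorem re_T2 {α : Type} [Primcodable α] {W1 : ℕ × List ℕ → Prop} (hW1 : REPred W1)
    {l D : α → List ℕ} (hl : Computable l) (hD : Computable D) :
    REPred fun a => ∀ m ∈ l a, ∃ l' : List ℕ, W1 (m, l') ∧ ∀ r ∈ l', r ∈ D a :=
  all_mem (p := fun a m => ∃ l' : List ℕ, W1 (m, l') ∧ ∀ r ∈ l', r ∈ D a) (l := l)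
    (re_T1 hW1 (m := fun x : α × ℕ => x.2) (D := fun x => D x.1) Computable.snd
      (hD.comp Computable.fst)) hl

theorem re_Theta {W1 W2 : ℕ × List ℕ → Prop} (hW1 : REPred W1) (hW2 : REPred W2) :
    REPred fun p : ℕ × List ℕ => ∃ l : List ℕ, W2 (p.1, l) ∧
      ∀ m ∈ l, ∃ l' : List ℕ, W1 (m, l') ∧ ∀ r ∈ l', r ∈ p.2 :=
  ex (p := fun (p : ℕ × List ℕ) (l : List ℕ) => W2 (p.1, l) ∧
      ∀ m ∈ l, ∃ l' : List ℕ, W1 (m, l') ∧ ∀ r ∈ l', r ∈ p.2)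
    (and (comp hW2 (f := fun x : (ℕ × List ℕ) × List ℕ => (x.1.1, x.2))
      ((Computable.fst.comp Computable.fst).pair Computable.snd))
      (re_T2 hW1 (l := fun x : (ℕ × List ℕ) × List ℕ => x.2) (D := fun x => x.1.2)
        Computable.snd (Computable.snd.comp Computable.fst)))

theorem main :
    ∃ (U V : ℕ × List ℕ → Prop), REPred U ∧ REPred V ∧
      (∀ X Y : Set ℕ,
        (∀ i : ℕ, (∃ l : List ℕ, U (i, l) ∧ ∀ k ∈ l, k ∈ X) →
          ∃ l : List ℕ, V (i, l) ∧ ∀ k ∈ l, k ∈ X) →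
        (∀ i : ℕ, (∃ l : List ℕ, U (i, l) ∧ ∀ k ∈ l, k ∈ Y) →
          ∃ l : List ℕ, V (i, l) ∧ ∀ k ∈ l, k ∈ Y) →
        X ⊆ Y → X = Y) ∧
      ∃ A : Set ℕ,
        (∀ i : ℕ, (∃ l : List ℕ, U (i, l) ∧ ∀ k ∈ l, k ∈ A) →
          ∃ l : List ℕ, V (i, l) ∧ ∀ k ∈ l, k ∈ A) ∧
        ∀ C : Set ℕ,
          (∃ W : ℕ × List ℕ → Prop, REPred W ∧
            ∀ n : ℕ, n ∈ C ↔ ∃ l : List ℕ, W (n, l) ∧ ∀ k ∈ l, k ∉ C) →
          ¬ ((∃ W : ℕ × List ℕ → Prop, REPred W ∧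
                ∀ n : ℕ, n ∈ A ↔ ∃ l : List ℕ, W (n, l) ∧ ∀ k ∈ l, k ∈ C) ∧
             (∃ W : ℕ × List ℕ → Prop, REPred W ∧
                ∀ n : ℕ, n ∈ C ↔ ∃ l : List ℕ, W (n, l) ∧ ∀ k ∈ l, k ∈ A)) := by
  obtain ⟨C, hCre, hC⟩ := exists_fix
  obtain ⟨f, hf⟩ := diag hC
  refine ⟨U C, V C, re_U hCre, re_V hCre, fun X Y hX hY h => antichain hX hY h, pt C f,
    pt_InX C f, ?_⟩
  rintro B ⟨W1, hW1, h1⟩ ⟨⟨W2, hW2, h2⟩, W3, hW3, h3⟩
  have hΘ := re_Theta hW1 hW2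
  obtain ⟨e1, he1⟩ := wst_univ hΘ
  obtain ⟨e2, he2⟩ := wst_univ hW3
  have hWn : ∀ D, ¬ Wn C e2 D f ↔ ∀ r ∈ D, r ∉ B := by
    intro D
    constructor
    · intro h r hr hB
      obtain ⟨l, h4, h5⟩ := (h3 r).1 hB
      exact h ⟨r, hr, l, (he2 _).1 h4, h5⟩
    · rintro h ⟨r, hr, l, h4, h5⟩
      exact h r hr ((h3 r).2 ⟨l, (he2 _).2 h4, h5⟩)
  refine hf e1 e2 fun n => ?_
  rw [h2 n]
  constructor
  · rintro ⟨l, h4, h5⟩
    obtain ⟨D, h6, h7⟩ := collect (W := W1) (B := B) l fun m hm => (h1 m).1 (h5 m hm)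
    exact ⟨D, (he1 (n, D)).1 ⟨l, h4, h6⟩, (hWn D).2 h7⟩
  · rintro ⟨D, h4, h5⟩
    obtain ⟨l, h6, h7⟩ := (he1 (n, D)).2 h4
    refine ⟨l, h6, fun m hm => ?_⟩
    obtain ⟨l', h8, h9⟩ := h7 m hm
    exact (h1 m).2 ⟨l', h8, fun r hr => (hWn D).1 h5 r (h9 r hr)⟩

end Pool.Agent.H228Z.Cototal
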