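import Mathlib

set_option autoImplicit false

namespace Pool.Agent.H228Z.LogDerivHalf

open Complex DirichletCharacter Filter

lemma isPrimitive_of_prime {q : ℕ} [NeZero q] (hq : q.Prime) {χ : DirichletCharacter ℂ q}
    (hχ : χ ≠ 1) : χ.IsPrimitive := by
  rcases (Nat.dvd_prime hq).1 (conductor_dvd_level χ) with h | h
  · exact absurd (eq_one_iff_conductor_eq_one.2 h) hχ
  · exact h

lemma gammaFactor_inv {q : ℕ} (χ : DirichletCharacter ℂ q) :
    gammaFactor χ⁻¹ = gammaFactor χ := by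
  funext s
  have h : (χ⁻¹).Even ↔ χ.Even := by
    unfold DirichletCharacter.Even
    rw [MulChar.inv_apply_eq_inv']
    exact inv_eq_one
  rcases χ.even_or_odd with h1 | h1
  · rw [h1.gammaFactor_def, (h.2 h1).gammaFactor_def]
  · rcases (χ⁻¹).even_or_odd with h2 | h2
    · exact absurd (h.1 h2) h1.not_even
    · rw [h1.gammaFactor_def, h2.gammaFactor_def]

/-- the inverse gamma factor -/
noncomputable def ig {q : ℕ} (χ : DirichletCharacter ℂ q) (s : ℂ) : ℂ := (gammaFactor χ s)⁻¹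

lemma ig_cases {q : ℕ} (χ : DirichletCharacter ℂ q) :
    ig χ = (fun s => (Gammaℝ s)⁻¹) ∨ ig χ = (fun s => (Gammaℝ (s + 1))⁻¹) := by
  rcases χ.even_or_odd with h | h
  · left; funext s; rw [ig, h.gammaFactor_def]
  · right; funext s; rw [ig, h.gammaFactor_def]

lemma ig_diff {q : ℕ} (χ : DirichletCharacter ℂ q) : Differentiable ℂ (ig χ) := by
  rcases ig_cases χ with h | h <;> rw [h]
  · exact differentiable_Gammaℝ_inv
  · exact differentiable_Gammaℝ_inv.comp (differentiable_id.add_const 1)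

lemma ig_ne {q : ℕ} (χ : DirichletCharacter ℂ q) : ig χ (1 / 2) ≠ 0 := by
  rcases ig_cases χ with h | h <;> rw [h]
  · exact inv_ne_zero (Gammaℝ_ne_zero_of_re_pos (by norm_num))
  · exact inv_ne_zero (Gammaℝ_ne_zero_of_re_pos (by norm_num))

/-- an absolute constant bounding the logarithmic derivative of the gamma factors at one half -/
noncomputable def C0 : ℝ :=
  ‖logDeriv (fun s => (Gammaℝ s)⁻¹) (1 / 2)‖ + ‖logDeriv (fun s => (Gammaℝ (s + 1))⁻¹) (1 / 2)‖

lemma ig_bound {q : ℕ} (χ : DirichletCharacter ℂ q) : ‖logDeriv (ig χ) (1 / 2)‖ ≤ C0 := by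
  unfold C0
  rcases ig_cases χ with h | h <;> rw [h]
  · exact le_add_of_nonneg_right (norm_nonneg _)
  · exact le_add_of_nonneg_left (norm_nonneg _)

lemma L_eq {q : ℕ} [NeZero q] (hq : q ≠ 1) (χ : DirichletCharacter ℂ q) :
    LFunction χ = fun s => completedLFunction χ s * ig χ s := by
  funext s
  rw [LFunction_eq_completed_div_gammaFactor χ s (Or.inr hq), div_eq_mul_inv, ig]

theorem sum_logDeriv {q : ℕ} [NeZero q] (hq : q.Prime) {χ : DirichletCharacter ℂ q}
    (hχ : χ ≠ 1) (hL : LFunction χ (1 / 2) ≠ 0) :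
    LFunction χ⁻¹ (1 / 2) ≠ 0 ∧
    logDeriv (LFunction χ) (1 / 2) + logDeriv (LFunction χ⁻¹) (1 / 2) =
      -(Real.log q : ℂ) + 2 * logDeriv (ig χ) (1 / 2) := by
  have hq1 : q ≠ 1 := hq.one_lt.ne'
  have hq0 : (q : ℂ) ≠ 0 := by exact_mod_cast hq.ne_zero
  have hχ' : χ⁻¹ ≠ 1 := fun h => hχ (inv_eq_one.1 h)
  have hp := isPrimitive_of_prime hq hχ
  have hig : ig χ⁻¹ = ig χ := by
    funext s; rw [ig, ig, gammaFactor_inv]
  have hΛ : completedLFunction χ (1 / 2) ≠ 0 := by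
    intro h
    apply hL
    rw [L_eq hq1 χ]
    simp only [h, zero_mul]
  have hfe := hp.completedLFunction_one_sub (1 / 2)
  have e12 : (1 : ℂ) - 1 / 2 = 1 / 2 := by norm_num
  rw [e12, sub_self, cpow_zero, one_mul] at hfe
  have hε : rootNumber χ ≠ 0 := by
    intro h; apply hΛ; rw [hfe, h, zero_mul]
  have hΛ' : completedLFunction χ⁻¹ (1 / 2) ≠ 0 := by
    intro h; apply hΛ; rw [hfe, h, mul_zero]
  have d1 := differentiable_completedLFunction hχ
  have d2 := differentiable_completedLFunction hχ'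
  have hfun : (completedLFunction χ ∘ fun s : ℂ => 1 - s) =
      fun s => ((q : ℂ) ^ (s - 1 / 2) * rootNumber χ) * completedLFunction χ⁻¹ s := by
    funext s
    exact hp.completedLFunction_one_sub s
  have hpow : HasDerivAt (fun s : ℂ => (q : ℂ) ^ (s - 1 / 2)) (Complex.log q) (1 / 2) := by
    have := ((hasDerivAt_id (1 / 2 : ℂ)).sub_const (1 / 2)).const_cpow (c := (q : ℂ))
      (Or.inl hq0)
    simpa using this
  have h1 : logDeriv (completedLFunction χ ∘ fun s : ℂ => 1 - s) (1 / 2) =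
      - logDeriv (completedLFunction χ) (1 / 2) := by
    rw [logDeriv_comp (d1 _) (by fun_prop), e12]
    have : deriv (fun s : ℂ => 1 - s) (1 / 2) = -1 := by
      simp
    rw [this]; ring
  have h2 : logDeriv (fun s => ((q : ℂ) ^ (s - 1 / 2) * rootNumber χ) *
      completedLFunction χ⁻¹ s) (1 / 2) =
      Complex.log q + logDeriv (completedLFunction χ⁻¹) (1 / 2) := by
    rw [logDeriv_mul (f := fun s : ℂ => (q : ℂ) ^ (s - 1 / 2) * rootNumber χ) (1 / 2)
      (by simpa using hε) hΛ' (hpow.differentiableAt.mul_const _) (d2 _),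
      logDeriv_mul_const _ _ hε, logDeriv_apply, hpow.deriv]
    simp
  rw [hfun, h2] at h1
  refine ⟨?_, ?_⟩
  · rw [L_eq hq1 χ⁻¹]
    exact mul_ne_zero hΛ' (ig_ne _)
  · rw [L_eq hq1 χ, L_eq hq1 χ⁻¹, logDeriv_mul (1 / 2) hΛ (ig_ne _) (d1 _) (ig_diff _ _),
      logDeriv_mul (1 / 2) hΛ' (ig_ne _) (d2 _) (ig_diff _ _), hig]
    have : (Real.log q : ℂ) = Complex.log q := by
      rw [Complex.ofReal_log (Nat.cast_nonneg q)]; simp
    rw [this]
    linear_combination h1

lemma growth (A D C : ℝ) (hA : 0 < A) :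
    ∀ᶠ x : ℝ in atTop, A * Real.sqrt x * (Real.log x) ^ D < x - C := by
  have h1 := (isLittleO_log_rpow_rpow_atTop D (s := 1 / 2) (by norm_num)).bound
    (c := 1 / (2 * A)) (by positivity)
  filter_upwards [h1, eventually_gt_atTop (1 : ℝ), eventually_gt_atTop (2 * C)] with x hx h1x hC
  have hx0 : 0 < x := by linarith
  have hl : 0 < Real.log x := Real.log_pos h1x
  rw [Real.norm_of_nonneg (Real.rpow_nonneg hl.le _),
    Real.norm_of_nonneg (Real.rpow_nonneg hx0.le _), ← Real.sqrt_eq_rpow] at hx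
  have hs : Real.sqrt x * Real.sqrt x = x := Real.mul_self_sqrt hx0.le
  have : A * Real.sqrt x * (Real.log x) ^ D ≤ A * Real.sqrt x * (1 / (2 * A) * Real.sqrt x) :=
    mul_le_mul_of_nonneg_left hx (by positivity)
  have e : A * Real.sqrt x * (1 / (2 * A) * Real.sqrt x) = x / 2 := by
    field_simp
    nlinarith [hs]
  linarith

theorem main :
    ¬ (∃ A D : ℝ, 0 < A ∧ 1 / 2 < D ∧
      ∀ ε : ℝ, 0 < ε → ∃ Q : ℕ, ∀ (q : ℕ) [NeZero q], q.Prime → Q ≤ q →
        ∀ θ : ℝ, θ ∈ Set.Icc (0 : ℝ) (2 * Real.pi) →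
          (∀ χ : DirichletCharacter ℂ q, χ ≠ 1 → LFunction χ (1 / 2) ≠ 0 →
            (Complex.exp (-(θ : ℂ) * Complex.I) *
                (deriv (LFunction χ) (1 / 2) / LFunction χ (1 / 2))).re ≤
              (1 + ε) * A * Real.sqrt (Real.log q) * (Real.log (Real.log q)) ^ D) ∧
          (∃ χ : DirichletCharacter ℂ q, χ ≠ 1 ∧ LFunction χ (1 / 2) ≠ 0 ∧
            (1 - ε) * A * Real.sqrt (Real.log q) * (Real.log (Real.log q)) ^ D ≤
              (Complex.exp (-(θ : ℂ) * Complex.I) *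
                (deriv (LFunction χ) (1 / 2) / LFunction χ (1 / 2))).re)) := by
  rintro ⟨A, D, hA, -, h⟩
  obtain ⟨Q, hQ⟩ := h 1 one_pos
  have hg : ∀ᶠ q : ℕ in atTop,
      (4 * A) * Real.sqrt (Real.log q) * (Real.log (Real.log q)) ^ D < Real.log q - 2 * C0 :=
    (Real.tendsto_log_atTop.comp tendsto_natCast_atTop_atTop).eventually
      (growth (4 * A) D (2 * C0) (by positivity))
  obtain ⟨N, hN⟩ := eventually_atTop.1 hg
  obtain ⟨q, hqN, hq⟩ := Nat.exists_infinite_primes (max N Q)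
  have : NeZero q := ⟨hq.ne_zero⟩
  have hpi : Real.pi ∈ Set.Icc (0 : ℝ) (2 * Real.pi) :=
    ⟨Real.pi_pos.le, by linarith [Real.pi_pos]⟩
  obtain ⟨hup, χ, hχ, hL, -⟩ := hQ q hq (le_trans (le_max_right _ _) hqN) Real.pi hpi
  obtain ⟨hL', hsum⟩ := sum_logDeriv hq hχ hL
  have hχ' : χ⁻¹ ≠ 1 := fun h => hχ (inv_eq_one.1 h)
  have h1 := hup χ hχ hL
  have h2 := hup χ⁻¹ hχ' hL'
  have he : Complex.exp (-(Real.pi : ℂ) * Complex.I) = -1 := by
    rw [neg_mul, Complex.exp_neg, Complex.exp_pi_mul_I]; norm_num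
  rw [he, ← logDeriv_apply, neg_one_mul, neg_re] at h1 h2
  have h3 := congrArg Complex.re hsum
  have h4 : (logDeriv (ig χ) (1 / 2)).re ≤ C0 := (re_le_norm _).trans (ig_bound χ)
  have h5 := hN q (le_trans (le_max_left _ _) hqN)
  simp only [add_re, neg_re, ofReal_re, mul_re, re_ofNat, im_ofNat, zero_mul, sub_zero] at h3
  nlinarith

end Pool.Agent.H228Z.LogDerivHalf
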