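import Mathlib

set_option autoImplicit false

namespace Pool.Agent.H228Z.ProdExp

open Filter

/-- The semidirect product of the additive naturals with themselves. -/
@[ext] structure G where
  B : ℕ
  e : ℕ

instance : Mul G := ⟨fun g h => ⟨g.B + 2 ^ g.e * h.B, g.e + h.e⟩⟩

@[simp] lemma mul_B (g h : G) : (g * h).B = g.B + 2 ^ g.e * h.B := rfl
@[simp] lemma mul_e (g h : G) : (g * h).e = g.e + h.e := rfl

instance : Semigroup G where
  mul_assoc a b c := by
    ext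
    · simp only [mul_B, mul_e, pow_add]; ring
    · simp only [mul_e]; ring

attribute [local instance] Ultrafilter.mul Ultrafilter.semigroup

/-- positivity of the first coordinate -/
def Pos : Set (Ultrafilter G) := {q | ∀ᶠ g in (q : Filter G), 0 < g.B}

def J : Set (Ultrafilter G) :=
  {q | q ∈ Pos ∧ ∀ (l : ℕ) (A : Set ℕ), ∀ᶠ g in (q : Filter G), (l * g.B + g.e ∈ A ↔ g.e ∈ A)}

lemma isClosed_ev (s : G → Prop) : IsClosed {q : Ultrafilter G | ∀ᶠ g in (q : Filter G), s g} :=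
  ultrafilter_isClosed_basic {g | s g}

lemma isClosed_Pos : IsClosed Pos := isClosed_ev _

lemma isClosed_J : IsClosed J := by
  have : J = Pos ∩ ⋂ (l : ℕ), ⋂ (A : Set ℕ),
      {q : Ultrafilter G | ∀ᶠ g in (q : Filter G), (l * g.B + g.e ∈ A ↔ g.e ∈ A)} := by
    ext q; simp [J]
  rw [this]
  exact isClosed_Pos.inter (isClosed_iInter fun l => isClosed_iInter fun A => isClosed_ev _)

lemma Pos_mul_left {x : Ultrafilter G} (hx : x ∈ Pos) (y : Ultrafilter G) : x * y ∈ Pos := by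
  show ∀ᶠ g in ((x * y : Ultrafilter G) : Filter G), 0 < g.B
  rw [Ultrafilter.eventually_mul]
  filter_upwards [hx] with g hg
  exact Eventually.of_forall fun h => by simp only [mul_B]; omega

lemma Pos_mul_right (x : Ultrafilter G) {y : Ultrafilter G} (hy : y ∈ Pos) : x * y ∈ Pos := by
  show ∀ᶠ g in ((x * y : Ultrafilter G) : Filter G), 0 < g.B
  rw [Ultrafilter.eventually_mul]
  refine Eventually.of_forall fun g => ?_
  filter_upwards [hy] with h hh
  simp only [mul_B]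
  have : 0 < 2 ^ g.e * h.B := by positivity
  omega

lemma J_nonempty : J.Nonempty := by
  classical
  let s : Finset (ℕ × Set ℕ) → Set G := fun T =>
    {g | 0 < g.B ∧ ∀ x ∈ T, (x.1 * g.B + g.e ∈ x.2 ↔ g.e ∈ x.2)}
  have hne : ∀ T, (s T).Nonempty := by
    intro T
    obtain ⟨a, ha, b, c, h⟩ := Combinatorics.exists_mono_homothetic_copy
      (insert 0 (T.image Prod.fst)) (fun n : ℕ => fun x : T => decide (n ∈ x.1.2))
    refine ⟨⟨a, b⟩, ha, fun x hx => ?_⟩
    have h0 := congrFun (h 0 (by simp)) ⟨x, hx⟩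
    have h1 := congrFun (h x.1 (Finset.mem_insert_of_mem (Finset.mem_image_of_mem _ hx))) ⟨x, hx⟩
    simp only [smul_eq_mul, mul_zero, zero_add] at h0 h1
    rw [← h0] at h1
    simpa [mul_comm] using h1
  have hdir : Directed (· ≥ ·) (fun T => 𝓟 (s T)) := by
    intro T T'
    refine ⟨T ∪ T', ?_, ?_⟩
    · exact principal_mono.2 fun g hg => ⟨hg.1, fun x hx => hg.2 x (Finset.mem_union_left _ hx)⟩
    · exact principal_mono.2 fun g hg => ⟨hg.1, fun x hx => hg.2 x (Finset.mem_union_right _ hx)⟩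
  have : Nonempty G := ⟨⟨0, 0⟩⟩
  have hF : (⨅ T, 𝓟 (s T)).NeBot :=
    iInf_neBot_of_directed hdir (fun T => principal_neBot_iff.2 (hne T))
  have hle : ∀ T, s T ∈ (Ultrafilter.of (⨅ T, 𝓟 (s T)) : Filter G) := fun T =>
    Ultrafilter.of_le _ (mem_iInf_of_mem T (mem_principal_self _))
  refine ⟨Ultrafilter.of (⨅ T, 𝓟 (s T)), ?_, fun l A => ?_⟩
  · exact Eventually.mono (hle ∅) fun g hg => hg.1
  · exact Eventually.mono (hle {(l, A)}) fun g hg => hg.2 (l, A) (by simp)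

lemma J_mul {x y : Ultrafilter G} (hx : x ∈ J) (hy : y ∈ J) : x * y ∈ J := by
  refine ⟨Pos_mul_left hx.1 y, fun l A => ?_⟩
  rw [Ultrafilter.eventually_mul]
  filter_upwards [hx.2 l {n | ∀ᶠ h in (y : Filter G), n + h.e ∈ A}] with g hg
  have h1 := hy.2 (l * 2 ^ g.e) {n | l * g.B + g.e + n ∈ A}
  have key : ∀ᶠ h in (y : Filter G), (l * g.B + g.e + h.e ∈ A ↔ g.e + h.e ∈ A) := by
    by_cases hc : ∀ᶠ h in (y : Filter G), g.e + h.e ∈ A
    · filter_upwards [hc, hg.2 hc] with h h2 h3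
      exact ⟨fun _ => h2, fun _ => h3⟩
    · have hc' : ¬ ∀ᶠ h in (y : Filter G), l * g.B + g.e + h.e ∈ A := fun h => hc (hg.1 h)
      rw [← Ultrafilter.eventually_not] at hc hc'
      filter_upwards [hc, hc'] with h h2 h3
      exact ⟨fun h4 => absurd h4 h3, fun h4 => absurd h4 h2⟩
  filter_upwards [h1, key] with h h2 h3
  have e1 : l * (g * h).B + (g * h).e = l * g.B + g.e + (l * 2 ^ g.e * h.B + h.e) := by
    simp only [mul_B, mul_e]; ring
  rw [e1, h2, h3, mul_e]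

/-- ultrafilters on `G` all of whose progressions images equal `p` -/
def Sig (p : Ultrafilter ℕ) : Set (Ultrafilter G) :=
  {q | ∀ (l : ℕ) (A : Set ℕ), A ∈ p → ∀ᶠ g in (q : Filter G), l * g.B + g.e ∈ A}

lemma isClosed_Sig (p : Ultrafilter ℕ) : IsClosed (Sig p) := by
  have : Sig p = ⋂ (l : ℕ), ⋂ (A : Set ℕ), ⋂ (_ : A ∈ p),
      {q : Ultrafilter G | ∀ᶠ g in (q : Filter G), l * g.B + g.e ∈ A} := by
    ext q; simp [Sig]
  rw [this]
  exact isClosed_iInter fun l => isClosed_iInter fun A => isClosed_iInter fun _ => isClosed_ev _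

lemma Sig_mul {p : Ultrafilter ℕ} (hp : ∀ A ∈ p, {n | {m | n + m ∈ A} ∈ p} ∈ p)
    {x y : Ultrafilter G} (hx : x ∈ Sig p) (hy : y ∈ Sig p) : x * y ∈ Sig p := by
  intro l A hA
  rw [Ultrafilter.eventually_mul]
  filter_upwards [hx l _ (hp A hA)] with g hg
  filter_upwards [hy (l * 2 ^ g.e) _ hg] with h hh
  have e1 : l * (g * h).B + (g * h).e = l * g.B + g.e + (l * 2 ^ g.e * h.B + h.e) := by
    simp only [mul_B, mul_e]; ring
  rw [e1]; exact hh

theorem exists_q : ∃ (p : Ultrafilter ℕ) (q : Ultrafilter G), q ∈ Sig p ∧ q ∈ Pos ∧ q * q = q ∧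
    (p.map (fun n => (⟨0, n⟩ : G))) * q = q := by
  obtain ⟨q1, hq1, hid⟩ := exists_idempotent_in_compact_subsemigroup
    (Ultrafilter.continuous_mul_left (M := G)) J J_nonempty isClosed_J.isCompact
    (fun x hx y hy => J_mul hx hy)
  let p : Ultrafilter ℕ := q1.map G.e
  have hp : ∀ A ∈ p, {n | {m | n + m ∈ A} ∈ p} ∈ p := by
    intro A hA
    have h1 : ∀ᶠ g in ((q1 * q1 : Ultrafilter G) : Filter G), g.e ∈ A := by
      rw [hid]; exact hA
    rw [Ultrafilter.eventually_mul] at h1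
    exact h1
  have hq1S : q1 ∈ Sig p := by
    intro l A hA
    have h1 : ∀ᶠ g in (q1 : Filter G), g.e ∈ A := hA
    filter_upwards [h1, hq1.2 l A] with g h2 h3
    exact h3.2 h2
  let P : Ultrafilter G := p.map (fun n => (⟨0, n⟩ : G))
  have hPS : P ∈ Sig p := by
    intro l A hA
    show {n | l * 0 + n ∈ A} ∈ p
    simpa using hA
  have hPP : P * P = P := by
    symm
    apply Ultrafilter.eq_of_le
    intro s hs
    have h1 : ∀ᶠ g in ((P * P : Ultrafilter G) : Filter G), g ∈ s := hs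
    rw [Ultrafilter.eventually_mul] at h1
    have h2 : {n | {m | (⟨0, n⟩ : G) * ⟨0, m⟩ ∈ s} ∈ p} ∈ p := h1
    by_contra hcon
    have h3 : {n | (⟨0, n⟩ : G) ∉ s} ∈ p := by
      have : ¬ {n | (⟨0, n⟩ : G) ∈ s} ∈ p := hcon
      exact Ultrafilter.compl_mem_iff_notMem.2 this
    obtain ⟨n, hn1, hn2⟩ := Ultrafilter.nonempty_of_mem (f := p) (inter_mem (f := (p : Filter ℕ)) h2 (hp _ h3))
    obtain ⟨m, hm1, hm2⟩ := Ultrafilter.nonempty_of_mem (f := p) (inter_mem (f := (p : Filter ℕ)) hn1 hn2)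
    apply hm2
    have e1 : (⟨0, n⟩ : G) * ⟨0, m⟩ = ⟨0, n + m⟩ := by ext <;> simp
    have hm3 : (⟨0, n⟩ : G) * ⟨0, m⟩ ∈ s := hm1
    rwa [e1] at hm3
  let I : Set (Ultrafilter G) := Sig p ∩ Pos
  have hIc : IsCompact I := ((isClosed_Sig p).inter isClosed_Pos).isCompact
  obtain ⟨q0, ⟨x, hx, rfl⟩, h0⟩ := exists_idempotent_in_compact_subsemigroup
    (Ultrafilter.continuous_mul_left (M := G)) ((· * P) '' I) ⟨_, q1, ⟨hq1S, hq1.1⟩, rfl⟩
    (hIc.image (Ultrafilter.continuous_mul_left P))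
    (by
      rintro _ ⟨x, hx, rfl⟩ _ ⟨y, hy, rfl⟩
      refine ⟨x * P * y, ⟨Sig_mul hp (Sig_mul hp hx.1 hPS) hy.1,
        Pos_mul_right _ hy.2⟩, ?_⟩
      simp only [mul_assoc])
  simp only at h0
  refine ⟨p, P * (x * P), Sig_mul hp hPS (Sig_mul hp hx.1 hPS),
    Pos_mul_right _ (Pos_mul_left hx.2 _), ?_, ?_⟩
  · calc P * (x * P) * (P * (x * P)) = P * (x * (P * P) * (x * P)) := by simp only [mul_assoc]
      _ = P * (x * P) := by rw [hPP, h0]
  · show P * (P * (x * P)) = P * (x * P)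
    rw [← mul_assoc, hPP]

theorem key : ∃ u : Ultrafilter ℕ, (∀ c, ∀ᶠ x in (u : Filter ℕ), c < x) ∧
    ∀ E ∈ u, ∀ l : ℕ, ∃ B β : ℕ, B ∈ E ∧ (∀ᶠ x in (u : Filter ℕ), 2 ^ β * x ∈ E) ∧
      (∀ᶠ x in (u : Filter ℕ), B + 2 ^ β * x ∈ E) ∧
      (∀ᶠ x in (u : Filter ℕ), 2 ^ (l * B + β) * x ∈ E) := by
  obtain ⟨p, q, hS, hPos, hqq, hPq⟩ := exists_q
  have hc : ∀ s : ℕ → Prop, (∀ᶠ g in (q : Filter G), s g.B) ↔
      ∀ᶠ g in (q : Filter G), ∀ᶠ h in (q : Filter G), s (g.B + 2 ^ g.e * h.B) := by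
    intro s
    have := Ultrafilter.eventually_mul q q (fun g => s g.B)
    rw [hqq] at this
    exact this
  have ha : ∀ s : ℕ → Prop, (∀ᶠ g in (q : Filter G), s g.B) →
      {n | ∀ᶠ h in (q : Filter G), s (2 ^ n * h.B)} ∈ p := by
    intro s hs
    have := Ultrafilter.eventually_mul (p.map (fun n => (⟨0, n⟩ : G))) q (fun g => s g.B)
    rw [hPq] at this
    have h2 := this.1 hs
    have h3 : ∀ᶠ n in (p : Filter ℕ), ∀ᶠ h in (q : Filter G), s (0 + 2 ^ n * h.B) := h2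
    simp only [zero_add] at h3
    exact h3
  refine ⟨q.map G.B, ?_, ?_⟩
  · intro c
    show ∀ᶠ g in (q : Filter G), c < g.B
    induction c with
    | zero => exact hPos
    | succ c ih =>
      rw [hc (fun x => c + 1 < x)]
      filter_upwards [hPos] with g hg
      filter_upwards [ih] with h hh
      have : h.B ≤ 2 ^ g.e * h.B := Nat.le_mul_of_pos_left _ (by positivity)
      omega
  · intro E hE l
    have h1 : ∀ᶠ g in (q : Filter G), g.B ∈ E := hE
    have h2 := (hc (fun x => x ∈ E)).1 h1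
    have h3 := ha (fun x => x ∈ E) h1
    obtain ⟨g, g1, g2, g3, g4⟩ := (h1.and (h2.and ((hS 0 _ h3).and (hS l _ h3)))).exists
    refine ⟨g.B, g.e, g1, ?_, g2, g4⟩
    simpa using g3

theorem main (k : ℕ) (χ : ℕ → Fin k) : ∃ b : ℕ → ℕ, StrictMono b ∧
    ∃ i : Fin k, ∀ n m : ℕ, n < m → χ (b n + b m) = i ∧ χ (2 ^ b n * b m) = i := by
  obtain ⟨u, hu, hkey⟩ := key
  let Large : Set ℕ → Prop := fun E => ∃ n, ∀ᶠ x in (u : Filter ℕ), 2 ^ n * x ∈ E
  have step : ∀ E, Large E → ∃ b ∈ E,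
      Large {x | x ∈ E ∧ b + x ∈ E ∧ 2 ^ b * x ∈ E ∧ b < x} := by
    rintro E ⟨n, hn⟩
    obtain ⟨B, β, h1, h2, h3, h4⟩ := hkey {x | 2 ^ n * x ∈ E} hn (2 ^ n)
    refine ⟨2 ^ n * B, h1, n + β, ?_⟩
    filter_upwards [h2, h3, h4, hu (2 ^ n * B)] with x x2 x3 x4 x5
    refine ⟨?_, ?_, ?_, ?_⟩
    · convert x2 using 1; ring
    · convert x3 using 1; ring
    · convert x4 using 1; ring
    · have : x ≤ 2 ^ (n + β) * x := Nat.le_mul_of_pos_left _ (by positivity)
      omega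
  choose! f hf1 hf2 using step
  obtain ⟨i, hi⟩ : ∃ i : Fin k, {x | χ x = i} ∈ u := by
    have : ⋃ i : Fin k, {x | χ x = i} ∈ u := by
      have : (⋃ i : Fin k, {x | χ x = i}) = Set.univ := by
        ext x; simp
      rw [this]; exact univ_mem
    have h2 := (Ultrafilter.finite_biUnion_mem_iff (f := u) (is := Set.univ)
      (s := fun i : Fin k => {x | χ x = i}) Set.finite_univ).1 (by simpa using this)
    obtain ⟨i, -, hi⟩ := h2
    exact ⟨i, hi⟩
  let E : ℕ → Set ℕ := fun n => Nat.rec {x | χ x = i}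
    (fun _ S => {x | x ∈ S ∧ f S + x ∈ S ∧ 2 ^ f S * x ∈ S ∧ f S < x}) n
  have Esucc : ∀ n, E (n + 1) =
      {x | x ∈ E n ∧ f (E n) + x ∈ E n ∧ 2 ^ f (E n) * x ∈ E n ∧ f (E n) < x} := fun n => rfl
  have hL : ∀ n, Large (E n) := by
    intro n
    induction n with
    | zero => exact ⟨0, by simp only [pow_zero, one_mul]; exact hi⟩
    | succ n ih => exact hf2 _ ih
  have hanti : Antitone E := antitone_nat_of_succ_le fun n x hx => hx.1
  have hmem : ∀ n m, n < m → f (E m) ∈ E (n + 1) := fun n m h => hanti h (hf1 _ (hL m))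
  refine ⟨fun n => f (E n), fun n m h => (hmem n m h).2.2.2, i, fun n m h => ⟨?_, ?_⟩⟩
  · exact hanti (Nat.zero_le n) (hmem n m h).2.1
  · exact hanti (Nat.zero_le n) (hmem n m h).2.2.1

theorem prodExp (k : ℕ) (c : ℕ → Fin k) : ∃ a : ℕ → ℕ, StrictMono a ∧ 0 < a 0 ∧
    ∃ i : Fin k, ∀ n m : ℕ, n < m → c (a n * a m) = i ∧ c (a m ^ a n) = i := by
  obtain ⟨b, hb, i, h⟩ := main k (fun x => c (2 ^ x))
  refine ⟨fun n => 2 ^ b n, fun n m hnm => Nat.pow_lt_pow_right (by norm_num) (hb hnm),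
    by positivity, i, fun n m hnm => ⟨?_, ?_⟩⟩
  · have := (h n m hnm).1
    simpa [pow_add] using this
  · have := (h n m hnm).2
    simp only at this ⊢
    rw [← pow_mul, mul_comm]; exact this

end Pool.Agent.H228Z.ProdExp
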