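import Mathlib

/-!
Bounded holomorphic functions on a Levi-flat Hartogs domain over a long pair of pants are
almost invariant under two rotations of the fibre.
-/

set_option autoImplicit false

namespace Pool.Agent.H228Z.Sq

open Set Filter Topology Metric
open scoped Real

/-- Schwarz estimate for a bounded function -/
theorem schw {f : ℂ → ℂ} {c z : ℂ} {R B : ℝ} (hf : DifferentiableOn ℂ f (ball c R))
    (hB : ∀ y ∈ ball c R, ‖f y‖ ≤ B) (hz : z ∈ ball c R) :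
    ‖f z - f c‖ ≤ 2 * B / R * ‖z - c‖ := by
  have hc : c ∈ ball c R := mem_ball_self (nonempty_ball.1 ⟨_, hz⟩)
  have h := Complex.dist_le_div_mul_dist_of_mapsTo_ball hf (R₂ := 2 * B) (fun y hy => by
    rw [mem_closedBall, dist_eq_norm]
    have := norm_sub_le (f y) (f c)
    linarith [hB y hy, hB c hc]) hz
  simpa only [dist_eq_norm] using h

/-- maximum principle along leaves -/
theorem maxp {K : Set (ℂ × ℂ)} (hK : IsCompact K) {Θ : ℂ × ℂ → ℂ} (hΘ : ContinuousOn Θ K) {B : ℝ}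
    (h : ∀ x ∈ K, ‖Θ x‖ ≤ B ∨ ∃ γ : ℂ → ℂ, γ x.1 = x.2 ∧ (∀ᶠ s in 𝓝 x.1, (s, γ s) ∈ K) ∧
      ∀ᶠ s in 𝓝 x.1, DifferentiableAt ℂ (fun s => Θ (s, γ s)) s) :
    ∀ x ∈ K, ‖Θ x‖ ≤ B := by
  intro y hy
  by_contra hcon
  obtain ⟨x₀, hx₀, hm⟩ := hK.exists_isMaxOn ⟨y, hy⟩ hΘ.norm
  have hcl : IsClosed (K ∩ (fun x => ‖Θ x‖) ⁻¹' {‖Θ x₀‖}) :=
    hΘ.norm.preimage_isClosed_of_isClosed hK.isClosed isClosed_singleton
  have hK' : IsCompact (K ∩ (fun x => ‖Θ x‖) ⁻¹' {‖Θ x₀‖}) :=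
    hK.of_isClosed_subset hcl inter_subset_left
  obtain ⟨x₁, ⟨hx₁, hx₁'⟩, hm₁⟩ := hK'.exists_isMaxOn (f := fun x : ℂ × ℂ => x.1.re)
    ⟨x₀, hx₀, rfl⟩ (by fun_prop)
  have e1 : ‖Θ x₁‖ = ‖Θ x₀‖ := hx₁'
  rcases h x₁ hx₁ with h1 | ⟨γ, hγ, h2, h3⟩
  · exact hcon (le_trans (hm hy) (e1.symm.trans_le h1))
  · have e2 : (x₁.1, γ x₁.1) = x₁ := by rw [hγ]
    have hl : IsLocalMax (norm ∘ fun s => Θ (s, γ s)) x₁.1 := by
      filter_upwards [h2] with s hs
      simp only [Function.comp_apply, e2, e1]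
      exact hm hs
    have h4 := Complex.norm_eventually_eq_of_isLocalMax h3 hl
    obtain ⟨ε, hε, h5⟩ := Metric.eventually_nhds_iff.1 (h2.and h4)
    have h6 := h5 (y := x₁.1 + (ε / 2 : ℝ)) (by
      rw [dist_eq_norm, add_sub_cancel_left, Complex.norm_real, Real.norm_of_nonneg (by linarith)]
      linarith)
    have h7 := hm₁ (a := (x₁.1 + (ε / 2 : ℝ), γ (x₁.1 + (ε / 2 : ℝ)))) ⟨h6.1, by
      simp only [mem_preimage, mem_singleton_iff]
      rw [h6.2, e2, e1]⟩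
    simp only [mem_ofPred_eq, Complex.add_re, Complex.ofReal_re] at h7
    linarith

/-- the harmonic weight -/
noncomputable def hh (α β : ℝ) (s : ℂ) : ℝ := α * Real.log ‖s + 1‖ + β * Real.log ‖s - 1‖

/-- the model domain -/
def UU (T α β : ℝ) : Set (ℂ × ℂ) :=
  {x | ‖x.1‖ < Real.exp T ∧ Real.exp (-T) < ‖x.1 + 1‖ ∧ Real.exp (-T) < ‖x.1 - 1‖ ∧
    ‖x.2‖ * Real.exp (hh α β x.1) < 1}

theorem A1 {T α β : ℝ} (hT : 13 ≤ T) {F : ℂ × ℂ → ℂ} (hF : DifferentiableOn ℂ F (UU T α β))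
    (hB : ∀ x ∈ UU T α β, ‖F x‖ ≤ 1) {s w : ℂ} (hs : ‖s + 1‖ = Real.exp (-(T / 2)))
    (hw : ‖w‖ * Real.exp (hh α β s) < 1) :
    ‖F (s, w * Complex.exp (2 * π * α * Complex.I)) - F (s, w)‖ ≤ 8 * π / T := by
  set S : ℂ → ℂ := fun ζ => -1 + (s + 1) * Complex.exp ζ with hS
  set W : ℂ → ℂ := fun ζ => w * Complex.exp (-(α * ζ) -
    β * (Complex.log (1 - S ζ) - Complex.log (1 - s))) with hW
  have hS1 : ∀ ζ, ‖S ζ + 1‖ = Real.exp (-(T / 2) + ζ.re) := fun ζ => by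
    rw [show S ζ + 1 = (s + 1) * Complex.exp ζ by simp only [hS]; ring, norm_mul, hs,
      Complex.norm_exp, Real.exp_add]
  have hre : ∀ ζ ∈ ball (0 : ℂ) (T / 2), |ζ.re| < T / 2 := fun ζ hζ =>
    (Complex.abs_re_le_norm ζ).trans_lt (mem_ball_zero_iff.1 hζ)
  have hS2 : ∀ ζ ∈ ball (0 : ℂ) (T / 2), ‖S ζ + 1‖ < 1 := fun ζ hζ => by
    rw [hS1, Real.exp_lt_one_iff]
    linarith [(abs_lt.1 (hre ζ hζ)).2]
  have hS3 : ∀ ζ ∈ ball (0 : ℂ) (T / 2), 1 < (1 - S ζ).re := fun ζ hζ => by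
    have h1 := (Complex.re_le_norm (S ζ + 1)).trans_lt (hS2 ζ hζ)
    simp only [Complex.add_re, Complex.one_re, Complex.sub_re] at h1 ⊢
    linarith
  have hS0 : S 0 = s := by simp [hS]
  have h0 : (0 : ℂ) ∈ ball (0 : ℂ) (T / 2) := mem_ball_self (by linarith)
  have hmaps : ∀ ζ ∈ ball (0 : ℂ) (T / 2), (S ζ, W ζ) ∈ UU T α β := fun ζ hζ => by
    have h1 := hS2 ζ hζ
    have h2 := (hS3 ζ hζ).trans_le (Complex.re_le_norm _)
    refine ⟨?_, ?_, ?_, ?_⟩
    · have h3 : ‖S ζ‖ ≤ ‖S ζ + 1‖ + ‖(1 : ℂ)‖ := by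
        simpa using norm_sub_le (S ζ + 1) 1
      rw [norm_one] at h3
      have := Real.add_one_le_exp T
      show ‖S ζ‖ < _
      linarith
    · show _ < ‖S ζ + 1‖
      rw [hS1, Real.exp_lt_exp]
      linarith [(abs_lt.1 (hre ζ hζ)).1]
    · show _ < ‖S ζ - 1‖
      rw [norm_sub_rev]
      exact (Real.exp_lt_one_iff.2 (by linarith)).trans h2
    · show ‖W ζ‖ * Real.exp (hh α β (S ζ)) < 1
      refine lt_of_eq_of_lt ?_ hw
      simp only [hW, norm_mul, Complex.norm_exp, mul_assoc, ← Real.exp_add]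
      congr 2
      simp only [hh, hS1, hs, Real.log_exp, Complex.sub_re, Complex.neg_re, Complex.re_ofReal_mul,
        Complex.log_re, norm_sub_rev (1 : ℂ)]
      ring
  have hSd : Differentiable ℂ S := by simp only [hS]; fun_prop
  have hWd : DifferentiableOn ℂ W (ball 0 (T / 2)) := by
    intro ζ hζ
    have h1 : DifferentiableAt ℂ (fun ζ => Complex.log (1 - S ζ)) ζ :=
      ((differentiableAt_const _).fun_sub (hSd ζ)).clog (Or.inl (by linarith [hS3 ζ hζ]))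
    refine DifferentiableAt.differentiableWithinAt ?_
    simp only [hW]
    fun_prop
  have hd : DifferentiableOn ℂ (fun ζ => F (S ζ, W ζ)) (ball 0 (T / 2)) :=
    hF.comp (hSd.differentiableOn.prodMk hWd) hmaps
  have hn : ‖-(2 * π * Complex.I)‖ = 2 * π := by
    simp [abs_of_pos Real.pi_pos]
  have hz : -(2 * π * Complex.I) ∈ ball (0 : ℂ) (T / 2) := by
    rw [mem_ball_zero_iff, hn]
    linarith [Real.pi_lt_d2]
  have h := schw hd (fun y hy => hB _ (hmaps y hy)) hz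
  have e1 : S (-(2 * π * Complex.I)) = s := by
    simp [hS, Complex.exp_neg]
  have e2 : W (-(2 * π * Complex.I)) = w * Complex.exp (2 * π * α * Complex.I) := by
    simp only [hW, e1, sub_self, mul_zero, sub_zero]
    congr 2
    ring
  have e3 : W 0 = w := by simp [hW, hS0]
  simp only [e1, e2, e3, hS0, sub_zero, hn] at h
  refine h.trans_eq ?_
  field_simp
  ring

/-- the compact base -/
def KK (T : ℝ) : Set ℂ :=
  {s | ‖s‖ ≤ Real.exp (T / 2) ∧ Real.exp (-(T / 2)) ≤ ‖s + 1‖ ∧ Real.exp (-(T / 2)) ≤ ‖s - 1‖}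

theorem KK_compact (T : ℝ) : IsCompact (KK T) := by
  refine (isCompact_closedBall (0 : ℂ) (Real.exp (T / 2))).of_isClosed_subset ?_
    fun s hs => mem_closedBall_zero_iff.2 hs.1
  have c1 : IsClosed {s : ℂ | ‖s‖ ≤ Real.exp (T / 2)} := isClosed_le (by fun_prop) (by fun_prop)
  have c2 : IsClosed {s : ℂ | Real.exp (-(T / 2)) ≤ ‖s + 1‖} :=
    isClosed_le (by fun_prop) (by fun_prop)
  have c3 : IsClosed {s : ℂ | Real.exp (-(T / 2)) ≤ ‖s - 1‖} :=
    isClosed_le (by fun_prop) (by fun_prop)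
  exact c1.inter (c2.inter c3)

theorem hh_cont (T α β : ℝ) : ContinuousOn (hh α β) (KK T) := by
  unfold hh
  refine (continuousOn_const.mul (ContinuousOn.log (by fun_prop) fun s hs => ?_)).add
    (continuousOn_const.mul (ContinuousOn.log (by fun_prop) fun s hs => ?_))
  · exact ((Real.exp_pos _).trans_le hs.2.1).ne'
  · exact ((Real.exp_pos _).trans_le hs.2.2).ne'

theorem K2_compact (T α β θ : ℝ) :
    IsCompact {x : ℂ × ℂ | x.1 ∈ KK T ∧ ‖x.2‖ * Real.exp (hh α β x.1) ≤ θ} := by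
  have h : {x : ℂ × ℂ | x.1 ∈ KK T ∧ ‖x.2‖ * Real.exp (hh α β x.1) ≤ θ} =
      (fun x : ℂ × ℂ => (x.1, x.2 * (Real.exp (-hh α β x.1) : ℝ))) ''
        (KK T ×ˢ closedBall (0 : ℂ) θ) := by
    ext x
    constructor
    · rintro ⟨h1, h2⟩
      refine ⟨(x.1, x.2 * (Real.exp (hh α β x.1) : ℝ)), ⟨h1, ?_⟩, ?_⟩
      · rw [mem_closedBall_zero_iff, norm_mul, Complex.norm_real,
          Real.norm_of_nonneg (Real.exp_pos _).le]
        exact h2
      · simp only [mul_assoc, ← Complex.ofReal_mul, ← Real.exp_add, add_neg_cancel, Real.exp_zero,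
          Complex.ofReal_one, mul_one]
    · rintro ⟨y, ⟨h1, h2⟩, rfl⟩
      refine ⟨h1, ?_⟩
      simp only [norm_mul, Complex.norm_real, Real.norm_of_nonneg (Real.exp_pos _).le, mul_assoc,
        ← Real.exp_add, neg_add_cancel, Real.exp_zero, mul_one]
      exact mem_closedBall_zero_iff.1 h2
  rw [h]
  refine ((KK_compact T).prod (isCompact_closedBall _ _)).image_of_continuousOn ?_
  refine continuousOn_fst.prodMk (continuousOn_snd.mul ?_)
  exact Complex.continuous_ofReal.comp_continuousOn (Real.continuous_exp.comp_continuousOn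
    ((hh_cont T α β).comp continuousOn_fst fun x hx => hx.1).neg)

theorem leaf (α β : ℝ) {s₀ : ℂ} (w₀ : ℂ) (h1 : s₀ + 1 ≠ 0) (h2 : s₀ - 1 ≠ 0) :
    ∃ γ : ℂ → ℂ, γ s₀ = w₀ ∧ ∀ᶠ s in 𝓝 s₀, DifferentiableAt ℂ γ s ∧
      ‖γ s‖ * Real.exp (hh α β s) = ‖w₀‖ * Real.exp (hh α β s₀) := by
  refine ⟨fun s => w₀ * Complex.exp (-(α * Complex.log ((s + 1) / (s₀ + 1))) -
    β * Complex.log ((s - 1) / (s₀ - 1))), by simp [div_self h1, div_self h2], ?_⟩
  have c1 : ContinuousAt (fun s : ℂ => (s + 1) / (s₀ + 1)) s₀ := by fun_prop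
  have c2 : ContinuousAt (fun s : ℂ => (s - 1) / (s₀ - 1)) s₀ := by fun_prop
  have m1 := c1.eventually_mem (s := Complex.slitPlane) (Complex.isOpen_slitPlane.mem_nhds
    (by simp [div_self h1]))
  have m2 := c2.eventually_mem (s := Complex.slitPlane) (Complex.isOpen_slitPlane.mem_nhds
    (by simp [div_self h2]))
  filter_upwards [m1, m2] with s k1 k2
  constructor
  · have d1 : DifferentiableAt ℂ (fun s : ℂ => Complex.log ((s + 1) / (s₀ + 1))) s :=
      DifferentiableAt.clog (by fun_prop) k1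
    have d2 : DifferentiableAt ℂ (fun s : ℂ => Complex.log ((s - 1) / (s₀ - 1))) s :=
      DifferentiableAt.clog (by fun_prop) k2
    fun_prop
  · have n1 : s + 1 ≠ 0 := fun h => Complex.slitPlane_ne_zero k1 (by simp [h])
    have n2 : s - 1 ≠ 0 := fun h => Complex.slitPlane_ne_zero k2 (by simp [h])
    simp only [norm_mul, Complex.norm_exp, mul_assoc, ← Real.exp_add]
    congr 2
    simp only [hh, Complex.sub_re, Complex.neg_re, Complex.re_ofReal_mul, Complex.log_re, norm_div,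
      Real.log_div (norm_ne_zero_iff.2 n1) (norm_ne_zero_iff.2 h1),
      Real.log_div (norm_ne_zero_iff.2 n2) (norm_ne_zero_iff.2 h2)]
    ring

theorem A2 {T α β : ℝ} (hT : 13 ≤ T) {F : ℂ × ℂ → ℂ} (hF : DifferentiableOn ℂ F (UU T α β))
    (hB : ∀ x ∈ UU T α β, ‖F x‖ ≤ 1) (N : ℕ) {B : ℝ}
    (hB1 : (8 * π / T) ^ N * (3 * Real.exp T) ≤ B) (hB2 : 2 ^ N * (8 * Real.exp (-(T / 2))) ≤ B)
    {w : ℂ} (hw : ‖w‖ < 1) :
    ‖F (0, w * Complex.exp (2 * π * α * Complex.I)) - F (0, w)‖ ^ N ≤ B := by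
  set e : ℂ := Complex.exp (2 * π * α * Complex.I) with he
  have hen : ‖e‖ = 1 := by
    rw [he, show (2 * π * α * Complex.I : ℂ) = ((2 * π * α : ℝ) : ℂ) * Complex.I by push_cast; ring]
    exact Complex.norm_exp_ofReal_mul_I _
  set K := {x : ℂ × ℂ | x.1 ∈ KK T ∧ ‖x.2‖ * Real.exp (hh α β x.1) ≤ ‖w‖} with hK
  have x1 : Real.exp (T / 2) < Real.exp T := Real.exp_lt_exp.2 (by linarith)
  have x2 : Real.exp (-T) < Real.exp (-(T / 2)) := Real.exp_lt_exp.2 (by linarith)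
  have x3 : 2 ≤ Real.exp (T / 2) := by linarith [Real.add_one_le_exp (T / 2)]
  have x4 : Real.exp (-(T / 2)) ≤ 1 := Real.exp_le_one_iff.2 (by linarith)
  have x5 : Real.exp (-(T / 2)) * Real.exp (T / 2) = 1 := by rw [← Real.exp_add]; simp
  have x6 : Real.exp (T / 2) * Real.exp (T / 2) = Real.exp T := by rw [← Real.exp_add]; simp
  have hKU : ∀ x ∈ K, x ∈ UU T α β := fun x hx =>
    ⟨hx.1.1.trans_lt x1, x2.trans_le hx.1.2.1, x2.trans_le hx.1.2.2, hx.2.trans_lt hw⟩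
  have hrot : ∀ x ∈ UU T α β, (x.1, x.2 * e) ∈ UU T α β := fun x hx =>
    ⟨hx.1, hx.2.1, hx.2.2.1, by simpa only [norm_mul, hen, mul_one] using hx.2.2.2⟩
  set Θ : ℂ × ℂ → ℂ := fun x => (F (x.1, x.2 * e) - F x) ^ N * ((x.1 - 1) / (x.1 + 1) ^ 2) with hΘ
  have hΘd : DifferentiableOn ℂ Θ (UU T α β) := by
    have h1 : DifferentiableOn ℂ (fun x : ℂ × ℂ => F (x.1, x.2 * e)) (UU T α β) :=
      hF.comp (by fun_prop) hrot
    have h2 : DifferentiableOn ℂ (fun x : ℂ × ℂ => (x.1 - 1) / (x.1 + 1) ^ 2) (UU T α β) := by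
      intro x hx
      have h3 : (x.1 + 1) ^ 2 ≠ 0 :=
        pow_ne_zero _ (norm_pos_iff.1 ((Real.exp_pos _).trans hx.2.1))
      refine DifferentiableAt.differentiableWithinAt ?_
      simp only [div_eq_mul_inv]
      exact DifferentiableAt.mul (by fun_prop) (DifferentiableAt.inv (by fun_prop) h3)
    exact ((h1.sub hF).pow N).mul h2
  have hG : ∀ x ∈ K, ‖F (x.1, x.2 * e) - F x‖ ≤ 2 := fun x hx => by
    have := norm_sub_le (F (x.1, x.2 * e)) (F x)
    linarith [hB _ (hKU x hx), hB _ (hrot _ (hKU x hx))]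
  have hnΘ : ∀ x, ‖Θ x‖ = ‖F (x.1, x.2 * e) - F x‖ ^ N * (‖x.1 - 1‖ / ‖x.1 + 1‖ ^ 2) := fun x => by
    simp only [hΘ, norm_mul, norm_pow, norm_div]
  have key := maxp (K2_compact T α β ‖w‖) (hΘd.continuousOn.mono hKU) (B := B) (fun x hx => by
    have hx' : x ∈ K := hx
    obtain ⟨⟨k1, k2, k3⟩, k4⟩ := hx
    have p1 : 0 < ‖x.1 + 1‖ := (Real.exp_pos _).trans_le k2
    have p2 : 0 < ‖x.1 - 1‖ := (Real.exp_pos _).trans_le k3
    rcases k2.eq_or_lt with k2 | k2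
    · left
      rw [hnΘ]
      refine le_trans ?_ hB1
      have a1 := A1 hT hF hB k2.symm (k4.trans_lt hw)
      have a2 : ‖x.1 - 1‖ ≤ 3 := by
        have : ‖x.1 - 1‖ ≤ ‖x.1 + 1‖ + ‖(2 : ℂ)‖ := by
          rw [show x.1 - 1 = x.1 + 1 - 2 by ring]; exact norm_sub_le _ _
        rw [Complex.norm_two] at this
        linarith
      have a3 : ‖x.1 - 1‖ / ‖x.1 + 1‖ ^ 2 ≤ 3 * Real.exp T := by
        rw [div_le_iff₀ (by positivity), ← k2, ← x6]
        calc ‖x.1 - 1‖ ≤ 3 * (Real.exp (-(T / 2)) * Real.exp (T / 2)) ^ 2 := by rw [x5]; linarith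
          _ = _ := by ring
      gcongr
    rcases k3.eq_or_lt with k3 | k3
    · left
      rw [hnΘ]
      refine le_trans ?_ hB2
      have a2 : 1 ≤ ‖x.1 + 1‖ := by
        have : ‖(2 : ℂ)‖ ≤ ‖x.1 + 1‖ + ‖x.1 - 1‖ := by
          rw [show (2 : ℂ) = x.1 + 1 - (x.1 - 1) by ring]; exact norm_sub_le _ _
        rw [Complex.norm_two] at this
        linarith
      have a3 : ‖x.1 - 1‖ / ‖x.1 + 1‖ ^ 2 ≤ 8 * Real.exp (-(T / 2)) := by
        rw [div_le_iff₀ (by positivity), ← k3]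
        have := Real.exp_pos (-(T / 2))
        nlinarith [one_le_pow₀ (n := 2) a2]
      have := hG x hx'
      gcongr
    rcases k1.eq_or_lt with k1 | k1
    · left
      rw [hnΘ]
      refine le_trans ?_ hB2
      have a1 : ‖x.1 - 1‖ ≤ ‖x.1‖ + 1 := by simpa using norm_sub_le x.1 1
      have a2 : ‖x.1‖ ≤ ‖x.1 + 1‖ + 1 := by simpa using norm_sub_le (x.1 + 1) 1
      have a3 : ‖x.1 - 1‖ / ‖x.1 + 1‖ ^ 2 ≤ 8 * Real.exp (-(T / 2)) := by
        rw [div_le_iff₀ (by positivity)]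
        have a4 : Real.exp (T / 2) / 2 ≤ ‖x.1 + 1‖ := by linarith
        have := Real.exp_pos (-(T / 2))
        calc ‖x.1 - 1‖ ≤ 2 * Real.exp (T / 2) * (Real.exp (-(T / 2)) * Real.exp (T / 2)) := by
              rw [x5]; linarith
          _ = 8 * Real.exp (-(T / 2)) * (Real.exp (T / 2) / 2) ^ 2 := by ring
          _ ≤ _ := by gcongr
      have := hG x hx'
      gcongr
    right
    obtain ⟨γ, g0, g1⟩ := leaf α β x.2 (norm_pos_iff.1 p1) (norm_pos_iff.1 p2)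
    have e1 : ∀ᶠ s in 𝓝 x.1, ‖s‖ < Real.exp (T / 2) :=
      ContinuousAt.eventually_lt (f := fun s : ℂ => ‖s‖) (by fun_prop) continuousAt_const k1
    have e2 : ∀ᶠ s in 𝓝 x.1, Real.exp (-(T / 2)) < ‖s + 1‖ :=
      ContinuousAt.eventually_lt (g := fun s : ℂ => ‖s + 1‖) continuousAt_const (by fun_prop) k2
    have e3 : ∀ᶠ s in 𝓝 x.1, Real.exp (-(T / 2)) < ‖s - 1‖ :=
      ContinuousAt.eventually_lt (g := fun s : ℂ => ‖s - 1‖) continuousAt_const (by fun_prop) k3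
    have e4 : ∀ᶠ s in 𝓝 x.1, (s, γ s) ∈ K := by
      filter_upwards [e1, e2, e3, g1] with s s1 s2 s3 s4
      exact ⟨⟨s1.le, s2.le, s3.le⟩, s4.2.trans_le k4⟩
    refine ⟨γ, g0, e4, ?_⟩
    have d1 : DifferentiableOn ℂ (fun s => Θ (s, γ s))
        {s | (s, γ s) ∈ K ∧ DifferentiableAt ℂ γ s} :=
      hΘd.comp (fun s hs => (differentiableAt_id.prodMk hs.2).differentiableWithinAt)
        fun s hs => hKU _ hs.1
    exact d1.eventually_differentiableAt (e4.and (g1.mono fun s hs => hs.1)))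
    (0, w) ⟨⟨by simp; positivity, by simpa using x4, by simpa using x4⟩, by simp [hh]⟩
  rw [hnΘ] at key
  simpa using key

theorem A12 {σ : ℝ} (hσ : 0 < σ) : ∃ T : ℝ, 13 ≤ T ∧ ∀ (α β : ℝ) (F : ℂ × ℂ → ℂ),
    DifferentiableOn ℂ F (UU T α β) → (∀ x ∈ UU T α β, ‖F x‖ ≤ 1) → ∀ w : ℂ, ‖w‖ < 1 →
    ‖F (0, w * Complex.exp (2 * π * α * Complex.I)) - F (0, w)‖ ≤ σ := by
  set b : ℝ := 13 + 32 / σ with hb
  have hb0 : 0 < 32 / σ := by positivity
  have hb1 : 16 * Real.exp (-(b / 2)) ≤ σ := by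
    have h1 := Real.add_one_le_exp (b / 2)
    have h2 : 16 / σ ≤ Real.exp (b / 2) := by
      have : 32 / σ = 2 * (16 / σ) := by ring
      linarith
    rw [div_le_iff₀ hσ] at h2
    rw [Real.exp_neg, ← div_eq_mul_inv, div_le_iff₀ (Real.exp_pos _)]
    linarith
  obtain ⟨N, hN⟩ := exists_nat_ge (1 + 24 * π * Real.exp b / (b * σ))
  have hbp : 0 < b := by linarith
  have hq : 0 < 24 * π * Real.exp b / (b * σ) := by positivity
  have hN1 : (1 : ℝ) ≤ N := by linarith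
  have hN1' : 1 ≤ N := by exact_mod_cast hN1
  have hN2 : 24 * π * Real.exp b ≤ N * (b * σ) := by
    rw [← div_le_iff₀ (by positivity)]; linarith
  have hT : 13 ≤ N * b := by nlinarith
  refine ⟨N * b, hT, fun α β F hF hB w hw => ?_⟩
  have h := A2 hT hF hB N (B := σ ^ N) ?_ ?_ hw
  · exact (pow_le_pow_iff_left₀ (norm_nonneg _) hσ.le (by omega)).1 h
  · calc (8 * π / (N * b)) ^ N * (3 * Real.exp (N * b))
        ≤ (8 * π / (N * b)) ^ N * (3 ^ N * Real.exp b ^ N) := by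
          rw [Real.exp_nat_mul]
          gcongr
          exact le_self_pow₀ (by norm_num) (by omega)
      _ = (24 * π * Real.exp b / (N * b)) ^ N := by
          rw [← mul_pow, ← mul_pow]; congr 1; ring
      _ ≤ σ ^ N := by
          gcongr
          rw [div_le_iff₀ (by positivity)]
          linarith
  · calc (2 : ℝ) ^ N * (8 * Real.exp (-(N * b / 2)))
        ≤ 2 ^ N * (8 ^ N * Real.exp (-(b / 2)) ^ N) := by
          rw [← Real.exp_nat_mul, show (N : ℝ) * -(b / 2) = -(N * b / 2) by ring]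
          gcongr
          exact le_self_pow₀ (by norm_num) (by omega)
      _ = (16 * Real.exp (-(b / 2))) ^ N := by
          rw [← mul_pow, ← mul_pow]; congr 1; ring
      _ ≤ σ ^ N := by gcongr

theorem hh_neg (α β : ℝ) (s : ℂ) : hh α β (-s) = hh β α s := by
  unfold hh
  rw [show -s + 1 = -(s - 1) by ring, show -s - 1 = -(s + 1) by ring, norm_neg, norm_neg]
  ring

/-- almost periodic bounded functions on a half plane -/
theorem A3 {Φ : ℂ → ℂ} {σ M : ℝ} (hd : DifferentiableOn ℂ Φ {ζ | ζ.re < 0})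
    (hB : ∀ ζ : ℂ, ζ.re < 0 → ‖Φ ζ‖ ≤ 1) (hM : 7 ≤ M)
    (hp : ‖Φ (-M + 2 * π * Complex.I) - Φ (-M)‖ ≤ σ) :
    ‖Φ (-M + π * Complex.I) - Φ (-M)‖ ≤ 8 * π ^ 2 / M ^ 2 + σ / 2 := by
  have hn : ‖(π * Complex.I : ℂ)‖ = π := by simp [abs_of_pos Real.pi_pos]
  have hπ := Real.pi_lt_d2
  have hball : ∀ c : ℂ, c.re ≤ -(M / 2) → ∀ y ∈ ball c (M / 2), y.re < 0 := fun c hc y hy => by
    have h1 := (Complex.re_le_norm (y - c)).trans_lt (mem_ball_iff_norm.1 hy)
    rw [Complex.sub_re] at h1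
    linarith
  set D : ℂ → ℂ := fun ζ => Φ (ζ + π * Complex.I) - Φ ζ with hD
  have h1 : ∀ ζ : ℂ, ζ.re ≤ -(M / 2) → ‖D ζ‖ ≤ 4 * π / M := fun ζ hζ => by
    have h := schw (hd.mono (hball ζ hζ)) (fun y hy => hB y (hball ζ hζ y hy))
      (z := ζ + π * Complex.I) (by rw [mem_ball_iff_norm, add_sub_cancel_left, hn]; linarith)
    rw [add_sub_cancel_left, hn] at h
    refine h.trans_eq ?_
    field_simp
    ring
  have h2 : ∀ y ∈ ball (-M : ℂ) (M / 2), y.re ≤ -(M / 2) := fun y hy => by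
    have h1 := (Complex.re_le_norm (y - -M)).trans_lt (mem_ball_iff_norm.1 hy)
    simp only [Complex.sub_re, Complex.neg_re, Complex.ofReal_re] at h1
    linarith
  have hDd : DifferentiableOn ℂ D (ball (-M : ℂ) (M / 2)) := by
    refine DifferentiableOn.sub (hd.comp (by fun_prop) fun y hy => ?_) (hd.mono fun y hy => ?_)
    · have := h2 y hy
      simp only [mem_ofPred_eq, Complex.add_re, Complex.mul_re, Complex.ofReal_re, Complex.I_re,
        Complex.ofReal_im, Complex.I_im]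
      linarith
    · have := h2 y hy
      simp only [mem_ofPred_eq]
      linarith
  have h3 := schw hDd (fun y hy => h1 y (h2 y hy)) (z := -M + π * Complex.I)
    (by rw [mem_ball_iff_norm, add_sub_cancel_left, hn]; linarith)
  rw [add_sub_cancel_left, hn] at h3
  have e1 : 2 * D (-M) = (Φ (-M + 2 * π * Complex.I) - Φ (-M)) -
      (D (-M + π * Complex.I) - D (-M)) := by
    simp only [hD]
    rw [show (-M + π * Complex.I + π * Complex.I : ℂ) = -M + 2 * π * Complex.I by ring]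
    ring
  have h4 : ‖2 * D (-M)‖ ≤ σ + 2 * (4 * π / M) / (M / 2) * π := by
    rw [e1]
    exact (norm_sub_le _ _).trans (add_le_add hp h3)
  rw [norm_mul, Complex.norm_two] at h4
  have e2 : 2 * (4 * π / M) / (M / 2) * π = 2 * (8 * π ^ 2 / M ^ 2) := by
    field_simp
    ring
  show ‖D (-M)‖ ≤ _
  linarith

/-- Theorem A: the Carathéodory estimate on the model domain -/
theorem thmA {M : ℝ} (hM : 7 ≤ M) : ∃ T : ℝ, 13 ≤ T ∧ ∀ (L : ℝ), 0 < L → ∀ (F : ℂ × ℂ → ℂ),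
    DifferentiableOn ℂ F (UU T (M / L) ((M + 1) / L)) →
    (∀ x ∈ UU T (M / L) ((M + 1) / L), ‖F x‖ ≤ 1) →
    ‖F (0, Complex.exp ((-M + π * Complex.I) / L)) - F (0, Complex.exp (-M / L))‖ ≤ 100 / M ^ 2 := by
  obtain ⟨T, hT, h⟩ := A12 (σ := 1 / M ^ 2) (by positivity)
  refine ⟨T, hT, fun L hL F hF hB => ?_⟩
  have hL' : (L : ℂ) ≠ 0 := by exact_mod_cast hL.ne'
  have hlt : ∀ ζ : ℂ, ζ.re < 0 → ‖Complex.exp (ζ / L)‖ < 1 := fun ζ hζ => by
    rw [Complex.norm_exp, Real.exp_lt_one_iff, Complex.div_ofReal_re]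
    exact div_neg_of_neg_of_pos hζ hL
  have hmem : ∀ ζ : ℂ, ζ.re < 0 → ((0 : ℂ), Complex.exp (ζ / L)) ∈ UU T (M / L) ((M + 1) / L) :=
    fun ζ hζ => by
    have x1 : Real.exp (-T) < 1 := Real.exp_lt_one_iff.2 (by linarith)
    exact ⟨by simpa using Real.exp_pos T, by simpa using x1, by simpa using x1,
      by simpa [hh] using hlt ζ hζ⟩
  have hneg : ∀ x ∈ UU T ((M + 1) / L) (M / L), (-x.1, x.2) ∈ UU T (M / L) ((M + 1) / L) :=
    fun x hx => by
    refine ⟨by simpa using hx.1, ?_, ?_, ?_⟩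
    · show _ < ‖-x.1 + 1‖
      rw [show -x.1 + 1 = -(x.1 - 1) by ring, norm_neg]; exact hx.2.2.1
    · show _ < ‖-x.1 - 1‖
      rw [show -x.1 - 1 = -(x.1 + 1) by ring, norm_neg]; exact hx.2.1
    · show ‖x.2‖ * Real.exp (hh _ _ (-x.1)) < 1
      rw [hh_neg]; exact hx.2.2.2
  have hr : ∀ t : ℝ, ((-M + t * Complex.I : ℂ)).re < 0 := fun t => by
    simp only [Complex.add_re, Complex.neg_re, Complex.mul_re, Complex.ofReal_re, Complex.I_re,
      Complex.ofReal_im, Complex.I_im]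
    linarith
  have h1 := h (M / L) ((M + 1) / L) F hF hB _ (hlt _ (hr (-(2 * π * M))))
  have h2 := h ((M + 1) / L) (M / L) (fun x => F (-x.1, x.2)) (hF.comp (by fun_prop) hneg)
    (fun x hx => hB _ (hneg x hx)) _ (hlt _ (hr (-(2 * π * M))))
  simp only [neg_zero, ← Complex.exp_add] at h1 h2
  have e1 : (-M + (-(2 * π * M) : ℝ) * Complex.I : ℂ) / L + 2 * π * (M / L : ℝ) * Complex.I =
      -M / L := by
    push_cast
    field_simp
    ring
  have e2 : (-M + (-(2 * π * M) : ℝ) * Complex.I : ℂ) / L + 2 * π * ((M + 1) / L : ℝ) * Complex.I =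
      (-M + 2 * π * Complex.I) / L := by
    push_cast
    field_simp
    ring
  rw [e1] at h1
  rw [e2] at h2
  have h3 := A3 (Φ := fun ζ => F (0, Complex.exp (ζ / L))) (σ := 2 * (1 / M ^ 2))
    (hF.comp (by fun_prop) hmem) (fun ζ hζ => hB _ (hmem ζ hζ)) hM (by
      have := norm_sub_le_norm_sub_add_norm_sub (F (0, Complex.exp ((-M + 2 * π * Complex.I) / L)))
        (F (0, Complex.exp ((-M + (-(2 * π * M) : ℝ) * Complex.I : ℂ) / L)))
        (F (0, Complex.exp (-M / L)))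
      rw [norm_sub_rev] at h1
      linarith)
  refine h3.trans ?_
  have hπ : π ^ 2 ≤ 4 ^ 2 := by
    have := Real.pi_pos
    gcongr
    exact Real.pi_le_four
  have hπ' : π ^ 2 ≤ 10 := by nlinarith [Real.pi_lt_d2, Real.pi_pos]
  rw [show 8 * π ^ 2 / M ^ 2 + 2 * (1 / M ^ 2) / 2 = (8 * π ^ 2 + 1) / M ^ 2 by ring]
  gcongr
  linarith

end Pool.Agent.H228Z.Sq
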