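import Mathlib

/-!
A lower bound for the time an analytic disc needs to change the sign of a bounded function whose
zeros have high multiplicity.
-/

set_option autoImplicit false

namespace Pool.Agent.H228Z.Sq

open Set Filter Topology Metric Asymptotics
open scoped Real

theorem zero_free {τ : ℝ} {n : ℕ} (hn : 1 ≤ n) {Q u Q₁ : ℂ → ℂ} {ζ₀ : ℂ} (hζ : ‖ζ₀‖ < τ / 22)
    (hQ : DifferentiableOn ℂ Q (ball 0 τ)) (hu : DifferentiableOn ℂ u (ball 0 τ))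
    (hQ₁ : DifferentiableOn ℂ Q₁ (ball 0 τ)) (he : ∀ ζ, Q ζ = u ζ ^ (n + 1) * Q₁ ζ)
    (hB : ∀ ζ ∈ ball (0 : ℂ) τ, ‖Q ζ‖ ≤ Real.exp 2) (h0 : ‖Q 0‖ = Real.exp (-(n + 1 : ℕ))) :
    u ζ₀ ≠ 0 := by
  intro hu0
  have hn0 := norm_nonneg ζ₀
  have hτ : 0 < τ := by linarith
  have hsub : ball ζ₀ (τ - ‖ζ₀‖) ⊆ ball 0 τ := ball_subset_ball' (by simp)
  have hm : ball (0 : ℂ) τ ∈ 𝓝 ζ₀ := isOpen_ball.mem_nhds (mem_ball_zero_iff.2 (by linarith))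
  have hQ0 : Q ζ₀ = 0 := by rw [he, hu0]; simp
  have h1 : u =O[𝓝 ζ₀] fun w => ‖w - ζ₀‖ := by
    have := (hu.differentiableAt hm).isBigO_sub
    simp only [hu0, sub_zero] at this
    exact this.norm_right
  have h2 : (fun w => u w * Q₁ w) =o[𝓝 ζ₀] fun _ => (1 : ℝ) := by
    rw [isLittleO_one_iff]
    have := ((hu.differentiableAt hm).fun_mul (hQ₁.differentiableAt hm)).continuousAt.tendsto
    simpa [hu0] using this
  have h3 : (fun w => Q w - Q ζ₀) =o[𝓝 ζ₀] fun w => ‖w - ζ₀‖ ^ n := by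
    have := (h1.pow n).mul_isLittleO h2
    simp only [mul_one] at this
    refine this.congr_left fun w => ?_
    rw [hQ0, he]
    ring
  have h4 := Complex.dist_le_mul_div_pow_of_mapsTo_ball_of_isLittleO (hQ.mono hsub)
    (R₂ := Real.exp 2) (fun y hy => by
      rw [hQ0, mem_closedBall_zero_iff]; exact hB y (hsub hy)) h3 (z := 0) (by
      rw [mem_ball, dist_zero_left]; linarith)
  rw [hQ0, dist_zero_right, h0, dist_zero_left] at h4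
  have h5 : ‖ζ₀‖ / (τ - ‖ζ₀‖) ≤ Real.exp (-3) := by
    rw [div_le_iff₀ (by linarith), Real.exp_neg, inv_mul_eq_div, le_div_iff₀ (Real.exp_pos _)]
    have : Real.exp 3 ≤ 21 := by
      rw [show (3 : ℝ) = (3 : ℕ) * 1 by norm_num, Real.exp_nat_mul]
      have := Real.exp_one_lt_d9
      calc Real.exp 1 ^ 3 ≤ 2.72 ^ 3 := by gcongr; linarith
        _ ≤ 21 := by norm_num
    nlinarith
  have h6 : Real.exp (-(n + 1 : ℕ)) ≤ Real.exp 2 * Real.exp (-3) ^ (n + 1) :=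
    h4.trans (by gcongr; exact div_nonneg hn0 (by linarith))
  rw [← Real.exp_nat_mul, ← Real.exp_add, Real.exp_le_exp] at h6
  have h7 : (1 : ℝ) ≤ n := by exact_mod_cast hn
  push_cast at h6
  linarith

theorem thmB0 {τ M : ℝ} (hM : 0 ≤ M) {Q : ℂ → ℂ} (hQ : DifferentiableOn ℂ Q (ball 0 τ))
    (hne : ∀ ζ ∈ ball (0 : ℂ) τ, Q ζ ≠ 0)
    (hB : ∀ ζ ∈ ball (0 : ℂ) τ, ‖Q ζ‖ ≤ Real.exp 2) (h0 : ‖Q 0‖ = Real.exp (-M)) {ζ₁ : ℂ}
    (h1 : ζ₁ ∈ ball (0 : ℂ) τ) (h2 : Q ζ₁ = -Q 0) : τ ≤ (2 * M + 5) * ‖ζ₁‖ := by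
  have hτ : 0 < τ := nonempty_ball.1 ⟨_, h1⟩
  have hz : (0 : ℂ) ∈ ball (0 : ℂ) τ := mem_ball_self hτ
  have hd : DifferentiableOn ℂ (fun ζ => deriv Q ζ / Q ζ) (ball 0 τ) :=
    (hQ.deriv isOpen_ball).div hQ hne
  obtain ⟨g, g0, hg⟩ := hd.isExactOn_ball.with_val_at 0 0
  have hc : ∀ ζ ∈ ball (0 : ℂ) τ, Q ζ * Complex.exp (-g ζ) = Q 0 := fun ζ hζ => by
    have h3 : ∀ y ∈ ball (0 : ℂ) τ, HasDerivAt (fun ζ => Q ζ * Complex.exp (-g ζ)) 0 y :=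
      fun y hy => by
      have h4 := ((hQ.differentiableAt (isOpen_ball.mem_nhds hy)).hasDerivAt).fun_mul
        (hg y hy).fun_neg.cexp
      refine h4.congr_deriv ?_
      have := hne y hy
      field_simp
      ring
    have h5 := isOpen_ball.is_const_of_deriv_eq_zero (convex_ball _ _).isPreconnected
      (fun y hy => (h3 y hy).differentiableAt.differentiableWithinAt)
      (fun y hy => (h3 y hy).deriv) hζ hz
    simpa [g0] using h5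
  have hre : MapsTo g (ball 0 τ) {z | z.re ≤ M + 2} := fun ζ hζ => by
    have h3 := congrArg norm (hc ζ hζ)
    rw [norm_mul, Complex.norm_exp, h0, Complex.neg_re] at h3
    have h4 : Real.exp (-M) ≤ Real.exp 2 * Real.exp (-(g ζ).re) := by
      rw [← h3]; gcongr; exact hB ζ hζ
    rw [← Real.exp_add, Real.exp_le_exp] at h4
    simp only [mem_ofPred_eq]
    linarith
  have h3 := Complex.borelCaratheodory_zero (by linarith)
    (fun y hy => (hg y hy).differentiableAt.differentiableWithinAt) hre hτ h1 g0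
  have h4 : Complex.exp (-g ζ₁) = -1 := by
    have h5 := hc ζ₁ h1
    rw [h2] at h5
    have h6 := hne 0 hz
    apply mul_left_cancel₀ h6
    linear_combination -h5
  have h5 : 1 ≤ ‖g ζ₁‖ := by
    by_contra h6
    push Not at h6
    have h7 := Complex.norm_exp_sub_one_le (x := -g ζ₁) (by rw [norm_neg]; exact h6.le)
    rw [h4, norm_neg, show (-1 - 1 : ℂ) = -2 by ring, norm_neg, Complex.norm_two] at h7
    linarith
  have h6 := h5.trans h3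
  rw [le_div_iff₀ (by linarith [mem_ball_zero_iff.1 h1])] at h6
  linarith

/-- Theorem B: the Kobayashi estimate -/
theorem thmB {τ : ℝ} {M L : ℕ} (hM : 2 ≤ M) (hL : M ≤ L) {u₁ u₂ u₃ : ℂ → ℂ}
    (h₁ : DifferentiableOn ℂ u₁ (ball 0 τ)) (h₂ : DifferentiableOn ℂ u₂ (ball 0 τ))
    (h₃ : DifferentiableOn ℂ u₃ (ball 0 τ))
    (hB : ∀ ζ ∈ ball (0 : ℂ) τ, ‖u₁ ζ ^ L * u₂ ζ ^ M * u₃ ζ ^ (M + 1)‖ ≤ Real.exp 2)
    (h0 : ‖u₁ 0 ^ L * u₂ 0 ^ M * u₃ 0 ^ (M + 1)‖ = Real.exp (-M)) {ζ₁ : ℂ}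
    (h2 : u₁ ζ₁ ^ L * u₂ ζ₁ ^ M * u₃ ζ₁ ^ (M + 1) = -(u₁ 0 ^ L * u₂ 0 ^ M * u₃ 0 ^ (M + 1))) :
    τ / 22 ≤ (2 * M + 5) * ‖ζ₁‖ := by
  by_cases h1 : ζ₁ ∈ ball (0 : ℂ) (τ / 22)
  swap
  · rw [mem_ball_zero_iff, not_lt] at h1
    have : (0 : ℝ) ≤ M := Nat.cast_nonneg M
    nlinarith [norm_nonneg ζ₁]
  have hτ : 0 < τ / 22 := nonempty_ball.1 ⟨_, h1⟩
  have hsub : ball (0 : ℂ) (τ / 22) ⊆ ball 0 τ := ball_subset_ball (by linarith)
  obtain ⟨n, rfl⟩ : ∃ n, M = n + 1 := ⟨M - 1, by omega⟩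
  obtain ⟨k, rfl⟩ : ∃ k, L = n + 1 + k := ⟨L - (n + 1), by omega⟩
  have hQ : DifferentiableOn ℂ (fun ζ => u₁ ζ ^ (n + 1 + k) * u₂ ζ ^ (n + 1) * u₃ ζ ^ (n + 1 + 1))
      (ball 0 τ) := by fun_prop
  refine thmB0 (Nat.cast_nonneg _) (hQ.mono hsub) (fun ζ hζ => ?_) (fun ζ hζ => hB ζ (hsub hζ))
    h0 h1 h2
  rw [mem_ball_zero_iff] at hζ
  have k1 := zero_free (n := n) (by omega) hζ hQ h₁
    (Q₁ := fun ζ => u₁ ζ ^ k * u₂ ζ ^ (n + 1) * u₃ ζ ^ (n + 1 + 1)) (by fun_prop)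
    (fun ζ => by ring) hB h0
  have k2 := zero_free (n := n) (by omega) hζ hQ h₂
    (Q₁ := fun ζ => u₁ ζ ^ (n + 1 + k) * u₃ ζ ^ (n + 1 + 1)) (by fun_prop)
    (fun ζ => by ring) hB h0
  have k3 := zero_free (n := n) (by omega) hζ hQ h₃
    (Q₁ := fun ζ => u₁ ζ ^ (n + 1 + k) * u₂ ζ ^ (n + 1) * u₃ ζ) (by fun_prop)
    (fun ζ => by ring) hB h0
  exact mul_ne_zero (mul_ne_zero (pow_ne_zero _ k1) (pow_ne_zero _ k2)) (pow_ne_zero _ k3)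

end Pool.Agent.H228Z.Sq
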