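import Pool.Agent.H228Z.SqA
import Pool.Agent.H228Z.SqB
import Pool.Agent.Helper540.Osgood

/-!
A feature of the boundary forces the squeezing function to be small at a point.
-/

set_option autoImplicit false

namespace Pool.Agent.H228Z.Sq

open Set Filter Topology Metric
open scoped Real

/-- the ambient space -/
abbrev EE := EuclideanSpace ℂ (Fin 2)

/-- a point from its coordinates -/
noncomputable def mk (z w : ℂ) : EE := !₂[z, w]

@[simp] theorem mk_zero (z w : ℂ) : mk z w 0 = z := rfl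
@[simp] theorem mk_one (z w : ℂ) : mk z w 1 = w := rfl

theorem mk_eta (x : EE) : mk (x 0) (x 1) = x := by
  ext i; fin_cases i <;> rfl

theorem mk_diffOn {X : Type*} [NormedAddCommGroup X] [NormedSpace ℂ X] {f g : X → ℂ} {s : Set X}
    (hf : DifferentiableOn ℂ f s) (hg : DifferentiableOn ℂ g s) :
    DifferentiableOn ℂ (fun x => mk (f x) (g x)) s := by
  rw [differentiableOn_euclidean]
  intro i
  fin_cases i
  · exact hf
  · exact hg

theorem local_bound {Ω : Set EE} (hΩ : IsOpen Ω) (hz : ∀ x ∈ Ω, ‖x 0‖ ≤ 1) {b : ℂ} {R T : ℝ}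
    (hR : 0 < R) (hR1 : R ≤ 1) {M L : ℕ} (hM : 7 ≤ M) (hL : M ≤ L) (hT : 13 ≤ T) {H : ℂ → ℂ}
    (hH : DifferentiableOn ℂ H (ball b R))
    (hA : ∀ (L : ℝ), 0 < L → ∀ (F : ℂ × ℂ → ℂ),
      DifferentiableOn ℂ F (UU T (M / L) ((M + 1) / L)) →
      (∀ x ∈ UU T (M / L) ((M + 1) / L), ‖F x‖ ≤ 1) →
      ‖F (0, Complex.exp ((-(M : ℝ) + π * Complex.I) / L)) - F (0, Complex.exp (-(M : ℝ) / L))‖ ≤
        100 / (M : ℝ) ^ 2)
    (hin : ∀ x ∈ UU T (M / L) ((M + 1) / L), mk (b + (R * Real.exp (-T) : ℝ) * x.1)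
      (x.2 * Complex.exp (-H (b + (R * Real.exp (-T) : ℝ) * x.1))) ∈ Ω)
    (hout : ∀ y ∈ Ω, y 0 ∈ ball b R → ‖(y 1 * Complex.exp (H (y 0))) ^ L *
      ((y 0 - b) / (R * Real.exp (-T) : ℝ) + 1) ^ M *
      ((y 0 - b) / (R * Real.exp (-T) : ℝ) - 1) ^ (M + 1)‖ ≤ Real.exp 2) :
    ∃ p ∈ Ω, ∀ (c : ℝ) (f : EE → EE), 0 < c → DifferentiableOn ℂ f Ω → InjOn f Ω →
      MapsTo f Ω (ball 0 1) → f p = 0 → ball 0 c ⊆ f '' Ω → c * (R * M) ≤ 13200 := by
  set r : ℝ := R * Real.exp (-T) with hr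
  have hr0 : 0 < r := by positivity
  have hM' : (7 : ℝ) ≤ M := by exact_mod_cast hM
  have hL0 : (0 : ℝ) < L := by exact_mod_cast (by omega : 0 < L)
  have hL' : (L : ℂ) ≠ 0 := by exact_mod_cast (by omega : L ≠ 0)
  have hmem : ∀ ζ : ℂ, ζ.re < 0 → ((0 : ℂ), Complex.exp (ζ / (L : ℝ))) ∈
      UU T (M / L) ((M + 1) / L) := fun ζ hζ => by
    have x1 : Real.exp (-T) < 1 := Real.exp_lt_one_iff.2 (by linarith)
    have x2 : ‖Complex.exp (ζ / (L : ℝ))‖ < 1 := by
      rw [Complex.norm_exp, Real.exp_lt_one_iff, Complex.div_ofReal_re]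
      exact div_neg_of_neg_of_pos hζ hL0
    exact ⟨by simpa using Real.exp_pos T, by simpa using x1, by simpa using x1,
      by simpa only [hh, zero_add, zero_sub, norm_neg, norm_one, Real.log_one, mul_zero, add_zero,
        Real.exp_zero, mul_one] using x2⟩
  set Ψ : ℂ × ℂ → EE := fun x => mk (b + r * x.1) (x.2 * Complex.exp (-H (b + r * x.1))) with hΨ
  have hΨd : DifferentiableOn ℂ Ψ (UU T (M / L) ((M + 1) / L)) := by
    have h1 : DifferentiableOn ℂ (fun x : ℂ × ℂ => H (b + r * x.1)) (UU T (M / L) ((M + 1) / L)) := by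
      refine hH.comp (by fun_prop) fun x hx => ?_
      rw [mem_ball_iff_norm, add_sub_cancel_left, norm_mul, Complex.norm_real,
        Real.norm_of_nonneg hr0.le]
      calc r * ‖x.1‖ < r * Real.exp T := by gcongr; exact hx.1
        _ = R := by rw [hr, mul_assoc, ← Real.exp_add]; simp
    exact mk_diffOn (by fun_prop) (differentiableOn_snd.mul h1.neg.cexp)
  set p := Ψ (0, Complex.exp (-(M : ℝ) / (L : ℝ))) with hp
  set q := Ψ (0, Complex.exp ((-(M : ℝ) + π * Complex.I) / (L : ℝ))) with hq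
  have hpΩ : p ∈ Ω := hin _ (hmem _ (by simp; omega))
  have hqΩ : q ∈ Ω := hin _ (hmem _ (by simp; omega))
  refine ⟨p, hpΩ, fun c f hc hf hinj hmaps hfp hball => ?_⟩
  obtain ⟨g, hg1, hg2⟩ := exists_dual_vector'' ℂ (f q)
  have hfq : ‖f q‖ ≤ 100 / (M : ℝ) ^ 2 := by
    have h := hA L hL0 (fun x => g (f (Ψ x)))
      (g.differentiable.comp_differentiableOn (hf.comp hΨd hin)) fun x hx => by
        refine (g.le_opNorm _).trans (mul_le_one₀ hg1 (norm_nonneg _) ?_)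
        exact (mem_ball_zero_iff.1 (hmaps (hin x hx))).le
    rw [← hp, ← hq, hfp, hg2] at h
    simpa using h
  rw [le_div_iff₀ (by positivity)] at hfq
  by_cases hcq : c ≤ ‖f q‖
  · have : c * (R * M) ≤ ‖f q‖ * (1 * M ^ 2) := by
      gcongr
      nlinarith
    linarith
  push Not at hcq
  set v : EE → EE := Function.invFunOn f Ω with hv
  have hv1 : ∀ y ∈ ball (0 : EE) c, v y ∈ Ω := fun y hy => Function.invFunOn_mem (hball hy)
  have hv2 : ∀ y ∈ ball (0 : EE) c, f (v y) = id y := fun y hy => Function.invFunOn_eq (hball hy)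
  have hvd := Pool.Agent.Helper540.differentiableOn_of_comp rfl hΩ isOpen_ball hf hinj
    differentiableOn_id hv1 hv2
  have hv3 : ∀ y ∈ Ω, v (f y) = y := fun y hy => hinj.leftInvOn_invFunOn hy
  set d : EE := ((c / ‖f q‖ : ℝ) : ℂ) • f q with hd
  have hdn : ‖d‖ ≤ c := by
    rw [hd, norm_smul, Complex.norm_real, Real.norm_of_nonneg (by positivity)]
    rcases eq_or_ne ‖f q‖ 0 with h | h
    · rw [h, mul_zero]; exact hc.le
    · rw [div_mul_cancel₀ _ h]
  have hζd : ((‖f q‖ / c : ℝ) : ℂ) • d = f q := by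
    rw [hd, smul_smul, ← Complex.ofReal_mul]
    rcases eq_or_ne (f q) 0 with h | h
    · rw [h, smul_zero]
    · have := norm_ne_zero_iff.2 h
      rw [show ‖f q‖ / c * (c / ‖f q‖) = 1 by field_simp, Complex.ofReal_one, one_smul]
  have hmb : ∀ ζ ∈ ball (0 : ℂ) 1, ζ • d ∈ ball (0 : EE) c := fun ζ hζ => by
    rw [mem_ball_zero_iff] at hζ ⊢
    rw [norm_smul]
    calc ‖ζ‖ * ‖d‖ ≤ ‖ζ‖ * c := by gcongr
      _ < 1 * c := by gcongr
      _ = c := one_mul c
  set D : ℂ → EE := fun ζ => v (ζ • d) with hD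
  have hDd : DifferentiableOn ℂ D (ball 0 1) := hvd.comp (by fun_prop) hmb
  have hDΩ : ∀ ζ ∈ ball (0 : ℂ) 1, D ζ ∈ Ω := fun ζ hζ => hv1 _ (hmb ζ hζ)
  have hD0 : D 0 = p := by
    simp only [hD, zero_smul]; rw [← hfp]; exact hv3 p hpΩ
  have hD1 : D (‖f q‖ / c : ℝ) = q := by
    simp only [hD, hζd]; exact hv3 q hqΩ
  have hDz : DifferentiableOn ℂ (fun ζ => D ζ 0) (ball 0 1) := differentiableOn_euclidean.1 hDd 0
  have hDw : DifferentiableOn ℂ (fun ζ => D ζ 1) (ball 0 1) := differentiableOn_euclidean.1 hDd 1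
  have hsub : ball (0 : ℂ) (R / 2) ⊆ ball 0 1 := ball_subset_ball (by linarith)
  have hp0 : p 0 = b := by simp [hp, hΨ]
  have hq0 : q 0 = b := by simp [hq, hΨ]
  have hDb : ∀ ζ ∈ ball (0 : ℂ) (R / 2), D ζ 0 ∈ ball b R := fun ζ hζ => by
    have h := schw hDz (fun y hy => hz _ (hDΩ y hy)) (hsub hζ)
    rw [hD0, hp0, sub_zero] at h
    rw [mem_ball_zero_iff] at hζ
    rw [mem_ball_iff_norm]
    linarith
  have hp1 : (p 1 * Complex.exp (H b)) ^ L = Complex.exp (-(M : ℝ)) := by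
    simp only [hp, hΨ, mk_one, mul_zero, add_zero, ← Complex.exp_add, neg_add_cancel_right,
      ← Complex.exp_nat_mul]
    congr 1
    push_cast
    field_simp
  have hq1 : (q 1 * Complex.exp (H b)) ^ L = -Complex.exp (-(M : ℝ)) := by
    simp only [hq, hΨ, mk_one, mul_zero, add_zero, ← Complex.exp_add, neg_add_cancel_right,
      ← Complex.exp_nat_mul]
    rw [← Complex.exp_add_pi_mul_I]
    congr 1
    push_cast
    field_simp
  have hz' := hDz.mono hsub
  have hw' := hDw.mono hsub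
  have hH' : DifferentiableOn ℂ (fun ζ => H (D ζ 0)) (ball 0 (R / 2)) := hH.comp hz' hDb
  have key := thmB (τ := R / 2) (M := M) (L := L) (by omega) hL
    (u₁ := fun ζ => D ζ 1 * Complex.exp (H (D ζ 0))) (u₂ := fun ζ => (D ζ 0 - b) / r + 1)
    (u₃ := fun ζ => (D ζ 0 - b) / r - 1) (hw'.mul hH'.cexp) (by fun_prop) (by fun_prop)
    (fun ζ hζ => hout _ (hDΩ ζ (hsub hζ)) (hDb ζ hζ))
    (by simp only [hD0, hp0, hp1]; simp [Complex.norm_exp]) (ζ₁ := (‖f q‖ / c : ℝ))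
    (by simp only [hD0, hD1, hp0, hq0, hp1, hq1]; ring)
  rw [Complex.norm_real, Real.norm_of_nonneg (by positivity), ← mul_div_assoc,
    le_div_iff₀ hc] at key
  have h1 : (2 * M + 5) * ‖f q‖ ≤ 3 * M * ‖f q‖ := by gcongr; linarith
  have h2 : c * (R * M) * M ≤ 13200 * M := by nlinarith
  exact le_of_mul_le_mul_right h2 (by linarith)

end Pool.Agent.H228Z.Sq
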