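import Pool.Agent.H6Z.Berg.Phi

/-!
Truncated logarithms, their approximation by logarithms of polynomials, and a smooth series.
-/

set_option autoImplicit false

namespace Pool.Agent.H228Z.Sq

open Set Filter Topology Metric Pool.Agent.H6Z.Berg
open scoped Real ContDiff

theorem lam_tangent (x y : ℝ) : lam x + Real.smoothTransition x * (y - x) ≤ lam y := by
  rcases lt_trichotomy x y with h | h | h
  · have h1 := lam_convex.le_slope_of_hasDerivAt (mem_univ _) (mem_univ _) h (lam_hasDerivAt x)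
    rw [slope_def_field, le_div_iff₀ (by linarith)] at h1
    linarith
  · simp [h]
  · have h1 := lam_convex.slope_le_of_hasDerivAt (mem_univ _) (mem_univ _) h (lam_hasDerivAt x)
    rw [slope_def_field, div_le_iff₀ (by linarith)] at h1
    linarith

theorem lam_ge (y : ℝ) : y - (1 - lam 1) ≤ lam y := by
  have := lam_tangent 1 y
  rw [Real.smoothTransition.one] at this
  linarith

theorem lam_lin {x : ℝ} (hx : 1 ≤ x) : lam x = x - (1 - lam 1) := by
  have := lam_tangent x 1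
  rw [Real.smoothTransition.one_of_one_le hx] at this
  linarith [lam_ge x]

theorem pos_of_lam_pos {x : ℝ} (h : 0 < lam x) : 0 < x := by
  by_contra h1
  rw [lam_of_nonpos (not_lt.1 h1)] at h
  exact lt_irrefl _ h

/-- the truncated logarithm -/
noncomputable def psi (A : ℝ) (a z : ℂ) : ℝ := LL A (‖z - a‖ ^ 2) / 2

theorem psi_nonneg (A : ℝ) (a z : ℂ) : 0 ≤ psi A a z := div_nonneg (LL_nonneg _ _) zero_le_two

theorem psi_contDiff (A : ℝ) (a : ℂ) : ContDiff ℝ ∞ (psi A a) :=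
  ((LL_contDiff A).comp ((contDiff_id.sub contDiff_const).norm_sq ℝ)).div_const 2

theorem psi_self (A : ℝ) (a : ℂ) : psi A a a = 0 := by simp [psi, LL_zero]

theorem psi_eq (A : ℝ) {a z : ℂ} (h : z ≠ a) :
    psi A a z = lam (A + 2 * Real.log ‖z - a‖) / 2 := by
  have : 0 < ‖z - a‖ := norm_pos_iff.2 (sub_ne_zero.2 h)
  rw [psi, LL_pos A (by positivity), Real.log_pow]
  norm_num

theorem psi_ge (A : ℝ) {a z : ℂ} (h : z ≠ a) :
    (A - (1 - lam 1)) / 2 + Real.log ‖z - a‖ ≤ psi A a z := by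
  rw [psi_eq A h]
  linarith [lam_ge (A + 2 * Real.log ‖z - a‖)]

theorem psi_lin {η : ℝ} (hη : 0 < η) {a z : ℂ} (h : η ≤ ‖z - a‖) :
    psi (1 - 2 * Real.log η) a z =
      (1 - 2 * Real.log η - (1 - lam 1)) / 2 + Real.log ‖z - a‖ := by
  have h1 : z ≠ a := sub_ne_zero.1 (norm_pos_iff.1 (hη.trans_le h))
  rw [psi_eq _ h1, lam_lin (by linarith [Real.log_le_log hη h])]
  ring

/-- approximable on the closed unit disc by logarithms of moduli of entire functions -/
def Ap (G : ℂ → ℝ) : Prop := ∀ q : ℂ, ‖q‖ ≤ 1 → ∀ δ : ℝ, 0 < δ → ∀ᶠ N : ℕ in atTop,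
  ∃ f : ℂ → ℂ, Differentiable ℂ f ∧ Real.exp (N * (G q - δ)) ≤ ‖f q‖ ∧
    ∀ k : ℂ, ‖k‖ ≤ 1 → ‖f k‖ ≤ Real.exp (N * (G k + δ))

theorem Ap.add {G₁ G₂ : ℂ → ℝ} (h₁ : Ap G₁) (h₂ : Ap G₂) : Ap fun z => G₁ z + G₂ z := by
  intro q hq δ hδ
  filter_upwards [h₁ q hq (δ / 2) (by linarith), h₂ q hq (δ / 2) (by linarith)] with N
    ⟨f₁, d₁, a₁, b₁⟩ ⟨f₂, d₂, a₂, b₂⟩
  refine ⟨fun z => f₁ z * f₂ z, d₁.mul d₂, ?_, fun k hk => ?_⟩
  · rw [norm_mul, show N * (G₁ q + G₂ q - δ) = N * (G₁ q - δ / 2) + N * (G₂ q - δ / 2) by ring,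
      Real.exp_add]
    gcongr
  · rw [norm_mul, show N * (G₁ k + G₂ k + δ) = N * (G₁ k + δ / 2) + N * (G₂ k + δ / 2) by ring,
      Real.exp_add]
    gcongr
    · exact b₁ k hk
    · exact b₂ k hk

theorem Ap_zero : Ap fun _ => 0 := by
  intro q _ δ hδ
  refine Eventually.of_forall fun N => ⟨fun _ => 1, differentiable_const _, ?_, fun k _ => ?_⟩
  · rw [norm_one, Real.exp_le_one_iff]
    exact mul_nonpos_of_nonneg_of_nonpos (Nat.cast_nonneg N) (by linarith)
  · rw [norm_one]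
    exact Real.one_le_exp (mul_nonneg (Nat.cast_nonneg N) (by linarith))

theorem Ap_sum {G : ℕ → ℂ → ℝ} (h : ∀ i, Ap (G i)) (n : ℕ) :
    Ap fun z => ∑ i ∈ Finset.range n, G i z := by
  induction n with
  | zero => simpa using Ap_zero
  | succ n ih => simpa only [Finset.sum_range_succ] using ih.add (h n)

theorem Ap.of_approx {G : ℂ → ℝ} (h : ∀ δ : ℝ, 0 < δ → ∃ G', Ap G' ∧
    ∀ z : ℂ, ‖z‖ ≤ 1 → |G z - G' z| ≤ δ) : Ap G := by
  intro q hq δ hδ
  obtain ⟨G', h1, h2⟩ := h (δ / 2) (by linarith)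
  filter_upwards [h1 q hq (δ / 2) (by linarith)] with N ⟨f, d, a, b⟩
  refine ⟨f, d, le_trans ?_ a, fun k hk => (b k hk).trans ?_⟩
  · exact Real.exp_le_exp.2 (mul_le_mul_of_nonneg_left (by linarith [(abs_le.1 (h2 q hq)).2])
      (Nat.cast_nonneg N))
  · exact Real.exp_le_exp.2 (mul_le_mul_of_nonneg_left (by linarith [(abs_le.1 (h2 k hk)).1])
      (Nat.cast_nonneg N))

theorem Ap_psi {κ : ℝ} (hκ : 0 ≤ κ) (A : ℝ) (a : ℂ) : Ap fun z => κ * psi A a z := by
  intro q hq δ hδ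
  rcases (mul_nonneg hκ (psi_nonneg A a q)).eq_or_lt with h0 | h0
  · refine Eventually.of_forall fun N => ⟨fun _ => 1, differentiable_const _, ?_, fun k _ => ?_⟩
    · rw [norm_one, Real.exp_le_one_iff]
      exact mul_nonpos_of_nonneg_of_nonpos (Nat.cast_nonneg N) (by linarith)
    · rw [norm_one]
      exact Real.one_le_exp (mul_nonneg (Nat.cast_nonneg N)
        (add_nonneg (mul_nonneg hκ (psi_nonneg A a k)) hδ.le))
  have hκ' : 0 < κ := pos_of_mul_pos_left h0 (psi_nonneg A a q)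
  have hψ : 0 < psi A a q := pos_of_mul_pos_left (by rwa [mul_comm] at h0) hκ
  have hqa : q ≠ a := fun h => by rw [h, psi_self] at hψ; exact lt_irrefl _ hψ
  have hx : 0 < A + 2 * Real.log ‖q - a‖ := by
    rw [psi_eq A hqa] at hψ
    exact pos_of_lam_pos (by linarith)
  set m := κ * Real.smoothTransition (A + 2 * Real.log ‖q - a‖) with hm
  have hm0 : 0 < m := mul_pos hκ' (Real.smoothTransition.pos_of_pos hx)
  have hqn : 0 < ‖q - a‖ := norm_pos_iff.2 (sub_ne_zero.2 hqa)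
  set D := |Real.log (1 + ‖a‖) - Real.log ‖q - a‖| with hD
  filter_upwards [eventually_ge_atTop 1,
    tendsto_natCast_atTop_atTop.eventually_ge_atTop (D / δ)] with N hN1 hN2
  rw [div_le_iff₀ hδ] at hN2
  have hN0 : (0 : ℝ) < N := by exact_mod_cast hN1
  have hn0 : ⌈m * N⌉₊ ≠ 0 := (Nat.ceil_pos.2 (by positivity)).ne'
  refine ⟨fun z => (Real.exp (N * (κ * psi A a q)) : ℝ) * ((z - a) / (q - a)) ^ ⌈m * N⌉₊,
    by fun_prop, ?_, fun k hk => ?_⟩
  · beta_reduce
    rw [div_self (sub_ne_zero.2 hqa), one_pow, mul_one, Complex.norm_real,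
      Real.norm_of_nonneg (Real.exp_pos _).le]
    gcongr
    linarith
  · rcases eq_or_ne k a with rfl | hka
    · simp only [sub_self, zero_div, zero_pow hn0, mul_zero, norm_zero]
      exact (Real.exp_pos _).le
    have hkn : 0 < ‖k - a‖ := norm_pos_iff.2 (sub_ne_zero.2 hka)
    beta_reduce
    rw [norm_mul, norm_pow, norm_div, Complex.norm_real, Real.norm_of_nonneg (Real.exp_pos _).le,
      ← Real.exp_log (div_pos hkn hqn), ← Real.exp_nat_mul, ← Real.exp_add, Real.exp_le_exp,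
      Real.log_div hkn.ne' hqn.ne']
    set t := Real.log ‖k - a‖ - Real.log ‖q - a‖ with ht
    have h1 : κ * psi A a q + m * t ≤ κ * psi A a k := by
      have := mul_le_mul_of_nonneg_left
        (lam_tangent (A + 2 * Real.log ‖q - a‖) (A + 2 * Real.log ‖k - a‖)) hκ
      rw [psi_eq A hqa, psi_eq A hka, hm, ht]
      linarith
    have h2 : t ≤ D := by
      have : Real.log ‖k - a‖ ≤ Real.log (1 + ‖a‖) :=
        Real.log_le_log hkn ((norm_sub_le _ _).trans (by linarith))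
      linarith [le_abs_self (Real.log (1 + ‖a‖) - Real.log ‖q - a‖)]
    have h3 := Nat.le_ceil (m * N)
    have h4 := (Nat.ceil_lt_add_one (a := m * N) (by positivity)).le
    have h5 : (⌈m * N⌉₊ - m * N) * t ≤ D := by
      have hD0 : 0 ≤ D := abs_nonneg _
      calc (⌈m * N⌉₊ - m * N) * t ≤ (⌈m * N⌉₊ - m * N) * D := by gcongr
        _ ≤ 1 * D := by gcongr; linarith
        _ = D := one_mul D
    nlinarith [mul_le_mul_of_nonneg_left h1 hN0.le]

theorem exists_L {g : ℕ → ℂ → ℝ} (hg : ∀ n, ContDiff ℝ ∞ (g n))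
    (hc : ∀ n, HasCompactSupport (g n)) (h0 : ∀ n z, 0 ≤ g n z) (M : ℕ → ℕ) :
    ∃ (L : ℕ → ℕ) (φ : ℂ → ℝ), (∀ n, M n ≤ L n) ∧ (∀ n, 0 < L n) ∧ ContDiff ℝ ∞ φ ∧
      ∀ n z, ∑ i ∈ Finset.range (n + 1), g i z / L i ≤ φ z ∧
        φ z ≤ ∑ i ∈ Finset.range (n + 1), g i z / L i + 1 / L n := by
  have h1 : ∀ n, ∃ C : ℝ, 0 < C ∧ ∀ i ≤ n, ∀ x, ‖iteratedFDeriv ℝ i (g n) x‖ ≤ C := fun n => by
    have : ∀ i, ∃ R, ∀ x, ‖iteratedFDeriv ℝ i (g n) x‖ ≤ R := fun i =>
      ((hc n).iteratedFDeriv i).exists_bound_of_continuous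
        ((hg n).continuous_iteratedFDeriv (mod_cast le_top))
    choose R hR using this
    refine ⟨∑ i ∈ Finset.range (n + 1), |R i| + 1, by positivity, fun i hi x => ?_⟩
    have := Finset.single_le_sum (f := fun i => |R i|) (fun i _ => abs_nonneg (R i))
      (Finset.mem_range.2 (Nat.lt_succ_of_le hi))
    linarith [le_abs_self (R i), hR i x]
  choose C hC0 hC using h1
  set c : ℕ → ℕ := fun n => ⌈2 ^ n * C n⌉₊ + M n + 1 with hcdef
  have hc1 : ∀ n, 1 ≤ c n := fun n => by simp [hcdef]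
  have hc2 : ∀ n, 2 ^ n * C n ≤ c n := fun n => by
    have := Nat.le_ceil (2 ^ n * C n)
    simp only [hcdef]
    push_cast
    have : (0 : ℝ) ≤ M n := Nat.cast_nonneg _
    linarith
  set L : ℕ → ℕ := fun n => ∏ i ∈ Finset.range (n + 1), c i with hL
  have hLs : ∀ n, L (n + 1) = L n * c (n + 1) := fun n => Finset.prod_range_succ _ _
  have hL0 : ∀ n, 0 < L n := fun n => Finset.prod_pos fun i _ => hc1 i
  have hLm : Monotone L := monotone_nat_of_le_succ fun n => by
    rw [hLs]; exact Nat.le_mul_of_pos_right _ (hc1 _)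
  have hLc : ∀ n, c n ≤ L n := fun n => by
    cases n with
    | zero => simp [hL]
    | succ n => rw [hLs]; exact Nat.le_mul_of_pos_left _ (hL0 _)
  have hL0' : ∀ n, (0 : ℝ) < L n := fun n => by exact_mod_cast hL0 n
  have hb : ∀ n, ∀ i ≤ n, ∀ x, ‖iteratedFDeriv ℝ i (fun z => g n z / L n) x‖ ≤ (1 / 2) ^ n :=
    fun n i hi x => by
    rw [show (fun z => g n z / L n) = (L n : ℝ)⁻¹ • g n by
      ext z; simp [div_eq_inv_mul],
      iteratedFDeriv_const_smul_apply ((hg n).contDiffAt.of_le (mod_cast le_top)), norm_smul,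
      Real.norm_of_nonneg (inv_nonneg.2 (hL0' n).le), inv_mul_le_iff₀ (hL0' n), one_div, inv_pow,
      ← div_eq_mul_inv, le_div_iff₀ (by positivity)]
    have : (c n : ℝ) ≤ L n := by exact_mod_cast hLc n
    calc _ ≤ C n * 2 ^ n := by gcongr; exact hC n i hi x
      _ ≤ _ := by linarith [hc2 n]
  have S : ∀ z, Summable fun n => g n z / L n := fun z => by
    refine .of_norm_bounded summable_geometric_two fun n => ?_
    simpa only [norm_iteratedFDeriv_zero] using hb n 0 zero_le z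
  refine ⟨L, fun z => ∑' n, g n z / L n, fun n => le_trans (by simp only [hcdef]; omega) (hLc n),
    hL0, ?_, fun n z => ⟨?_, ?_⟩⟩
  · refine contDiff_tsum_of_eventually (fun k => (hg k).div_const _)
      (fun k _ => summable_geometric_two) ?_
    intro i _
    simp only [Nat.cofinite_eq_atTop, Filter.eventually_atTop]
    exact ⟨i, fun n hn x => hb _ _ hn _⟩
  · exact (S z).sum_le_tsum _ fun i _ => div_nonneg (h0 i z) (hL0' i).le
  · show ∑' n, g n z / L n ≤ _
    rw [← (S z).sum_add_tsum_nat_add (n + 1), ← tsum_geometric_two' (1 / L n : ℝ)]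
    refine add_le_add le_rfl (Summable.tsum_le_tsum (fun k => ?_)
      ((summable_nat_add_iff (n + 1)).2 (S z)) (summable_geometric_two' _))
    have k1 : g (k + (n + 1)) z ≤ C (k + (n + 1)) := by
      have := hC (k + (n + 1)) 0 zero_le z
      rw [norm_iteratedFDeriv_zero] at this
      exact (le_abs_self _).trans this
    have k2 : (L n : ℝ) * c (k + (n + 1)) ≤ L (k + (n + 1)) := by
      have : L n * c (k + n + 1) ≤ L (k + n + 1) := by
        rw [hLs]; exact Nat.mul_le_mul_right _ (hLm (by omega))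
      exact_mod_cast this
    have k3 : (2 : ℝ) * 2 ^ k ≤ 2 ^ (k + (n + 1)) := by
      rw [← pow_succ']
      exact pow_le_pow_right₀ one_le_two (by omega)
    have := hL0' n
    have := hC0 (k + (n + 1))
    rw [div_div, div_div, div_le_div_iff₀ (hL0' _) (by positivity), one_mul]
    calc g (k + (n + 1)) z * (L n * (2 * 2 ^ k)) ≤ C (k + (n + 1)) * (L n * 2 ^ (k + (n + 1))) := by
          gcongr
      _ = L n * (2 ^ (k + (n + 1)) * C (k + (n + 1))) := by ring
      _ ≤ L n * c (k + (n + 1)) := by gcongr; exact hc2 _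
      _ ≤ _ := k2

end Pool.Agent.H228Z.Sq
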