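import Pool.Agent.H228Z.SqC
import Pool.Agent.H228Z.SqD

/-!
The Hartogs domain attached to a weight: smooth, bounded, connected, holomorphically convex.
-/

set_option autoImplicit false

namespace Pool.Agent.H228Z.Sq

open Set Filter Topology Metric Pool.Agent.H6Z.Berg
open scoped Real ContDiff

/-- the exhaustion -/
noncomputable def VV (φ : ℂ → ℝ) (x : EE) : ℝ :=
  ‖x 1‖ ^ 2 * Real.exp (2 * φ (x 0)) + 2 * psi 2 0 (x 0)

theorem le_one_of_psi {z : ℂ} (h : 2 * psi 2 0 z ≤ 1) : ‖z‖ ≤ 1 := by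
  by_contra h1
  push Not at h1
  have hz : z ≠ 0 := norm_pos_iff.1 (by linarith)
  rw [psi_eq 2 hz, sub_zero] at h
  linarith [le_lam (2 + 2 * Real.log ‖z‖), Real.log_pos h1]

theorem psi_zero_of {z : ℂ} (h : ‖z‖ ≤ 1 / 3) : psi 2 0 z = 0 := by
  rw [psi, LL_eq_zero (b := 2) (by positivity) ?_ le_rfl, zero_div]
  rw [sub_zero, Real.exp_neg, show (2 : ℝ) = (2 : ℕ) * 1 by norm_num, Real.exp_nat_mul]
  have h1 := Real.exp_one_lt_d9
  calc ‖z‖ ^ 2 ≤ (1 / 3) ^ 2 := by gcongr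
    _ = (3 ^ 2)⁻¹ := by norm_num
    _ ≤ (Real.exp 1 ^ 2)⁻¹ := by gcongr; linarith

theorem psi_mono {z z' : ℂ} (h : ‖z‖ ≤ ‖z'‖) : psi 2 0 z ≤ psi 2 0 z' := by
  simp only [psi, sub_zero]
  gcongr
  exact LL_mono _ (by positivity) (by gcongr)

theorem coord_contDiff (i : Fin 2) : ContDiff ℝ ∞ fun x : EE => x i :=
  ((EuclideanSpace.proj (𝕜 := ℂ) i).restrictScalars ℝ).contDiff

theorem coord_diff (i : Fin 2) : Differentiable ℂ fun x : EE => x i :=
  (EuclideanSpace.proj (𝕜 := ℂ) i).differentiable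

variable {φ : ℂ → ℝ}

theorem VV_contDiff (h : ContDiff ℝ ∞ φ) : ContDiff ℝ ∞ (VV φ) :=
  (((coord_contDiff 1).norm_sq ℝ).mul (contDiff_const.mul (h.comp (coord_contDiff 0))).exp).add
    (contDiff_const.mul ((psi_contDiff 2 0).comp (coord_contDiff 0)))

theorem VV_z {x : EE} (h : VV φ x ≤ 1) : ‖x 0‖ ≤ 1 := by
  refine le_one_of_psi (le_trans ?_ h)
  exact le_add_of_nonneg_left (by positivity)

theorem VV_w {x : EE} (h : VV φ x ≤ 1) : ‖x 1‖ * Real.exp (φ (x 0)) ≤ 1 := by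
  have h1 : (‖x 1‖ * Real.exp (φ (x 0))) ^ 2 ≤ 1 := by
    rw [mul_pow, ← Real.exp_nat_mul]
    have := psi_nonneg 2 0 (x 0)
    simp only [VV] at h
    push_cast
    linarith
  exact (sq_le_one_iff₀ (by positivity)).1 h1

theorem VV_in {z w : ℂ} (hz : ‖z‖ ≤ 1 / 3) (h : ‖w‖ * Real.exp (φ z) < 1) : VV φ (mk z w) < 1 := by
  have h1 : (‖w‖ * Real.exp (φ z)) ^ 2 < 1 := (sq_lt_one_iff₀ (by positivity)).2 h
  rw [mul_pow, ← Real.exp_nat_mul] at h1
  simp only [VV, mk_zero, mk_one, psi_zero_of hz]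
  push_cast at h1
  linarith

theorem VV_bdd (h0 : ∀ z, 0 ≤ φ z) : {x | VV φ x ≤ 1} ⊆ closedBall 0 2 := fun x hx => by
  have h1 := VV_z hx
  have h2 : ‖x 1‖ ≤ 1 :=
    (le_mul_of_one_le_right (norm_nonneg _) (Real.one_le_exp (h0 _))).trans (VV_w hx)
  rw [mem_closedBall_zero_iff]
  have h3 := EuclideanSpace.norm_sq_eq x
  rw [Fin.sum_univ_two] at h3
  nlinarith [norm_nonneg x, norm_nonneg (x 0), norm_nonneg (x 1)]

theorem VV_grad (h : ContDiff ℝ ∞ φ) (x : EE) (hx : VV φ x - 1 = 0) :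
    fderiv ℝ (fun x => VV φ x - 1) x ≠ 0 := by
  intro h0
  have hd : DifferentiableAt ℝ (fun x => VV φ x - 1) x :=
    (((VV_contDiff h).sub contDiff_const).differentiable (by simp)) x
  have hl : ∀ v, HasDerivAt (fun t : ℝ => VV φ (x + t • v) - 1) 0 0 := fun v => by
    have := hd.hasFDerivAt.hasLineDerivAt v
    rw [h0] at this
    exact this
  have hn : ∀ (t : ℝ) (z : ℂ), ‖z + t • z‖ ^ 2 = (1 + t) ^ 2 * ‖z‖ ^ 2 := fun t z => by
    rw [show z + t • z = (1 + t) • z by rw [add_smul, one_smul], norm_smul, mul_pow,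
      Real.norm_eq_abs, sq_abs]
  have hq : HasDerivAt (fun t : ℝ => (1 + t) ^ 2) 2 0 := by
    simpa using ((hasDerivAt_id' (0 : ℝ)).const_add 1).fun_pow 2
  have h1 : x 1 = 0 := by
    have k1 := hl (mk 0 (x 1))
    simp only [VV, PiLp.add_apply, PiLp.smul_apply, mk_zero, mk_one, smul_zero, add_zero, hn] at k1
    have k2 := k1.unique ((((hq.mul_const _).mul_const _).add_const _).sub_const _)
    have k3 := Real.exp_pos (2 * φ (x 0))
    have k4 : ‖x 1‖ ^ 2 = 0 := by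
      have := (mul_eq_zero.1 k2.symm).resolve_right k3.ne'
      linarith
    simpa using k4
  have h2 : lam (Real.log (Real.exp 2 * ‖x 0‖ ^ 2)) = 1 := by
    simp only [VV, h1, psi, LL, sub_zero] at hx
    simp only [norm_zero] at hx
    linarith
  have h3 : Real.exp 2 * ‖x 0‖ ^ 2 ≠ 0 := fun h => by
    rw [h, Real.log_zero, lam_zero] at h2
    exact zero_ne_one h2
  have k1 := hl (mk (x 0) 0)
  simp only [VV, PiLp.add_apply, PiLp.smul_apply, mk_zero, mk_one, smul_zero, add_zero, h1,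
    psi, LL, sub_zero, hn, norm_zero, ne_eq, OfNat.ofNat_ne_zero, not_false_eq_true, zero_pow,
    zero_mul, zero_add] at k1
  have k2 : HasDerivAt (fun t : ℝ => Real.log (Real.exp 2 * ((1 + t) ^ 2 * ‖x 0‖ ^ 2))) 2 0 := by
    have := ((hq.mul_const (‖x 0‖ ^ 2)).const_mul (Real.exp 2)).log (by simpa using h3)
    refine this.congr_deriv ?_
    rw [div_eq_iff (by simpa using h3)]
    ring
  have k3 := (lam_hasDerivAt _).comp (0 : ℝ) k2
  have k4 := k1.unique (((k3.div_const 2).const_mul 2).sub_const 1)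
  have k5 := Real.smoothTransition.pos_of_pos (pos_of_lam_pos (h2 ▸ one_pos))
  simp only [add_zero, one_pow, one_mul] at k4
  linarith

theorem VV_conn : IsConnected {x | VV φ x - 1 < 0} := by
  have hz : (0 : EE) ∈ {x | VV φ x - 1 < 0} := by
    simp [VV, psi_self]
  refine ⟨⟨0, hz⟩, isPreconnected_of_forall 0 fun y hy => ?_⟩
  refine ⟨segment ℝ 0 (mk (y 0) 0) ∪ segment ℝ (mk (y 0) 0) y, ?_, Or.inl (left_mem_segment _ _ _),
    Or.inr (right_mem_segment _ _ _), IsPreconnected.union (mk (y 0) 0) (right_mem_segment _ _ _)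
      (left_mem_segment _ _ _) (convex_segment _ _).isPreconnected
      (convex_segment _ _).isPreconnected⟩
  have hs : ∀ (b : ℝ) (z : ℂ), 0 ≤ b → b ≤ 1 → ‖b • z‖ ≤ ‖z‖ := fun b z h0 h1 => by
    rw [norm_smul, Real.norm_of_nonneg h0]
    exact mul_le_of_le_one_left (norm_nonneg _) h1
  simp only [mem_ofPred_eq, VV] at hy
  rintro x (⟨a, b, ha, hb, hab, rfl⟩ | ⟨a, b, ha, hb, hab, rfl⟩)
  · simp only [mem_ofPred_eq, VV, smul_zero, zero_add, PiLp.smul_apply, mk_zero, mk_one, norm_zero]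
    have h1 := psi_mono (hs b (y 0) hb (by linarith))
    have h2 : 0 ≤ ‖y 1‖ ^ 2 * Real.exp (2 * φ (y 0)) := by positivity
    linarith
  · simp only [mem_ofPred_eq, VV, smul_zero, zero_add, PiLp.smul_apply, PiLp.add_apply, mk_zero,
      mk_one, ← add_smul, hab, one_smul]
    have h1 := hs b (y 1) hb (by linarith)
    have h2 : ‖b • y 1‖ ^ 2 * Real.exp (2 * φ (y 0)) ≤ ‖y 1‖ ^ 2 * Real.exp (2 * φ (y 0)) := by
      gcongr
    linarith

theorem hull_sub (hA : Ap φ) {K : Set EE} {v : ℝ} (hv : v ≤ 1) (hK : ∀ k ∈ K, VV φ k ≤ v) {q : EE}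
    (hq : VV φ q ≤ 1) (hh : ∀ f : EE → ℂ, Differentiable ℂ f → ∀ c : ℝ, (∀ w ∈ K, ‖f w‖ ≤ c) →
      ‖f q‖ ≤ c) : VV φ q ≤ v := by
  by_contra hcon
  push Not at hcon
  have hK1 : ∀ k ∈ K, ‖k 0‖ ≤ 1 := fun k hk => VV_z ((hK k hk).trans hv)
  rcases eq_or_ne (q 1) 0 with h1 | h1
  · obtain ⟨N, hN, f, hf, a1, a2⟩ := ((eventually_gt_atTop 0).and
      (Ap_psi zero_le_two 2 0 (q 0) (VV_z hq) ((VV φ q - v) / 3) (by linarith))).exists
    have hN' : (0 : ℝ) < N := by exact_mod_cast hN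
    have h2 := hh (fun x => f (x 0)) (hf.comp (coord_diff 0))
      (Real.exp (N * (v + (VV φ q - v) / 3))) fun k hk => (a2 _ (hK1 k hk)).trans (by
        have : 2 * psi 2 0 (k 0) ≤ v := le_trans (le_add_of_nonneg_left (by positivity)) (hK k hk)
        gcongr)
    have h3 := le_of_mul_le_mul_left (Real.exp_le_exp.1 (a1.trans h2)) hN'
    have h4 : VV φ q = 2 * psi 2 0 (q 0) := by simp [VV, h1]
    linarith
  · have hq1 : 0 < ‖q 1‖ := norm_pos_iff.2 h1
    set A := ‖q 1‖ ^ 2 * Real.exp (2 * φ (q 0)) with hAdef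
    have hA0 : 0 < A := by positivity
    have hlog : Real.log A = 2 * Real.log ‖q 1‖ + 2 * φ (q 0) := by
      rw [hAdef, Real.log_mul (by positivity) (by positivity), Real.log_pow, Real.log_exp]
      norm_num
    set δ := (VV φ q - v) / (6 * A) with hδ
    have hδ0 : 0 < δ := div_pos (by linarith) (by positivity)
    obtain ⟨N, hN, f, hf, a1, a2⟩ := ((eventually_gt_atTop 0).and
      ((hA.add (Ap_psi (inv_nonneg.2 hA0.le) 2 0)) (q 0) (VV_z hq) δ hδ0)).exists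
    have hN' : (0 : ℝ) < N := by exact_mod_cast hN
    have h2 := hh (fun x => x 1 ^ N * f (x 0))
      (((coord_diff 1).pow N).mul (hf.comp (coord_diff 0)))
      (Real.exp (N * ((v / A - 1 + Real.log A) / 2 + δ))) fun k hk => by
        rcases eq_or_ne (k 1) 0 with k1 | k1
        · simp only [k1, zero_pow hN.ne', zero_mul, norm_zero]
          exact (Real.exp_pos _).le
        have k2 : 0 < ‖k 1‖ := norm_pos_iff.2 k1
        rw [norm_mul, norm_pow]
        refine (mul_le_mul_of_nonneg_left (a2 _ (hK1 k hk)) (by positivity)).trans ?_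
        rw [← Real.exp_log k2, ← Real.exp_nat_mul, ← Real.exp_add, Real.exp_le_exp, ← mul_add]
        refine mul_le_mul_of_nonneg_left ?_ hN'.le
        have k3 : ‖k 1‖ ^ 2 * Real.exp (2 * φ (k 0)) =
            A * Real.exp (2 * Real.log ‖k 1‖ + 2 * φ (k 0) - Real.log A) := by
          rw [Real.exp_sub, Real.exp_log hA0, mul_div_cancel₀ _ hA0.ne', Real.exp_add,
            show 2 * Real.log ‖k 1‖ = (2 : ℕ) * Real.log ‖k 1‖ by norm_num, Real.exp_nat_mul,
            Real.exp_log k2]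
        have k4 := mul_le_mul_of_nonneg_left
          (Real.add_one_le_exp (2 * Real.log ‖k 1‖ + 2 * φ (k 0) - Real.log A)) hA0.le
        have k5 := hK k hk
        simp only [VV] at k5
        have k6 : 2 * Real.log ‖k 1‖ + 2 * φ (k 0) - Real.log A + 1 + 2 * (A⁻¹ * psi 2 0 (k 0)) ≤
            v / A := by
          rw [le_div_iff₀ hA0]
          have : A⁻¹ * psi 2 0 (k 0) * A = psi 2 0 (k 0) := by field_simp
          nlinarith
        linarith
    rw [norm_mul, norm_pow] at h2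
    have h3 := (mul_le_mul_of_nonneg_left a1 (by positivity)).trans h2
    rw [← Real.exp_log hq1, ← Real.exp_nat_mul, ← Real.exp_add, Real.exp_le_exp, ← mul_add] at h3
    have h4 := le_of_mul_le_mul_left h3 hN'
    have h5 : VV φ q = A + 2 * psi 2 0 (q 0) := rfl
    have h6 : A⁻¹ * psi 2 0 (q 0) = (VV φ q / A - 1) / 2 := by
      rw [h5]; field_simp; ring
    have h7 : VV φ q / A - v / A = 6 * δ := by
      rw [hδ]; field_simp
    linarith

theorem hull_compact (h : ContDiff ℝ ∞ φ) (h0 : ∀ z, 0 ≤ φ z) (hA : Ap φ) (K : Set EE)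
    (hK : IsCompact K) (hKΩ : K ⊆ {x | VV φ x - 1 < 0}) :
    IsCompact {z ∈ {x | VV φ x - 1 < 0} | ∀ f : EE → ℂ,
      DifferentiableOn ℂ f {x | VV φ x - 1 < 0} → ∀ c : ℝ, (∀ w ∈ K, ‖f w‖ ≤ c) → ‖f z‖ ≤ c} := by
  have hc := (VV_contDiff h).continuous
  obtain ⟨v, hv, hKv⟩ : ∃ v < 1, ∀ k ∈ K, VV φ k ≤ v := by
    rcases K.eq_empty_or_nonempty with rfl | hne
    · exact ⟨0, one_pos, by simp⟩
    · obtain ⟨x, hx, hm⟩ := hK.exists_isMaxOn hne hc.continuousOn
      exact ⟨VV φ x, sub_neg.1 (hKΩ hx), fun k hk => hm hk⟩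
  have hcl : IsClosed {x | VV φ x ≤ v} := isClosed_le hc continuous_const
  have hC : IsCompact {x | VV φ x ≤ v} := (isCompact_closedBall (0 : EE) 2).of_isClosed_subset hcl
    fun x hx => VV_bdd h0 (le_trans hx hv.le)
  have hCΩ : {x | VV φ x ≤ v} ⊆ {x | VV φ x - 1 < 0} := fun x hx => sub_neg.2 (lt_of_le_of_lt hx hv)
  have e : {z ∈ {x | VV φ x - 1 < 0} | ∀ f : EE → ℂ,
      DifferentiableOn ℂ f {x | VV φ x - 1 < 0} → ∀ c : ℝ, (∀ w ∈ K, ‖f w‖ ≤ c) → ‖f z‖ ≤ c} =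
      {x | VV φ x ≤ v} ∩ ⋂ (f : EE → ℂ) (_ : DifferentiableOn ℂ f {x | VV φ x - 1 < 0}) (c : ℝ)
        (_ : ∀ w ∈ K, ‖f w‖ ≤ c), ({x | VV φ x ≤ v} ∩ (fun z => ‖f z‖) ⁻¹' Iic c) := by
    ext z
    simp only [mem_inter_iff, mem_iInter, mem_preimage, mem_Iic]
    constructor
    · rintro ⟨h1, h2⟩
      have h3 : VV φ z ≤ v := hull_sub hA hv.le hKv (sub_neg.1 h1).le
        fun f hf c hc => h2 f hf.differentiableOn c hc
      exact ⟨h3, fun f hf c hc => ⟨h3, h2 f hf c hc⟩⟩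
    · rintro ⟨h1, h2⟩
      exact ⟨hCΩ h1, fun f hf c hc => (h2 f hf c hc).2⟩
  rw [e]
  refine hC.inter_right (isClosed_iInter fun f => isClosed_iInter fun hf => isClosed_iInter
    fun c => isClosed_iInter fun _ => ?_)
  exact (hf.continuousOn.mono hCΩ).norm.preimage_isClosed_of_isClosed hcl isClosed_Iic

end Pool.Agent.H228Z.Sq
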