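import Pool.Agent.H228Z.SqE

/-!
The weight with infinitely many features.
-/

set_option autoImplicit false

namespace Pool.Agent.H228Z.Sq

open Set Filter Topology Metric Pool.Agent.H6Z.Berg
open scoped Real ContDiff

/-- real part of a holomorphic function -/
def Hm (G : ℂ → ℝ) (U : Set ℂ) : Prop :=
  ∃ H : ℂ → ℂ, DifferentiableOn ℂ H U ∧ ∀ z ∈ U, (H z).re = G z

theorem Hm.add {G₁ G₂ : ℂ → ℝ} {U : Set ℂ} (h₁ : Hm G₁ U) (h₂ : Hm G₂ U) :
    Hm (fun z => G₁ z + G₂ z) U := by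
  obtain ⟨H₁, d₁, e₁⟩ := h₁
  obtain ⟨H₂, d₂, e₂⟩ := h₂
  exact ⟨fun z => H₁ z + H₂ z, d₁.add d₂, fun z hz => by rw [Complex.add_re, e₁ z hz, e₂ z hz]⟩

theorem Hm.mul {G : ℂ → ℝ} {U : Set ℂ} (h : Hm G U) (κ : ℝ) : Hm (fun z => κ * G z) U := by
  obtain ⟨H, d, e⟩ := h
  exact ⟨fun z => κ * H z, d.const_mul _, fun z hz => by rw [Complex.re_ofReal_mul, e z hz]⟩

theorem Hm.congr {G₁ G₂ : ℂ → ℝ} {U : Set ℂ} (h : Hm G₁ U) (e : ∀ z ∈ U, G₁ z = G₂ z) :
    Hm G₂ U := by
  obtain ⟨H, d, e₁⟩ := h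
  exact ⟨H, d, fun z hz => (e₁ z hz).trans (e z hz)⟩

theorem Hm_sum {G : ℕ → ℂ → ℝ} {U : Set ℂ} (n : ℕ) (h : ∀ i < n, Hm (G i) U) :
    Hm (fun z => ∑ i ∈ Finset.range n, G i z) U := by
  induction n with
  | zero => exact ⟨fun _ => 0, differentiableOn_const _, by simp⟩
  | succ n ih =>
    simpa only [Finset.sum_range_succ] using
      (ih fun i hi => h i (by omega)).add (h n (by omega))

theorem Hm_psi {η : ℝ} (hη : 0 < η) {a : ℂ} {U : Set ℂ} (h : ∀ z ∈ U, η ≤ (a - z).re) :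
    Hm (psi (1 - 2 * Real.log η) a) U := by
  refine ⟨fun z => ((1 - 2 * Real.log η - (1 - lam 1)) / 2 : ℝ) + Complex.log (a - z),
    fun z hz => ?_, fun z hz => ?_⟩
  · exact ((differentiableAt_const _).fun_add (((differentiableAt_const _).fun_sub
      differentiableAt_id).clog (Or.inl (hη.trans_le (h z hz))))).differentiableWithinAt
  · rw [psi_lin hη (by rw [norm_sub_rev]; exact (h z hz).trans (Complex.re_le_norm _)),
      Complex.add_re, Complex.ofReal_re, Complex.log_re, norm_sub_rev]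

/-- the weight of one feature -/
noncomputable def uu (b : ℂ) (r η : ℝ) (M : ℕ) (z : ℂ) : ℝ :=
  M * psi (1 - 2 * Real.log η) (b - r) z + (M + 1) * psi (1 - 2 * Real.log η) (b + r) z

theorem feature {φ S : ℂ → ℝ} (hφ : ContDiff ℝ ∞ φ) {b : ℂ} {R T : ℝ}
    (hR : 0 < R) (hb : ‖b‖ + R ≤ 1 / 3) {M L : ℕ} (hM : 7 ≤ M) (hL : M ≤ L) (hT : 13 ≤ T)
    (hA : ∀ (L : ℝ), 0 < L → ∀ (F : ℂ × ℂ → ℂ),
      DifferentiableOn ℂ F (UU T (M / L) ((M + 1) / L)) →
      (∀ x ∈ UU T (M / L) ((M + 1) / L), ‖F x‖ ≤ 1) →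
      ‖F (0, Complex.exp ((-(M : ℝ) + π * Complex.I) / L)) - F (0, Complex.exp (-(M : ℝ) / L))‖ ≤
        100 / (M : ℝ) ^ 2)
    (hS : Hm S (ball b R))
    (h1 : ∀ z ∈ ball b R,
      S z + uu b (R * Real.exp (-T)) (R * Real.exp (-T) * Real.exp (-T)) M z / L ≤ φ z)
    (h2 : ∀ z ∈ ball b R,
      φ z ≤ S z + uu b (R * Real.exp (-T)) (R * Real.exp (-T) * Real.exp (-T)) M z / L + 1 / L) :
    ∃ p ∈ {x | VV φ x - 1 < 0}, ∀ (c : ℝ) (f : EE → EE), 0 < c →
      DifferentiableOn ℂ f {x | VV φ x - 1 < 0} → InjOn f {x | VV φ x - 1 < 0} →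
      MapsTo f {x | VV φ x - 1 < 0} (ball 0 1) → f p = 0 → ball 0 c ⊆ f '' {x | VV φ x - 1 < 0} →
      c * (R * M) ≤ 13200 := by
  obtain ⟨H, hH, hHS⟩ := hS
  set r : ℝ := R * Real.exp (-T) with hr
  have hr0 : 0 < r := by positivity
  have hr' : (r : ℂ) ≠ 0 := by exact_mod_cast hr0.ne'
  set η : ℝ := r * Real.exp (-T) with hη
  have hη0 : 0 < η := by positivity
  have hL0 : (0 : ℝ) < L := by exact_mod_cast (by omega : 0 < L)
  set κ : ℝ := (1 - 2 * Real.log η - (1 - lam 1)) / 2 + Real.log r with hκ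
  have n1 : ∀ s : ℂ, ‖b + r * s - (b - r)‖ = r * ‖s + 1‖ := fun s => by
    rw [show b + r * s - (b - r) = r * (s + 1) by ring, norm_mul, Complex.norm_real,
      Real.norm_of_nonneg hr0.le]
  have n2 : ∀ s : ℂ, ‖b + r * s - (b + r)‖ = r * ‖s - 1‖ := fun s => by
    rw [show b + r * s - (b + r) = r * (s - 1) by ring, norm_mul, Complex.norm_real,
      Real.norm_of_nonneg hr0.le]
  refine local_bound (isOpen_lt ((VV_contDiff hφ).continuous.sub continuous_const)
    continuous_const) (fun x hx => VV_z (sub_neg.1 hx).le) hR (by linarith [norm_nonneg b]) hM hL hT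
    (H := fun z => H z + (((2 * M + 1) * κ + 1) / L : ℝ)) (hH.add_const _) hA (fun x hx => ?_)
    fun y hy hy0 => ?_
  · have hz : b + r * x.1 ∈ ball b R := by
      rw [mem_ball_iff_norm, add_sub_cancel_left, norm_mul, Complex.norm_real,
        Real.norm_of_nonneg hr0.le]
      calc r * ‖x.1‖ < r * Real.exp T := by gcongr; exact hx.1
        _ = R := by rw [hr, mul_assoc, ← Real.exp_add]; simp
    refine sub_neg.2 (VV_in ?_ (lt_of_le_of_lt ?_ hx.2.2.2))
    · have := norm_add_le b (r * x.1)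
      rw [mem_ball_iff_norm, add_sub_cancel_left] at hz
      linarith
    · rw [norm_mul, Complex.norm_exp, mul_assoc, ← Real.exp_add, ← hr, Complex.neg_re,
        Complex.add_re, Complex.ofReal_re, hHS _ hz]
      gcongr
      have p1 : 0 < ‖x.1 + 1‖ := (Real.exp_pos _).trans hx.2.1
      have p2 : 0 < ‖x.1 - 1‖ := (Real.exp_pos _).trans hx.2.2.1
      have k := h2 _ hz
      rw [uu, psi_lin hη0 (by rw [n1]; exact mul_le_mul_of_nonneg_left hx.2.1.le hr0.le),
        psi_lin hη0 (by rw [n2]; exact mul_le_mul_of_nonneg_left hx.2.2.1.le hr0.le), n1, n2,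
        Real.log_mul hr0.ne' p1.ne', Real.log_mul hr0.ne' p2.ne', ← add_assoc, ← add_assoc,
        ← hκ] at k
      have e : hh (M / L) ((M + 1) / L) x.1 = -(((2 * M + 1) * κ + 1) / L) +
          (M * (κ + Real.log ‖x.1 + 1‖) + (M + 1) * (κ + Real.log ‖x.1 - 1‖)) / L + 1 / L := by
        unfold hh
        field_simp
        ring
      rw [e]
      linarith
  · rw [← hr]
    set s : ℂ := (y 0 - b) / r with hs
    have hys : y 0 = b + r * s := by rw [hs]; field_simp; ring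
    rcases eq_or_ne (s + 1) 0 with k1 | k1
    · rw [k1, zero_pow (by omega), mul_zero, zero_mul, norm_zero]
      exact (Real.exp_pos _).le
    rcases eq_or_ne (s - 1) 0 with k2 | k2
    · rw [k2, zero_pow (by omega), mul_zero, norm_zero]
      exact (Real.exp_pos _).le
    have p1 : 0 < ‖s + 1‖ := norm_pos_iff.2 k1
    have p2 : 0 < ‖s - 1‖ := norm_pos_iff.2 k2
    have q1 := psi_ge (1 - 2 * Real.log η) (a := b - r) (z := b + r * s)
      (sub_ne_zero.1 (norm_pos_iff.1 (by rw [n1]; positivity)))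
    have q2 := psi_ge (1 - 2 * Real.log η) (a := b + r) (z := b + r * s)
      (sub_ne_zero.1 (norm_pos_iff.1 (by rw [n2]; positivity)))
    rw [n1, Real.log_mul hr0.ne' p1.ne', ← add_assoc, ← hκ, ← hys] at q1
    rw [n2, Real.log_mul hr0.ne' p2.ne', ← add_assoc, ← hκ, ← hys] at q2
    have q3 : M * (κ + Real.log ‖s + 1‖) + (M + 1) * (κ + Real.log ‖s - 1‖) ≤ uu b r η M (y 0) := by
      unfold uu
      gcongr
    have q4 : ‖y 1‖ ≤ Real.exp (-φ (y 0)) := by
      rw [Real.exp_neg, ← one_div, le_div_iff₀ (Real.exp_pos _)]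
      exact VV_w (sub_neg.1 hy).le
    have q5 := h1 _ hy0
    rw [norm_mul, norm_mul, norm_pow, norm_pow, norm_pow, norm_mul, Complex.norm_exp,
      Complex.add_re, Complex.ofReal_re, hHS _ hy0]
    calc _ ≤ (Real.exp (-φ (y 0)) * Real.exp (S (y 0) + ((2 * M + 1) * κ + 1) / L)) ^ L *
          ‖s + 1‖ ^ M * ‖s - 1‖ ^ (M + 1) := by gcongr
      _ = Real.exp (L * (-φ (y 0) + (S (y 0) + ((2 * M + 1) * κ + 1) / L)) +
          M * Real.log ‖s + 1‖ + (M + 1 : ℕ) * Real.log ‖s - 1‖) := by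
          rw [Real.exp_add (_ + _) (_ * _), Real.exp_add (_ * _) (_ * _), Real.exp_nat_mul,
            Real.exp_nat_mul, Real.exp_nat_mul, Real.exp_log p1, Real.exp_log p2,
            Real.exp_add (-φ (y 0))]
      _ ≤ _ := by
          rw [Real.exp_le_exp]
          have q6 := mul_le_mul_of_nonneg_left q5 hL0.le
          rw [mul_add, mul_div_cancel₀ _ hL0.ne'] at q6
          rw [mul_add, mul_add, mul_div_cancel₀ _ hL0.ne']
          push_cast
          linarith

theorem exists_weight : ∃ φ : ℂ → ℝ, ContDiff ℝ ∞ φ ∧ (∀ z, 0 ≤ φ z) ∧ Ap φ ∧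
    ∀ n : ℕ, ∃ p ∈ {x | VV φ x - 1 < 0}, ∀ (c : ℝ) (f : EE → EE), 0 < c →
      DifferentiableOn ℂ f {x | VV φ x - 1 < 0} → InjOn f {x | VV φ x - 1 < 0} →
      MapsTo f {x | VV φ x - 1 < 0} (ball 0 1) → f p = 0 → ball 0 c ⊆ f '' {x | VV φ x - 1 < 0} →
      c * (n + 1) ≤ 13200 := by
  set M : ℕ → ℕ := fun n => 16 * 2 ^ n * (n + 1) with hM
  have hM1 : ∀ n, 16 * (n + 1) ≤ M n := fun n =>
    Nat.mul_le_mul_right _ (Nat.le_mul_of_pos_right _ (by positivity))
  have hM7 : ∀ n, 7 ≤ M n := fun n => by have := hM1 n; omega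
  choose T hT hA using fun n => thmA (M := M n) (by exact_mod_cast hM7 n)
  set b : ℕ → ℝ := fun n => (1 / 2) ^ n / 4 with hb
  set R : ℕ → ℝ := fun n => (1 / 2) ^ n / 16 with hR
  have hR0 : ∀ n, 0 < R n := fun n => by positivity
  set u : ℕ → ℂ → ℝ := fun n => uu (b n) (R n * Real.exp (-T n))
    (R n * Real.exp (-T n) * Real.exp (-T n)) (M n) with hu
  let β : ContDiffBump (0 : ℂ) := ⟨1, 2, one_pos, one_lt_two⟩
  have hβ : ∀ z : ℂ, ‖z‖ ≤ 1 → β z = 1 := fun z hz =>
    β.one_of_mem_closedBall (mem_closedBall_zero_iff.2 hz)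
  have hu0 : ∀ n z, 0 ≤ u n z := fun n z =>
    add_nonneg (mul_nonneg (by positivity) (psi_nonneg _ _ _))
      (mul_nonneg (by positivity) (psi_nonneg _ _ _))
  obtain ⟨L, φ, hML, hL0, hφ, hφ'⟩ := exists_L (g := fun n z => β z * u n z)
    (fun n => β.contDiff.mul ((contDiff_const.mul (psi_contDiff _ _)).add
      (contDiff_const.mul (psi_contDiff _ _))))
    (fun n => β.hasCompactSupport.mul_right) (fun n z => mul_nonneg β.nonneg (hu0 n z)) M
  have hL0' : ∀ n, (0 : ℝ) < L n := fun n => by exact_mod_cast hL0 n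
  refine ⟨φ, hφ, fun z => le_trans (Finset.sum_nonneg fun i _ =>
    div_nonneg (mul_nonneg β.nonneg (hu0 i z)) (hL0' i).le) (hφ' 0 z).1, ?_, fun n => ?_⟩
  · refine Ap.of_approx fun δ hδ => ?_
    obtain ⟨n, hn⟩ := exists_nat_one_div_lt hδ
    refine ⟨fun z => ∑ i ∈ Finset.range (n + 1), u i z / L i, Ap_sum (fun i => ?_) _,
      fun z hz => ?_⟩
    · have := (Ap_psi (κ := M i / L i) (div_nonneg (by positivity) (hL0' i).le)
        (1 - 2 * Real.log (R i * Real.exp (-T i) * Real.exp (-T i)))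
        (b i - (R i * Real.exp (-T i) : ℝ))).add (Ap_psi (κ := (M i + 1) / L i)
        (div_nonneg (by positivity) (hL0' i).le)
        (1 - 2 * Real.log (R i * Real.exp (-T i) * Real.exp (-T i)))
        (b i + (R i * Real.exp (-T i) : ℝ)))
      convert this using 2 with z
      simp only [hu, uu]
      ring
    · have h1 := hφ' n z
      simp only [hβ z hz, one_mul] at h1
      have h2 : (1 : ℝ) / L n ≤ 1 / (n + 1) := by
        have : n + 1 ≤ L n := by have := hM1 n; have := hML n; omega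
        have : (n + 1 : ℝ) ≤ L n := by exact_mod_cast this
        gcongr
      rw [abs_le]
      constructor <;> linarith [h1.1, h1.2]
  · have hp : (1 / 2 : ℝ) ^ n ≤ 1 := pow_le_one₀ (by norm_num) (by norm_num)
    have hbn : ‖(b n : ℂ)‖ + R n ≤ 1 / 3 := by
      rw [Complex.norm_real, Real.norm_of_nonneg (by positivity)]
      simp only [hb, hR]
      linarith
    have hz1 : ∀ z ∈ ball (b n : ℂ) (R n), ‖z‖ ≤ 1 := fun z hz => by
      have := norm_le_norm_add_norm_sub' z (b n)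
      rw [mem_ball_iff_norm] at hz
      linarith
    have hS : Hm (fun z => ∑ i ∈ Finset.range n, u i z / L i) (ball (b n : ℂ) (R n)) := by
      refine Hm_sum n fun i hi => ?_
      have e1 : Real.exp (-T i) ≤ 1 / 2 := by
        rw [Real.exp_neg, ← one_div]
        gcongr
        linarith [Real.add_one_le_exp (T i), hT i]
      have e0 := Real.exp_pos (-T i)
      have e2 : R i * Real.exp (-T i) ≤ R i / 2 := by nlinarith [hR0 i]
      have e3 : R i * Real.exp (-T i) * Real.exp (-T i) ≤ R i / 2 := by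
        nlinarith [mul_pos (hR0 i) e0]
      have e4 : (1 / 2 : ℝ) ^ n ≤ (1 / 2) ^ i / 2 := by
        rw [div_eq_mul_one_div ((1 / 2 : ℝ) ^ i), ← pow_succ]
        exact pow_le_pow_of_le_one (by norm_num) (by norm_num) hi
      have e5 : ∀ z ∈ ball (b n : ℂ) (R n), z.re ≤ b i - R i := fun z hz => by
        have := (Complex.re_le_norm _).trans_lt (mem_ball_iff_norm.1 hz)
        rw [Complex.sub_re, Complex.ofReal_re] at this
        have e6 : (0 : ℝ) < (1 / 2) ^ i := by positivity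
        simp only [hb, hR] at this ⊢
        linarith
      have e6 : 0 < R i * Real.exp (-T i) := mul_pos (hR0 i) e0
      refine ((((Hm_psi (mul_pos e6 e0) (a := b i - (R i * Real.exp (-T i) : ℝ))
        fun z hz => ?_).mul (M i)).add ((Hm_psi (mul_pos e6 e0)
        (a := b i + (R i * Real.exp (-T i) : ℝ)) fun z hz => ?_).mul (M i + 1))).mul
        (L i : ℝ)⁻¹).congr fun z _ => ?_
      · simp only [Complex.sub_re, Complex.ofReal_re]
        linarith [e5 z hz]
      · simp only [Complex.sub_re, Complex.add_re, Complex.ofReal_re]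
        linarith [e5 z hz]
      · simp only [hu, uu]
        ring
    obtain ⟨p, hp, h⟩ := feature hφ (hR0 n) hbn (hM7 n) (hML n) (hT n) (hA n) hS
      (fun z hz => by simpa only [hβ z (hz1 z hz), one_mul, Finset.sum_range_succ] using (hφ' n z).1)
      (fun z hz => by simpa only [hβ z (hz1 z hz), one_mul, Finset.sum_range_succ] using (hφ' n z).2)
    refine ⟨p, hp, fun c f h1 h2 h3 h4 h5 h6 => ?_⟩
    have e : R n * M n = n + 1 := by
      simp only [hR, hM]
      push_cast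
      rw [one_div, inv_pow]
      field_simp
    rw [← e]
    exact h c f h1 h2 h3 h4 h5 h6

end Pool.Agent.H228Z.Sq
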